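import Pool.Agent.P.MP_1a0ecf_al.K4.S1
import Pool.Agent.P.MP_1a0ecf_al.K.KB1

/-! Package S3: packed polynomials; degrees and leading coefficients. -/

namespace Pool.Agent.P.MP_1a0ecf_al.K4

open Finset K

noncomputable section

section Vl

variable {V V' : Vl} {q q' : PP}

private theorem mo_one : mo 0 0 1 = 1 := by rw [mo_int, Int.cast_one]

theorem one_is : one.Is 1 :=
  ⟨by simp [one], mo_one ▸ Bd.mo (by simp) (by simp) (by simp [one])⟩

theorem nul_is : nul.Is 0 := ⟨by simp [nul], Bd.zero _ _ _⟩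

private theorem sub_sub_cast (p m : ℕ) : ((p - m : ℕ) : ℚ) - (m - p : ℕ) = p - m := by
  rcases le_total p m with h | h
  · rw [Nat.sub_eq_zero_of_le h, Nat.cast_sub h]; simp
  · rw [Nat.sub_eq_zero_of_le h, Nat.cast_sub h]; simp

private theorem pv_cons (t : ℕ) (l : List ℕ) : pv (t :: l) = tv t + pv l := List.sum_cons

private theorem pp_cons (n : ℕ) (p : List ℕ) : pp (n :: p) = pv (un n) * pp p := List.prod_cons

private theorem rI_cons {t x : ℕ} {l : List ℕ} (h : rI (t :: l) ≤ x) :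
    (tI t ≤ x + 32 ∧ 32 ≤ tI t + x) ∧ rI l ≤ x := by
  have e : rI (t :: l) = mxN (tI t - 32 + (32 - tI t)) (rI l) := rfl
  rw [e, mxN_eq] at h
  omega

private theorem rJ_cons {t y : ℕ} {l : List ℕ} (h : rJ (t :: l) ≤ y) :
    (tJ t ≤ y + 32 ∧ 32 ≤ tJ t + y) ∧ rJ l ≤ y := by
  have e : rJ (t :: l) = mxN (tJ t - 32 + (32 - tJ t)) (rJ l) := rfl
  rw [e, mxN_eq] at h
  omega

private theorem lv_val {x y : ℕ} (l : List ℕ) (hx : rI l ≤ x) (hy : rJ l ≤ y) :
    (lv false x y l : ℚ) - lv true x y l = ev 64 128 (pv l) * 2 ^ (64 * (x + 128 * y)) := by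
  induction l with
  | nil => simp [lv, pv]
  | cons t l ih =>
    obtain ⟨h1, h2⟩ := rI_cons hx
    obtain ⟨h3, h4⟩ := rJ_cons hy
    have e : ∀ g, lv g x y (t :: l) = sel (sel g (tG t) (nt (tG t)))
        (tC t <<< (64 * (tI t + x - 32 + 128 * (tJ t + y - 32))) + lv g x y l) (lv g x y l) :=
      fun _ => rfl
    have e2 : (2 : ℚ) ^ (((64 : ℕ) : ℤ) * (zI t + (128 : ℕ) * zJ t)) * 2 ^ (64 * (x + 128 * y)) =
        2 ^ (64 * (tI t + x - 32 + 128 * (tJ t + y - 32))) := by
      rw [← zpow_natCast, ← zpow_natCast, ← zpow_add₀ two_ne_zero, zI_eq, zJ_eq]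
      congr 1
      omega
    rw [e, e, pv_cons, map_add, add_mul, ← ih h2 h4, tv, ev_mo, mul_assoc, e2, zC_eq,
      Nat.shiftLeft_eq]
    cases tG t <;> simp [sel, nt, sg] <;> ring

private theorem bd_pv {x y x' y' w : ℕ} (h : Bd q x y w) (l : List ℕ) (hx : rI l ≤ x')
    (hy : rJ l ≤ y') : Bd (pv l * q) (x + x') (y + y') (w * l1 l) := by
  induction l with
  | nil => simpa [pv] using Bd.zero _ _ _
  | cons t l ih =>
    obtain ⟨h1, h2⟩ := rI_cons hx
    obtain ⟨h3, h4⟩ := rJ_cons hy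
    have e : l1 (t :: l) = tC t + l1 l := rfl
    rw [e, pv_cons, add_mul, mul_add, mul_comm w (tC t)]
    refine Bd.add (h.mo_mul ?_ ?_ ?_) (ih h2 h4)
    · rw [zI_eq, abs_le]; omega
    · rw [zJ_eq, abs_le]; omega
    · rw [zC_eq, sg]; split_ifs <;> simp

/-- for `rI l ≤ x`, `rJ l ≤ y`: `lv false x y l - lv true x y l` is the packed value of `pv l` and
`Bd (pv l * q) (V.x + x) (V.y + y) (V.w * l1 l)`, by induction on `l` -/
theorem mulL_is (l : List ℕ) (h : V.Is q) : (mulL l V).Is (pv l * q) := by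
  refine ⟨?_, bd_pv h.2 l le_rfl le_rfl⟩
  have h1 := lv_val l le_rfl le_rfl
  rw [← sub_sub_cast] at h1
  simp only [mulL, mul2, vn, Nat.add_eq, Nat.mul_eq, Nat.sub_eq]
  rw [sub_sub_cast, map_mul, show 64 * (V.x + rI l + 128 * (V.y + rJ l)) =
    64 * (rI l + 128 * rJ l) + 64 * (V.x + 128 * V.y) by ring, pow_add, mul_mul_mul_comm, ← h1,
    ← h.1]
  push_cast
  ring

private theorem pad_val (h : V.Is q) {x y : ℕ} (hx : V.x ≤ x) (hy : V.y ≤ y) :
    ((V.p : ℚ) - V.m) * 2 ^ pad V x y = ev 64 128 q * 2 ^ (64 * (x + 128 * y)) := by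
  have e : pad V x y = 64 * (x - V.x + 128 * (y - V.y)) := rfl
  rw [h.1, mul_assoc, ← pow_add, e]
  congr 2
  omega

theorem addV_is (h : V.Is q) (h' : V'.Is q') : (addV V V').Is (q + q') := by
  simp only [addV, mxN_eq]
  refine ⟨?_, (h.2.mono (le_max_left _ _) (le_max_left _ _) le_rfl).add
    (h'.2.mono (le_max_right _ _) (le_max_right _ _) le_rfl)⟩
  simp only [add2, vn, Nat.add_eq, Nat.sub_eq, Nat.shiftLeft_eq', Nat.shiftLeft_eq]
  rw [sub_sub_cast, map_add, add_mul, ← pad_val h (le_max_left _ _) (le_max_left _ _),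
    ← pad_val h' (le_max_right _ _) (le_max_right _ _)]
  push_cast
  ring

theorem negV_is (h : V.Is q) : (negV V).Is (-q) := by
  refine ⟨?_, h.2.neg⟩
  simp only [negV]
  rw [map_neg, neg_mul, ← h.1, neg_sub]

theorem prV_is (p : List ℕ) (h : V.Is q) : (prV p V).Is (pp p * q) := by
  induction p with
  | nil => simpa [pp, prV] using h
  | cons n p ih =>
    rw [pp_cons, mul_assoc]
    exact mulL_is _ ih

theorem zV_sound (h : V.Is q) (e : zV V = true) : q = 0 := by
  simp only [zV, an_eq, Nat.beq_eq, Nat.ble_eq, ltN_eq] at e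
  have h1 := h.1
  rw [e.1, sub_self] at h1
  exact h.2.ev_inj (b := 64) (D := 128) (by omega) (by omega)
    ((mul_eq_zero.1 h1.symm).resolve_right (by positivity))

end Vl

theorem Gl.cD_sound {G : Gl} {j : ℕ} (e : G.cD j = true) :
    pp (G.c j) * pp (gt G.ef [] j) = pp G.dl := by
  have := zV_sound (addV_is (prV_is (G.c j) (prV_is (gt G.ef [] j) one_is))
    (negV_is (prV_is G.dl one_is))) e
  rwa [mul_one, mul_one, add_neg_eq_zero] at this

private theorem cS_aux (G : Gl) (m : ℕ) {V : Vl} {q : PP} (h : V.Is q) (n : ℕ) :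
    (foN (fun j a => addV (mulL (G.CT j m) (G.E j)) a) V n).Is
      (∑ j ∈ range n, pv (G.CT j m) * pp (gt G.ef [] j) + q) := by
  induction n with
  | zero => simpa using h
  | succ n ih =>
    have := addV_is (mulL_is (G.CT n m) (prV_is (gt G.ef [] n) one_is)) ih
    rw [mul_one] at this
    rwa [sum_range_succ_comm, add_assoc]

theorem Gl.cS_sound {G : Gl} {m : ℕ} (e : G.cS m = true) :
    ∑ j ∈ range 25, pv (G.CT j m) * pp (gt G.ef [] j) = if m = 0 then pp G.dl else 0 := by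
  simp only [Gl.cS, sel_eq, Nat.beq_eq] at e
  split_ifs at e ⊢
  · have := zV_sound (cS_aux G m (negV_is (prV_is G.dl one_is)) 25) e
    rwa [mul_one, add_neg_eq_zero] at this
  · simpa using zV_sound (cS_aux G m nul_is 25) e

theorem spc_pv (l : List ℕ) : F.spc _ (pv l) = sv l := by
  induction l with
  | nil => simp [pv, sv]
  | cons t l ih =>
    have e : sv (t :: l) = zC t + sv l := rfl
    rw [pv_cons, map_add, ih, e, tv, spc_mo, Int.cast_add]

/-- the weights of the exponents -/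
def fa (a b : ℝ) : ℤ × ℤ →+ ℝ where
  toFun e := e.1 * a + e.2 * b
  map_zero' := by simp
  map_add' x y := by simp only [Prod.fst_add, Prod.snd_add, Int.cast_add]; ring

/-- the map to the field -/
def psi (a b : ℝ) : PP →+* KK ℝ := (algebraMap (GA ℝ) (KK ℝ)).comp (F.mapG (fa a b))

variable {a b : ℝ}

theorem psi_mem (p : PP) : psi a b p ∈ AA ℝ := ⟨_, rfl⟩

theorem psi_mo (i j c : ℤ) : psi a b (mo i j c) = c * (mK (i * a + j * b) : KK ℝ) := by
  have e : mo i j c = c * mo i j 1 := by rw [← mo_int, mo_mul, zero_add, zero_add, mul_one]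
  rw [e, map_mul, map_intCast]
  exact congrArg (fun z => (c : KK ℝ) * algebraMap (GA ℝ) (KK ℝ) z) (F.mapG_single _ _ _)

theorem psi_bar (p : PP) : bK ℝ (psi a b p) = psi a b (F.barG _ p) :=
  (bK_alg _).trans (congrArg (algebraMap (GA ℝ) (KK ℝ)) (F.mapG_barG (fa a b) p).symm)

theorem sp_psi (p : PP) : sp (psi a b p) = F.spc _ p :=
  (sp_alg _).trans (F.spc_mapG (fa a b) p)

theorem psi_ne {p : PP} (h : F.spc _ p ≠ 0) : psi a b p ≠ 0 := fun h0 =>
  h (by rw [← sp_psi (a := a) (b := b), h0, sp_zero])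

theorem det_psi_ne {n : ℕ} {M : Matrix (Fin n) (Fin n) PP} (h : (M.map (F.spc _)).det ≠ 0) :
    (M.map (psi a b)).det ≠ 0 := by
  rw [← RingHom.mapMatrix_apply, ← RingHom.map_det] at h ⊢
  exact psi_ne h

theorem psi_vp (s : ℕ) : psi a b (vp s) = (mK (if s < 2 then a else b) : KK ℝ) := by
  unfold vp
  split_ifs <;> simp [psi_mo]

theorem psi_vi (s : ℕ) : psi a b (vi s) = ((mK (if s < 2 then a else b))⁻¹ : (KK ℝ)ˣ) := by
  unfold vi
  split_ifs <;> simp [psi_mo, mK_neg]

/-- the parameters lie in the open cone spanned by `r` and `r'` -/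
structure Cone (r r' : ℤ × ℤ) (a b l m : ℝ) : Prop where
  hl : 0 < l
  hm : 0 < m
  ha : a = l * r.1 + m * r'.1
  hb : b = l * r.2 + m * r'.2

variable {r r' : ℤ × ℤ} {l m : ℝ}

private theorem co_term (c : ℤ) (γ δ : ℝ) :
    co ((c : KK ℝ) * (mK γ : KK ℝ)) δ = if δ = γ then (c : ℚ) else 0 := by
  rw [← Rat.cast_intCast, co_rat_mul, co_mK]
  split_ifs <;> simp

private theorem le_term (c : ℤ) {γ δ : ℝ} (h : γ ≤ δ) : Le ((c : KK ℝ) * (mK γ : KK ℝ)) δ :=
  fun e he => by rw [co_term, if_neg (h.trans_lt he).ne']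

private theorem ex_eq (h : Cone r r' a b l m) (t : ℕ) :
    zI t * a + zJ t * b = l * dt r t + m * dt r' t := by
  have e : ∀ r : ℤ × ℤ, dt r t = r.1 * zI t + r.2 * zJ t := fun _ => rfl
  rw [h.ha, h.hb, e, e]
  push_cast
  ring

private theorem lead_aux (h : Cone r r' a b l m) {M M' : ℤ} (L : List ℕ)
    (e : ∀ t ∈ L, dt r t ≤ M ∧ dt r' t ≤ M') :
    Le (psi a b (pv L)) (l * M + m * M') ∧ co (psi a b (pv L)) (l * M + m * M') =
      (fo (fun t a => sel (an (eqZ (dt r t) M) (eqZ (dt r' t) M')) (Int.add (zC t) a) a) 0 L :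
        ℤ) := by
  induction L with
  | nil => simpa [pv, co_zero] using Le.zero _
  | cons t L ih =>
    obtain ⟨h1, h2⟩ := ih fun t ht => e t (List.mem_cons_of_mem _ ht)
    obtain ⟨h3, h4⟩ := e t List.mem_cons_self
    have h5 := mul_le_mul_of_nonneg_left (Int.cast_le (R := ℝ).2 h3) h.hl.le
    have h6 := mul_le_mul_of_nonneg_left (Int.cast_le (R := ℝ).2 h4) h.hm.le
    rw [pv_cons, map_add, tv, psi_mo, ex_eq h]
    refine ⟨(le_term _ (add_le_add h5 h6)).add h1, ?_⟩
    rw [co_add, h2, co_term, fo_cons, sel_eq]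
    simp only [an_eq, eqZ_eq]
    by_cases h7 : dt r t = M ∧ dt r' t = M'
    · rw [if_pos h7, if_pos (by rw [h7.1, h7.2]), Int.add_def, Int.cast_add]
    · rw [if_neg h7, if_neg, zero_add]
      intro h8
      refine h7 ⟨?_, ?_⟩
      · exact Int.cast_injective (α := ℝ) (mul_left_cancel₀ h.hl.ne' (by linarith))
      · exact Int.cast_injective (α := ℝ) (mul_left_cancel₀ h.hm.ne' (by linarith))

private theorem le_mxL (r : ℤ × ℤ) {L : List ℕ} {t : ℕ} (h : t ∈ L) : dt r t ≤ mxL r L := by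
  induction L with
  | nil => exact absurd h List.not_mem_nil
  | cons s L ih =>
    have e : mxL r (s :: L) = mxZ (dt r s) (mxL r L) := rfl
    rw [e, mxZ_eq]
    rcases List.mem_cons.1 h with rfl | h
    · exact le_max_left _ _
    · exact (ih h).trans (le_max_right _ _)

/-- the exponent of `t` is `l * dt r t + m * dt r' t` -/
theorem lead_pv (h : Cone r r' a b l m) (L : List ℕ) :
    Le (psi a b (pv L)) (l * mxL r L + m * mxL r' L) ∧
      co (psi a b (pv L)) (l * mxL r L + m * mxL r' L) = ldL r r' L :=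
  lead_aux h L fun _ ht => ⟨le_mxL r ht, le_mxL r' ht⟩

/-- `Le.mul`, `co_mul_top` -/
theorem lead_pp (h : Cone r r' a b l m) (p : List ℕ) :
    Le (psi a b (pp p)) (l * mxP r p + m * mxP r' p) ∧
      co (psi a b (pp p)) (l * mxP r p + m * mxP r' p) = ldP r r' p := by
  induction p with
  | nil =>
    have h1 := le_term 1 (le_refl (0 : ℝ))
    have h2 := co_term 1 0 0
    simp only [mK_zero, Int.cast_one, Units.val_one, mul_one, if_true] at h1 h2
    simpa [pp, mxP, ldP] using And.intro h1 h2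
  | cons n p ih =>
    have e1 : ∀ r, mxP r (n :: p) = mxL r (un n) + mxP r p := fun _ => rfl
    have e2 : ldP r r' (n :: p) = ldL r r' (un n) * ldP r r' p := rfl
    obtain ⟨h1, h2⟩ := lead_pv h (un n)
    rw [pp_cons, map_mul, e1, e1, e2, Int.cast_add, Int.cast_add, mul_add, mul_add,
      add_add_add_comm, Int.cast_mul, ← h2, ← ih.2]
    exact ⟨h1.mul ih.1, co_mul_top h1 ih.1⟩

theorem le_pz (h : Cone r r' a b l m) {M M' : ℤ} {L : List ℕ}
    (e : ∀ t ∈ L, Rg.dg1 r M t = true ∧ Rg.dg1 r' M' t = true) :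
    Le (psi a b (pz L)) ((l * M + m * M') / 2) := by
  induction L with
  | nil => simpa [pz] using Le.zero _
  | cons t L ih =>
    have e1 : pz (t :: L) = ts t + pz L := List.sum_cons
    rw [e1, map_add]
    refine Le.add ?_ (ih fun t ht => e t (List.mem_cons_of_mem _ ht))
    obtain ⟨h1, h2⟩ := e t List.mem_cons_self
    simp only [Rg.dg1, an_eq, leZ_eq, Int.mul_def] at h1 h2
    have a1 := mul_le_mul_of_nonneg_left (Int.cast_le (R := ℝ).2 h1.1) h.hl.le
    have a2 := mul_le_mul_of_nonneg_left (Int.cast_le (R := ℝ).2 h1.2) h.hl.le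
    have a3 := mul_le_mul_of_nonneg_left (Int.cast_le (R := ℝ).2 h2.1) h.hm.le
    have a4 := mul_le_mul_of_nonneg_left (Int.cast_le (R := ℝ).2 h2.2) h.hm.le
    have a5 := ex_eq h t
    push_cast at a1 a2 a3 a4
    have b1 : Le (psi a b (tv t)) ((l * M + m * M') / 2) := by
      rw [tv, psi_mo]
      exact le_term _ (by linarith)
    unfold ts
    split_ifs
    · exact b1
    · rw [map_add, psi_mo]
      exact b1.add (le_term _ (by push_cast; linarith))

end

end Pool.Agent.P.MP_1a0ecf_al.K4
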