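import Pool.Agent.P.MP_1a0ecf_al.K.KB2
import Pool.Agent.P.MP_1a0ecf_al.K.KB3

/-! Certificates for cells: a full set of matrix representations. Definitions only. -/

namespace Pool.Agent.P.MP_1a0ecf_al.K4

open K Matrix
open scoped Classical

noncomputable section

variable {X : F.Cox} {Γ : Type} [AddCommGroup Γ] [LinearOrder Γ] [IsOrderedAddMonoid Γ]
  {L : Fin X.n → Γ}

/-- integral elements fixed by the bar involution -/
def SB (B : KB X Γ L) : Subring B.E.H :=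
  hr B.E (B.ze_mem (le_refl (AA Γ))) ⊓ RingHom.eqLocus B.bk (RingHom.id _)

/-- representations with invariant forms and integral elements that are triangular for `pos` -/
structure Wd (B : KB X Γ L) (ι : Type) [Fintype ι] where
  d : ι → ℕ
  d_pos : ∀ j, 0 < d j
  ρ : ∀ j, B.E.H →ₐ[KK Γ] Matrix (Fin (d j)) (Fin (d j)) (KK Γ)
  g : ∀ j, Matrix (Fin (d j)) (Fin (d j)) (KK Γ)
  g_symm : ∀ j, (g j)ᵀ = g j
  g_det : ∀ j, (g j).det ≠ 0
  ρ_flat : ∀ j a, (ρ j a)ᵀ * g j = g j * ρ j (B.E.flat a)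
  pos : ι → ℕ
  top : ∀ j s t, ∃ h ∈ SB B, ∃ n : ℤ, n ≠ 0 ∧ ρ j h = (n : KK Γ) • (single s t 1 * g j) ∧
    ∀ m, m ≠ j → ¬ pos m < pos j → ρ m h = 0
  card : ∑ j, d j * d j = Fintype.card X.W

namespace Wd

variable {B : KB X Γ L} {ι : Type} [Fintype ι] (U : Wd B ι)

/-- the element with prescribed images -/
def el (M : ∀ j, Matrix (Fin (U.d j)) (Fin (U.d j)) (KK Γ)) : B.E.H :=
  Classical.epsilon fun a => ∀ j, U.ρ j a = M j

/-- central idempotents -/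
def eS (Y : Set ι) : B.E.H := U.el fun j => if j ∈ Y then 1 else 0

/-- the block `j` occurs in the cell of `z` -/
def Occ (z : X.W) (j : ι) : Prop := B.lmK (B.toKL.cell z) (U.eS {j}) ≠ 0

end Wd

/-- Schur elements, characters, ranks and a central element -/
structure Wt (B : KB X Γ L) (ι : Type) [Fintype ι] extends Wd B ι where
  c : ι → KK Γ
  c_ne : ∀ j, c j ≠ 0
  tau : ∀ a, B.E.tau a = ∑ j, (c j)⁻¹ * (ρ j a).trace
  g_le : ∀ j s t u v, Le ((c j)⁻¹ * (g j s t * g j u v)) 0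
  tr_mem : ∀ j w, (ρ j (B.E.T w)).trace ∈ AA Γ
  χ : ι → X.W → ℂ
  tr_sp : ∀ j w, sp (ρ j (B.E.T w)).trace = χ j w
  orth : ∀ i j, ip (χ i) (χ j) = if i = j then 1 else 0
  rk : ι → ℕ
  rk_pos : ∀ i j, rk i < rk j → pos i < pos j
  z : B.E.H
  z_in : In B.E (AA Γ) z
  ω : ι → Γ
  ρ_z : ∀ j, ρ j z = (mK (ω j) : KK Γ) • 1
  sing : ι → Prop
  sing_un : ∀ i, sing i → Un (ZZ Γ) (c i)
  sing_rk : ∀ i j, sing i → rk j = rk i → j = i
  ω_eq : ∀ i j, rk i = rk j → ω i = ω j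
  ω_ne : ∀ i j, rk i ≠ rk j → sing i ∨ sing j ∨ ω i ≠ ω j

end

end Pool.Agent.P.MP_1a0ecf_al.K4
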