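import Pool.Agent.P.MP_1a0ecf_al.K4.Tb
import Pool.Agent.P.MP_1a0ecf_al.K4.S3
import Pool.Agent.P.MP_1a0ecf_al.K4.W0

/-! Package B1: reduced words, the representations of the Hecke algebra. -/

namespace Pool.Agent.P.MP_1a0ecf_al.K4

open K Matrix
open scoped Classical

noncomputable section

variable {X : F.Cox}

/-- the weights -/
abbrev Lw (X : F.Cox) (a b : ℝ) : Fin X.n → ℝ := fun i => if (i : ℕ) < 2 then a else b

theorem word_eq (l : List (Fin X.n)) : X.cs.wordProd l = ((l.map Fin.val).map X.sN).prod := by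
  induction l with
  | nil => simp
  | cons i l ih =>
    rw [X.cs.wordProd_cons, ih, List.map_cons, List.map_cons, List.prod_cons, F.Cox.sN,
      dif_pos i.2]

/-- with `φ (q i) = 1` the map `w ↦ f (T w)` is multiplicative (`HA.exists_spec`, or induction on
the length); `isCh_matrix` -/
theorem isCh_of_hom {S : Type} [CommRing S] {q : Fin X.n → Sˣ} (D : F.HA X S q) (φ : S →+* ℂ)
    (hq : ∀ i, φ (q i) = 1) {d : ℕ} (f : D.H →+* Matrix (Fin d) (Fin d) ℂ)
    (hf : ∀ r a, f (r • a) = φ r • f a) : IsCh fun w => (f (D.T w)).trace := by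
  have hz : ∀ i, φ ((q i : S) - ((q i)⁻¹ : Sˣ)) = 0 := fun i => by
    have h1 : φ (q i) * φ ((q i)⁻¹ : Sˣ) = 1 := by rw [← map_mul, Units.mul_inv, map_one]
    rw [hq, one_mul] at h1
    rw [map_sub, hq, h1, sub_self]
  have hs : ∀ x i, f (D.T (x * X.s i)) = f (D.T x) * f (D.T (X.s i)) := fun x i => by
    rcases lt_or_gt_of_ne (X.cs.length_mul_simple_ne x i) with h | h
    · rw [← map_mul, D.T_down x i h, map_add, hf, hz, zero_smul, add_zero]
    · rw [← map_mul, D.T_up x i h]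
  have hm : ∀ x y, f (D.T (x * y)) = f (D.T x) * f (D.T y) := fun x y => by
    induction y using X.cs.simple_induction_right with
    | one => rw [mul_one, D.T_one, map_one, mul_one]
    | mul_simple_right y i ih => rw [← mul_assoc, hs, hs, ih, mul_assoc]
  exact isCh_matrix (W := X.W)
    { toFun := fun w => f (D.T w), map_one' := by rw [D.T_one, map_one], map_mul' := hm }

theorem B1P.rdS_eq (k : ℕ) (hk : k < 4) (v : List ℤ) (i : ℕ) (hi : i < 4) :
    gt (rdS k v) 0 i = gt v 0 i - gt v 0 k * F.F4.cart i k := by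
  rw [rdS, gt_tab, if_pos hi, zero_add]
  change gt v 0 i - gt v 0 k * _ = _
  congr 2
  interval_cases k <;> interval_cases i <;> rfl

theorem B1P.red_cons (k : ℕ) (l : List ℕ) (e : red (k :: l) = true) :
    red l = true ∧ k < 4 ∧ 1 ≤ gt (rdV l) 0 k := by
  have e1 : red (k :: l) = Bool.rec false (an (ltN k 4) (leZ 1 (gt (rdV l) 0 k))) (red l) := rfl
  rw [e1] at e
  cases hl : red l with
  | false => rw [hl] at e; exact absurd e Bool.false_ne_true
  | true =>
    rw [hl] at e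
    have e2 : an (ltN k 4) (leZ 1 (gt (rdV l) 0 k)) = true := e
    rw [an_eq, ltN_eq, leZ_eq] at e2
    exact ⟨rfl, e2⟩

theorem B1P.sc_pos (i : ℕ) : 0 < F.F4.sc i := by
  unfold F.F4.sc
  split_ifs <;> positivity

theorem B1P.alt_map {α β : Type} (f : α → β) (m : ℕ) (i j : α) :
    (CoxeterSystem.alternatingWord i j m).map f = CoxeterSystem.alternatingWord (f i) (f j) m := by
  induction m generalizing i j with
  | zero => rfl
  | succ m ih =>
    rw [CoxeterSystem.alternatingWord_succ, CoxeterSystem.alternatingWord_succ, List.map_concat, ih]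

theorem B1P.braid {R : Rp} (hR : R.Ok) {i j : ℕ} (hi : i < 4) (hj : j < 4) (e : i ≠ j) :
    R.wM (CoxeterSystem.alternatingWord i j (F.pathM 1 4 i j)) =
      R.wM (CoxeterSystem.alternatingWord j i (F.pathM 1 4 i j)) := by
  have sy : ∀ i < 4, ∀ j < 4, F.pathM 1 4 i j = F.pathM 1 4 j i := by decide
  wlog hij : i < j generalizing i j
  · rw [sy i hi j hj]
    exact (this hj hi e.symm (by omega)).symm
  interval_cases j <;> interval_cases i
  exacts [hR.b01.symm, hR.b02, hR.b12, hR.b03, hR.b13, hR.b23.symm]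

theorem B1P.tM_sq {R : Rp} (hR : R.Ok) {s : ℕ} (hs : s < 4) :
    R.tM s * R.tM s = 1 + (vp s - vi s) • R.tM s := by
  have h1 : (vp s * vi s) • (1 : R.F.Mx) = 1 := by rw [vp_vi, one_smul]
  rw [Rp.tM, sub_mul, mul_sub, mul_sub, hR.quad s hs, mul_smul_comm, mul_one, smul_mul_assoc,
    one_mul, smul_mul_assoc, one_mul]
  linear_combination (norm := module) h1

variable (h : X.Is (F.pathM 1 4)) (hn : X.n = 4)

include h hn

/-- Invariant for `w = wordProd l`: for each `i : Fin X.n`,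
`gt (rdV (l.map val)) 0 i * sc i = ∑ k, (σ w⁻¹ *ᵥ al i) k * sc k` (`F4.K_sc`, `K_symm`, `B_al_al`,
`σ_simple_mulVec`; the matrix in `rdS` has the entry `cart i k` in row `k`, column `i`). If this
number is positive, then `σ w⁻¹ *ᵥ al k` is not `≤ 0`, so (`neg_of_desc`)
`len (s k * w) = len w + 1`. -/
theorem red_sound {w : List ℕ} (hw : red w = true) :
    ∃ l : List (Fin X.n), l.map Fin.val = w ∧ X.cs.IsReduced l := by
  have inv : ∀ (l : List (Fin X.n)) (i : Fin X.n),
      ((gt (rdV (l.map Fin.val)) 0 i : ℤ) : ℝ) * F.F4.sc i =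
        ∑ k, (X.σ (X.cs.wordProd l)⁻¹ *ᵥ X.al i) k * F.F4.sc k := by
    intro l
    induction l with
    | nil =>
      intro i
      have h1 : ∀ j < 4, gt (rdV []) 0 j = 1 := by decide
      rw [List.map_nil, h1 i (hn ▸ i.2), X.cs.wordProd_nil, inv_one, map_one, one_mulVec,
        Finset.sum_eq_single i (fun k _ hk => by rw [F.Cox0.al, Pi.single_eq_of_ne hk, zero_mul])
          (fun hi => absurd (Finset.mem_univ i) hi), F.Cox0.al, Pi.single_eq_same, Int.cast_one]
    | cons k l ih =>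
      intro i
      have e1 : rdV ((k :: l).map Fin.val) = rdS k (rdV (l.map Fin.val)) := rfl
      have e2 : X.K k i = X.K i k := (congrFun (congrFun X.K_symm k) i).symm
      rw [e1, B1P.rdS_eq k (hn ▸ k.2) _ i (hn ▸ i.2), X.cs.wordProd_cons, _root_.mul_inv_rev,
        X.cs.inv_simple, map_mul, ← mulVec_mulVec, X.σ_simple_mulVec, X.B_al_al, mulVec_sub,
        mulVec_smul, e2]
      simp only [Pi.sub_apply, Pi.smul_apply, smul_eq_mul, sub_mul, Finset.sum_sub_distrib,
        mul_assoc, ← Finset.mul_sum, ← ih, Int.cast_sub, Int.cast_mul]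
      linear_combination ((gt (rdV (l.map Fin.val)) 0 k : ℤ) : ℝ) * F.F4.K_sc h hn i k
  induction w with
  | nil => exact ⟨[], rfl, by simp [CoxeterSystem.IsReduced]⟩
  | cons k w ih =>
    obtain ⟨h1, h2, h3⟩ := B1P.red_cons k w hw
    obtain ⟨l, rfl, hl⟩ := ih h1
    let i : Fin X.n := ⟨k, hn ▸ h2⟩
    refine ⟨i :: l, rfl, ?_⟩
    rw [CoxeterSystem.IsReduced] at hl ⊢
    rw [X.cs.wordProd_cons, List.length_cons, ← hl]
    refine (X.cs.length_simple_mul _ i).resolve_right fun e => ?_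
    have h4 : X.len ((X.cs.wordProd l)⁻¹ * X.s i) < X.len (X.cs.wordProd l)⁻¹ := by
      rw [F.Cox0.len, F.Cox0.len, X.cs.length_inv, ← X.cs.length_inv, _root_.mul_inv_rev, inv_inv,
        X.cs.inv_simple]
      omega
    have h5 : ∑ j, (X.σ (X.cs.wordProd l)⁻¹ *ᵥ X.al i) j * F.F4.sc j ≤ 0 :=
      Finset.sum_nonpos fun j _ =>
        mul_nonpos_of_nonpos_of_nonneg (X.neg_of_desc h4 j) (B1P.sc_pos j).le
    rw [← inv] at h5
    have h6 : (1 : ℝ) ≤ (gt (rdV (l.map Fin.val)) 0 k : ℤ) := by exact_mod_cast h3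
    exact absurd h5 (not_le.2 (mul_pos (zero_lt_one.trans_le h6) (B1P.sc_pos _)))

/-- `F4.cl_conj`, `F4.cl_gen`, `F4.rr_gen` -/
theorem conj_w (a b : ℝ) (i j : Fin X.n) (e : IsConj (X.s i) (X.s j)) : Lw X a b i = Lw X a b j := by
  obtain ⟨u, hu⟩ := isConj_iff.1 e
  have ei := F.F4.s_eq hn i
  have ej := F.F4.s_eq hn j
  have e2 : F.F4.cl (F.F4.ri i) = F.F4.cl (F.F4.ri j) :=
    F.F4.cl_conj h hn u (F.F4.c8' (by omega)).1 (F.F4.c8' (by omega)).1 (by
      rw [← F.F4.rr, ← F.F4.rr, F.F4.rr_gen h hn ei.2, F.F4.rr_gen h hn ej.2, ← ei.1, ← ej.1, hu])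
  obtain ⟨g0, g1, g2, g3⟩ := F.F4.cl_gen
  have key : ∀ k < 4, F.F4.cl (F.F4.ri k) = if k < 2 then 1 else 2 := fun k hk => by
    interval_cases k
    exacts [g0, g1, g2, g3]
  rw [key _ ei.2, key _ ej.2] at e2
  unfold Lw
  split_ifs at e2 ⊢ <;> first | rfl | omega

/-- `HA.exists_hom` with `t i = (tM i).map ψ`; 16 cases for the braid relations -/
theorem exists_rho {R : Rp} (hR : R.Ok) {S S' : Type} [CommRing S] [CommRing S']
    {q : Fin X.n → Sˣ} (D : F.HA X S q) (φ : S →+* S') (ψ : PP →+* S')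
    (hq : ∀ i, φ (q i) = ψ (vp i)) :
    ∃ f : D.H →+* Matrix (Fin R.F.d) (Fin R.F.d) S', (∀ r a, f (r • a) = φ r • f a) ∧
      ∀ l : List (Fin X.n), f (l.map D.Ts).prod = (R.wM (l.map Fin.val)).map ψ := by
  have hw : ∀ l : List (Fin X.n), (l.map fun i => (R.tM i.val).map ψ).prod =
      (R.wM (l.map Fin.val)).map ψ := fun l => by
    rw [Rp.wM, ← RingHom.mapMatrix_apply, map_list_prod, List.map_map, List.map_map]
    rfl
  obtain ⟨f, h1, h2⟩ := D.exists_hom φ (fun i => (R.tM i.val).map ψ) (fun i => by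
      have e1 : φ (D.ze i) = ψ (vp i - vi i) := by
        have e2 : φ ((q i)⁻¹ : Sˣ) * ψ (vp i) = 1 := by
          rw [← hq, ← map_mul, Units.inv_mul, map_one]
        rw [map_sub, map_sub, hq, ← mul_one (φ _), ← map_one ψ, ← vp_vi i, map_mul, ← mul_assoc, e2,
          one_mul]
      rw [e1, ← Matrix.map_mul, B1P.tM_sq hR (hn ▸ i.2)]
      ext u v
      simp [Matrix.one_apply, apply_ite ψ])
    (fun i j e => by
      rw [hw, hw, B1P.alt_map, B1P.alt_map, h i j,
        B1P.braid hR (hn ▸ i.2) (hn ▸ j.2) (Fin.val_ne_of_ne e)])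
  refine ⟨f, h1, fun l => ?_⟩
  rw [map_list_prod, List.map_map, ← hw]
  congr 2
  exact funext h2

omit h hn

variable {a b : ℝ}

/-- the representations and characters of a chamber -/
structure Rh (B : KB X ℝ (Lw X a b)) (C : Ch) where
  ρ : ∀ j : Fin 25, B.E.H →ₐ[KK ℝ] Matrix (Fin (C.R j).F.d) (Fin (C.R j).F.d) (KK ℝ)
  wd : ∀ j (l : List (Fin X.n)),
    ρ j (l.map B.E.Ts).prod = ((C.R j).wM (l.map Fin.val)).map (psi a b)
  χ : Fin 25 → X.W → ℂ
  isCh : ∀ j, IsCh (χ j)
  χ_wd : ∀ j (l : List (Fin X.n)), X.cs.IsReduced l →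
    χ j (X.cs.wordProd l) = F.spc _ ((C.R j).wM (l.map Fin.val)).trace

include h hn

/-- `exists_rho` for `B.E` with `φ = id`, `ψ = psi a b` and for `B.toHA` with `φ = spc`, `ψ = spc` -/
theorem exists_Rh (B : KB X ℝ (Lw X a b)) {C : Ch} (hC : ∀ j < 25, C.Ok j) : Nonempty (Rh B C) := by
  choose f f1 f2 using fun j : Fin 25 => exists_rho h hn (hC j j.2).toOk B.E (RingHom.id _)
    (psi a b) fun i => (psi_vp i).symm
  have hq : ∀ i, F.spc ℝ (F.vU (Lw X a b i) : F.ZG ℝ) = 1 := fun i => F.spc_vU _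
  choose g g1 g2 using fun j : Fin 25 => exists_rho h hn (hC j j.2).toOk B.toHA (F.spc ℝ)
    (F.spc _) fun i => (hq i).trans (by
      unfold vp
      split_ifs <;> rw [spc_mo, Int.cast_one])
  refine ⟨⟨fun j => AlgHom.mk' (f j) (f1 j), f2, fun j w => (g j (B.T w)).trace,
    fun j => isCh_of_hom B.toHA _ hq (g j) (g1 j), fun j l hl => ?_⟩⟩
  rw [B.toHA.T_word hl, g2]
  simp only [Matrix.trace, Matrix.diag_apply, Matrix.map_apply, map_sum]

end

end Pool.Agent.P.MP_1a0ecf_al.K4
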