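import Pool.Agent.P.MP_1a0ecf_al.K4.S1

/-! Package S2: packed matrices, soundness of the checks for one representation. -/

namespace Pool.Agent.P.MP_1a0ecf_al.K4

open Finset

noncomputable section

namespace Fm

variable {F : Fm} {A : List Rw} {M : F.Mx}

theorem row_fin (M : F.Mx) (u : Fin F.d) : F.row M u = M u := dif_pos u.2

theorem row_out (M : F.Mx) {n : ℕ} (h : ¬n < F.d) : F.row M n = 0 := dif_neg h

theorem R4.cast {a : Rw} {z z' : Fin F.d → PP} (h : F.R4 a z) (e : z = z') : F.R4 a z' := e ▸ h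

theorem R4.isZ {a : Rw} {z : Fin F.d → PP} (h : F.R4 a z) (e : isZ (F.nrm a) = true) : z = 0 :=
  (nrm_rep h).isZ e

theorem mo32 (g : Bool) (c : ℕ) :
    mo (((32 : ℕ) : ℤ) - 32) (((32 : ℕ) : ℤ) - 32) (sg g c) = (sg g c : PP) := by
  rw [← mo_int]; rfl

theorem R0.acc {r : Rw} {v : Fin F.d → PP} (h : F.R0 r v) : F.R4 (F.addT false 1 32 32 r zr) v :=
  (addT_rep false 1 32 32 h R4_zr).cast (by rw [mo32]; simp [sg])

section Fold

variable {α : Type} {a : Rw} {z : Fin F.d → PP}

theorem fo_rep {f : α → Rw → Rw} (g : α → Fin F.d → PP)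
    (hf : ∀ t a z, F.R4 a z → F.R4 (f t a) (z + g t)) (l : List α) (ha : F.R4 a z) :
    F.R4 (fo f a l) (z + (l.map g).sum) := by
  induction l with
  | nil => simpa using ha
  | cons t l ih => exact (hf t _ _ ih).cast (by rw [List.map_cons, List.sum_cons]; abel)

theorem fl_rep {f : α → Rw → Rw} (g : α → Fin F.d → PP)
    (hf : ∀ t a z, F.R4 a z → F.R4 (f t a) (z + g t)) (l : List α) (ha : F.R4 a z) :
    F.R4 (fl f l a) (z + (l.map g).sum) := by
  induction l generalizing a z with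
  | nil => simpa using ha
  | cons t l ih =>
    rw [fl_cons]
    exact (ih (hf t _ _ ha)).cast (by rw [List.map_cons, List.sum_cons, add_assoc])

theorem foN_rep {f : ℕ → Rw → Rw} (g : ℕ → Fin F.d → PP)
    (hf : ∀ t a z, F.R4 a z → F.R4 (f t a) (z + g t)) (n : ℕ) (ha : F.R4 a z) :
    F.R4 (foN f a n) (z + ∑ k ∈ range n, g k) := by
  induction n with
  | zero => simpa using ha
  | succ n ih => exact (hf n _ _ ih).cast (by rw [sum_range_succ, add_assoc])

theorem flN_rep {f : ℕ → Rw → Rw} (g : ℕ → Fin F.d → PP)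
    (hf : ∀ t a z, F.R4 a z → F.R4 (f t a) (z + g t)) (n : ℕ) (ha : F.R4 a z) :
    F.R4 (flN f n a) (z + ∑ k ∈ range n, g k) := by
  induction n generalizing a z with
  | zero => simpa using ha
  | succ n ih =>
    rw [flN_succ]
    exact (ih (hf n _ _ ha)).cast (by rw [sum_range_succ]; abel)

end Fold

theorem pz_filter (t v : ℕ) (l : List ℕ) : pz ((t :: l).filter fun t => tS t = v) =
    (if tS t = v then ts t else 0) + pz (l.filter fun t => tS t = v) := by
  by_cases h : tS t = v <;> simp [pz, h]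

theorem ek_sum (k : ℕ) (f : ℕ → PP) (l : List ℕ) :
    (l.map fun t => F.ek k (f t)).sum = F.ek k (l.map f).sum := by
  induction l with
  | nil => funext j; simp [ek]
  | cons t l ih => simp only [List.map_cons, List.sum_cons, ih, ek_add]

theorem RM_nil : F.RM [] 0 := fun n => by
  have : F.row 0 n = 0 := by unfold row; split_ifs <;> rfl
  rw [this]
  exact R0_zr

theorem RM.fin (h : F.RM A M) (u : Fin F.d) : F.R0 (gt A zr u) (M u) :=
  row_fin M u ▸ h u

/-- `gt_tab`, `nrm_rep` -/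
theorem mk_rep {f : ℕ → Rw} (h : ∀ u : Fin F.d, F.R4 (f u) (M u)) : F.RM (F.mk' f) M :=
  fun n => by
    rw [mk', gt_tab]
    split_ifs with hn
    · rw [zero_add, row_fin M ⟨n, hn⟩]
      exact nrm_rep (h ⟨n, hn⟩)
    · rw [row_out M hn]
      exact R0_zr

theorem one_row (p : PP) (u : Fin F.d) : (p • (1 : F.Mx)) u = F.ek u p := by
  funext j
  simp [ek, Matrix.one_apply, Fin.ext_iff, eq_comm]

theorem idM_rep : F.RM F.idM 1 :=
  mk_rep fun u => (addL_rep false 1 32 32 u R4_zr).cast (by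
    rw [mo32, ← one_row]; simp [sg])

theorem sum_row (M : F.Mx) (l : List ℕ) : (l.map fun t => ts t • F.row M (tS t)).sum =
    ∑ v : Fin F.d, pz (l.filter fun t => tS t = v) • M v := by
  induction l with
  | nil => simp [pz]
  | cons t l ih =>
    simp only [List.map_cons, List.sum_cons, ih, pz_filter, add_smul, sum_add_distrib]
    congr 1
    by_cases h : tS t < F.d
    · rw [row_fin M ⟨_, h⟩, sum_eq_single_of_mem (⟨_, h⟩ : Fin F.d) (mem_univ _), if_pos rfl]
      intro b _ hb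
      rw [if_neg fun e => hb (Fin.ext e.symm), zero_smul]
    · rw [row_out M h, smul_zero]
      exact (sum_eq_zero fun b _ => by rw [if_neg fun e : tS t = b => h (e ▸ b.2), zero_smul]).symm

theorem mul_row (N M : F.Mx) (u : Fin F.d) : (N * M) u = ∑ v, N u v • M v := by
  funext k
  simp [Matrix.mul_apply]

/-- induction on the list of terms; a term with source outside the range adds the zero row -/
theorem mr_rep (c : List ℕ) (h : F.RM A M) (u : Fin F.d) {a : Rw} {z : Fin F.d → PP}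
    (ha : F.R4 a z) : F.R4 (F.mr c A u a) (z + (F.spM c * M) u) :=
  (fo_rep (fun t => ts t • F.row M (tS t)) (fun t _ _ hb => tmS_rep t (h _) hb) _ ha).cast
    (by rw [sum_row, mul_row]; rfl)

theorem RM.zM (h : F.RM A M) (hz : zM A = true) : M = 0 :=
  funext fun u => (h.fin u).isZ
    (gt_all (p := fun r => isZ r = true) ((allL_eq _ _).1 hz) rfl u)

end Fm

namespace Rp

variable {R : Rp} {A A' : List Rw} {M M' : R.F.Mx} {st : List (List Rw)} {vs : List R.F.Mx}

theorem stI_rep (h : R.F.RS st vs) (l : List ℕ) :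
    R.F.RM (R.stI st l) (stV (algebraMap PP R.F.Mx) R.cM vs l) := by
  cases l with
  | nil => exact Fm.RM_nil
  | cons a l =>
    refine Fm.mk_rep fun u => (Fm.fo_rep (fun t => ts t • gt vs 0 (tS t) u)
      (fun t _ _ hb => Fm.tmS_rep t ((h _).fin u) hb) l
      (Fm.mr_rep _ (h _) u Fm.R4_zr)).cast ?_
    rw [zero_add, stV]
    refine congrArg₂ (· + ·) rfl ?_
    induction l with
    | nil => rfl
    | cons t l ih =>
      rw [List.map_cons, List.sum_cons, ih, List.map_cons, List.sum_cons, ← Algebra.smul_def]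
      rfl

theorem RS_cons (h : R.F.RM A M) (h' : R.F.RS st vs) : R.F.RS (A :: st) (M :: vs) := fun n => by
  cases n with
  | zero => exact h
  | succ n => exact h' n

theorem RS_one (h : R.F.RM A M) : R.F.RS [A] [M] := RS_cons h fun _ => Fm.RM_nil

theorem run_rep (pr : List ℕ) (h : R.F.RS st vs) :
    R.F.RS (R.run pr st) (runV (algebraMap PP R.F.Mx) R.cM pr vs) := by
  induction pr generalizing st vs with
  | nil => exact h
  | cons a pr ih => exact ih (RS_cons (stI_rep h _) h)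

theorem node_rep (pr : List ℕ) (n : ℕ) :
    R.F.RM (gt (R.run pr [R.F.idM]) [] n) (R.nM pr n) :=
  run_rep pr (RS_one Fm.idM_rep) n

theorem wd_rep (w : List ℕ) : R.F.RM (R.wd w) (R.wM w) := by
  induction w with
  | nil => exact Fm.idM_rep
  | cons s w ih =>
    refine Fm.mk_rep fun u => (Fm.addT_rep true 1 _ _ (ih.fin u)
      (Fm.mr_rep _ ih u Fm.R4_zr)).cast ?_
    have e : mo (((sel (ltN s 2) 31 32 : ℕ) : ℤ) - 32) (((sel (ltN s 2) 32 31 : ℕ) : ℤ) - 32)
        (sg true 1) = -vi s := by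
      simp only [sel_eq, ltN_eq, vi]
      split_ifs <;> exact mo_neg _ _ 1
    have e' : R.wM (s :: w) = R.cM s * R.wM w - vi s • R.wM w := by
      rw [wM, List.map_cons, List.prod_cons, tM, sub_mul, smul_mul_assoc, one_mul]; rfl
    rw [e, e', zero_add, neg_smul, ← sub_eq_add_neg]
    rfl

theorem eqM_sound (h : R.F.RM A M) (h' : R.F.RM A' M') (e : R.eqM A A' = true) : M = M' :=
  funext fun u => by
    have := (Fm.addT_rep true 1 32 32 (h'.fin u) (h.fin u).acc).isZ ((allN_eq _ _).1 e u u.2)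
    rw [Fm.mo32] at this
    simpa [sg, add_neg_eq_zero] using this

/-- `stA st h ts = stI st (h :: ts)`; the terms `14369`, `14432` have the value `-(vp s + vi s)` -/
theorem quad_sound {s : ℕ} (hs : s < 4) (h : R.quad s = true) :
    R.cM s * R.cM s = (vp s + vi s) • R.cM s := by
  have h1 := (stI_rep (RS_one (stI_rep (RS_one (R := R) Fm.idM_rep) [s]))
    [s, sel (ltN s 2) 14369 14432]).zM h
  have e1 : s % 8 = s := by omega
  have e2 : s / 8 / 2 = 0 := by omega
  have e3 : tS (sel (ltN s 2) 14369 14432) = 0 := by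
    rw [sel_eq]; split_ifs <;> rfl
  have e4 : ts (sel (ltN s 2) 14369 14432) = -(vp s + vi s) := by
    simp only [sel_eq, ltN_eq, vp, vi, neg_add]
    split_ifs <;> rw [← mo_neg, ← mo_neg] <;> rfl
  simp only [stV, e1, e2, e3, e4, gt_zero, List.map_cons, List.map_nil, List.sum_cons,
    List.sum_nil, mul_one, add_zero, ← Algebra.smul_def, neg_smul] at h1
  exact add_neg_eq_zero.1 h1

theorem gM_symm (R : Rp) : R.gM.transpose = R.gM := by
  ext1 u v
  simp only [Matrix.transpose_apply, gM, gE, sel_eq, Nat.ble_eq]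
  rcases lt_trichotomy (u : ℕ) v with h | h | h
  · rw [if_neg h.not_ge, if_pos h.le]
  · rw [h]
  · rw [if_neg h.not_ge, if_pos h.le]

theorem gm_rep : R.F.RM R.gm R.gM :=
  Fm.mk_rep fun u => (Fm.flN_rep (fun v => R.F.ek v (pz (R.gE u v)))
    (fun v _ _ hb => (Fm.fl_rep _ (fun t _ _ hc => Fm.litS_rep v t hc) _ hb).cast
      (by rw [Fm.ek_sum]; rfl)) _ Fm.R4_zr).cast (by
    funext k
    simp [Fm.ek, gM, Finset.sum_apply])

theorem ctg_rep (s : ℕ) : R.F.RM (R.ctg s) ((R.cM s).transpose * R.gM) := by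
  refine Fm.mk_rep fun u => (Fm.foN_rep (fun v => pz ((un (gt (R.cr s) 0 v)).filter
    fun t => tS t = u) • R.F.row R.gM v) (fun v _ _ hb => (Fm.fo_rep
      (fun t => (if tS t = u then ts t else 0) • R.F.row R.gM v) (fun t _ _ hc => ?_) _ hb).cast ?_)
    _ Fm.R4_zr).cast ?_
  · simp only [sel_eq, Nat.beq_eq]
    split_ifs
    · exact Fm.tmS_rep t (gm_rep v) hc
    · simpa using hc
  · congr 1
    induction un (gt (R.cr s) 0 v) with
    | nil => simp [pz]
    | cons t l ih => rw [List.map_cons, List.sum_cons, ih, Fm.pz_filter, add_smul]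
  · rw [zero_add, Fm.mul_row, ← Fin.sum_univ_eq_sum_range (fun v => pz ((un (gt (R.cr s) 0 v)).filter
      fun t => tS t = u) • R.F.row R.gM v)]
    exact sum_congr rfl fun v _ => by rw [Fm.row_fin]; rfl

theorem ent_rep (h : R.F.RM A M) (e : R.opM A = true) (u k : Fin R.F.d) :
    Bd (M u k) R.F.x R.F.y 1024 ∧ (R.ent A u k : ℚ) =
      R.F.ev0 (M u k) * 2 ^ (20 * R.F.x + R.F.e1 * R.F.y) + R.F.off1 := by
  have := opk_rep (h.fin u) ((allN_eq _ _).1 e u u.2) k
  rwa [← Nat.shiftRight_eq_div_pow] at this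

/-- `opk_rep`, `Bd.ev_inj` -/
theorem symM_sound (h : R.F.RM A M) (e : R.symM A = true) : M.transpose = M := by
  simp only [symM, an_eq, allN_eq, Nat.beq_eq] at e
  have key : ∀ u v : Fin R.F.d, v < u → M u v = M v u := fun u v huv => by
    obtain ⟨h1, h2⟩ := ent_rep h e.1 u v
    obtain ⟨h3, h4⟩ := ent_rep h e.1 v u
    rw [e.2 u u.2 v huv, h4, add_left_inj, mul_left_inj' (by positivity)] at h2
    exact sub_eq_zero.1 ((h1.sub h3).ev_inj (b := 20) (D := 2 * R.F.x + 9) (by omega)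
      (by norm_num) (by rw [map_sub]; exact sub_eq_zero.2 h2.symm))
  ext1 u v
  rcases lt_trichotomy u v with huv | rfl | huv
  · exact key v u huv
  · rfl
  · exact (key u v huv).symm

theorem bd_sum {ι : Type} {f : ι → PP} {x y w : ℕ} (h : ∀ i, Bd (f i) x y w) (s : Finset ι) :
    Bd (∑ i ∈ s, f i) x y (s.card * w) := by
  induction s using Finset.cons_induction with
  | empty => exact Bd.zero _ _ _
  | cons i s hi ih =>
    rw [sum_cons, card_cons, add_mul, one_mul, add_comm _ w]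
    exact (h i).add ih

/-- the start value represents the row `ek 0 M.trace` with bound `d * 1024` -/
theorem trc_sound (h : R.F.RM A M) {l : List ℕ} (e : R.trc A l = true) : M.trace = pv l := by
  simp only [trc, an_eq, ltN_eq] at e
  obtain ⟨e1, e2, e3⟩ := e
  have h0 : R.F.R4 ⟨Nat.shiftLeft (sumN (fun k => R.ent A k k) R.F.d) R.F.sU,
      Nat.shiftLeft (Nat.mul R.F.d R.F.off1) R.F.sU, Nat.mul R.F.d 1024⟩ (R.F.ek 0 M.trace) := by
    refine fun _ => ⟨?_, fun k => ?_⟩
    · simp only [Nat.shiftLeft_eq', Nat.shiftLeft_eq, Nat.mul_eq, sumN_eq]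
      rw [Fm.enc_ek e2, ← Fin.sum_univ_eq_sum_range (fun k => R.ent A k k)]
      push_cast
      simp only [fun k => (ent_rep h e1 k k).2, sum_add_distrib, ← sum_mul, sum_const, card_univ,
        Fintype.card_fin, nsmul_eq_mul, Matrix.trace, Matrix.diag, map_sum, mul_zero, add_zero]
      ring
    · unfold Fm.ek
      split_ifs
      · have := bd_sum (fun k => (ent_rep h e1 k k).1) univ
        rw [card_univ, Fintype.card_fin] at this
        exact this.mono (by omega) (by omega) le_rfl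
      · exact Bd.zero _ _ _
  have h1 := (Fm.fl_rep (fun t => R.F.ek 0 (-tv t)) (fun t _ _ hc => (Fm.litN_rep 0 t hc).cast
    (by rw [Fm.ek_neg, sub_eq_add_neg])) l h0).isZ e3
  rw [Fm.ek_sum, ← Fm.ek_add] at h1
  have h2 := congrFun h1 ⟨0, e2⟩
  simp only [Fm.ek, if_true, Pi.zero_apply] at h2
  rw [pv, ← sub_eq_zero, ← h2, sub_eq_add_neg, List.sum_neg, List.map_map]
  rfl

theorem cZ_sound {w : List ℕ} {i j : ℕ} (e : R.cZ w i j = true) :
    R.wM w = mo (i - 32) (j - 32) (sg R.zs 1) • 1 := by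
  simp only [cZ, an_eq, allN_eq] at e
  funext u
  have := (Fm.addL_rep (nt R.zs) 1 i j u ((wd_rep w).fin u).acc).isZ (e.2 u u.2)
  rw [sg_nt, mo_neg, Fm.ek_neg, add_neg_eq_zero] at this
  rw [this, Fm.one_row]

theorem tg1_sound {t : ℕ} {k l : Fin R.F.d} (h : R.F.RM (gt st [] (tS t)) M)
    (e : R.tg1 st k l t = true) :
    zC t ≠ 0 ∧ M = (zC t : PP) • (Matrix.single k l 1 * R.gM) := by
  simp only [tg1, an_eq, allN_eq, ltN_eq] at e
  refine ⟨by rw [zC_eq, sg]; split_ifs <;> omega, funext fun u => ?_⟩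
  have h1 : R.F.R0 (sel (Nat.beq u k) (gt R.gm zr l) zr) ((Matrix.single k l 1 * R.gM : R.F.Mx) u) := by
    simp only [sel_eq, Nat.beq_eq]
    split_ifs with hu
    · obtain rfl := Fin.ext hu
      have : (Matrix.single u l 1 * R.gM : R.F.Mx) u = R.gM l := by funext j; simp
      rw [this]
      exact gm_rep.fin l
    · have : (Matrix.single k l 1 * R.gM : R.F.Mx) u = 0 := by
        funext j
        exact Matrix.single_mul_apply_of_ne _ _ _ _ _ (fun h => hu (congrArg Fin.val h)) _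
      rw [this]
      exact Fm.R0_zr
  have := (Fm.addT_rep (nt (tG t)) (tC t) 32 32 h1 (h.fin u).acc).isZ (e.2 u u.2)
  rw [Fm.mo32, sg_nt, ← zC_eq, Int.cast_neg, neg_smul, add_neg_eq_zero] at this
  exact this

theorem cCy_sound (e : R.cCy = true) (y : Fin R.F.d) :
    (y : ℕ) < R.r ∨ ∃ (s : ℕ) (u : Fin R.F.d) (n : ℤ), u < y ∧ n ≠ 0 ∧
      R.cM s y u = n ∧ ∀ z, y < z → R.cM s z u = 0 := by
  have h := (allN_eq _ _).1 e y y.2
  simp only [orr_eq, ltN_eq, cy1, an_eq, nt_eq, eqZ_eq, allL_eq, imp_eq, Nat.beq_eq,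
    allN_eq] at h
  refine h.imp_right fun ⟨h1, h2, h3, h4⟩ => ⟨Nat.mod (gt R.cy 0 y) 8, ⟨_, h1.trans y.2⟩, _, h1, h2,
    ?_, fun z hz => ?_⟩
  · simp only [cM, Fm.spM, cst]
    revert h3
    induction un (gt (R.cr (Nat.mod (gt R.cy 0 y) 8)) 0 y) with
    | nil => exact fun _ => by simp [pz]
    | cons t l ih =>
      intro h3
      rw [Fm.pz_filter, ih fun a ha => h3 a (List.mem_cons_of_mem _ ha), fo_cons, sel_eq]
      simp only [Nat.beq_eq]
      split_ifs with ht
      · have h5 := h3 t List.mem_cons_self ht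
        obtain ⟨h6, h7⟩ := (tZ_eq t).1 h5
        rw [ts, if_pos h5, Fm.tv_eq, h6, h7, Fm.mo32, ← zC_eq, Int.add_def, Int.cast_add]
      · exact zero_add _
  · simp only [cM, Fm.spM]
    rw [List.filter_eq_nil_iff.2 fun a ha => by simpa using h4 z z.2 hz a ha]
    rfl

/-- `g1 u v` is the specialisation of `gM u v`; the matrix `gI` is an inverse up to `gn` -/
theorem cNd_sound (e : R.cNd = true) : (R.gM.map (F.spc _)).det ≠ 0 := by
  simp only [cNd, an_eq, ltN_eq, allN_eq, eqZ_eq, sel_eq, Nat.beq_eq] at e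
  have h1 : ∀ u v : ℕ, F.spc _ (pz (R.gE u v)) = R.g1 u v := fun u v => by
    rw [g1]
    induction R.gE u v with
    | nil => simp [pz]
    | cons t l ih =>
      rw [fo_cons, Int.add_def, Int.cast_add, ← ih, pz, List.map_cons, List.sum_cons, map_add,
        sel_eq, ts]
      split_ifs <;> simp [tv, spc_mo, pz, Int.add_def]
  have h2 : ∀ (f : ℕ → ℤ) (n : ℕ), foN (fun v a => Int.add (f v) a) 0 n = ∑ v ∈ range n, f v :=
    fun f n => by
      induction n with
      | zero => rfl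
      | succ n ih => rw [foN_succ, ih, sum_range_succ, Int.add_def, add_comm]
  have h3 : R.gM.map (F.spc _) * (Matrix.of fun v w : Fin R.F.d => (R.gI v w : ℂ)) =
      (R.gn : ℂ) • 1 := by
    ext u w
    have := e.2 u u.2 w w.2
    rw [h2, ← Fin.sum_univ_eq_sum_range (fun v => Int.mul (R.g1 u v) (R.gI v w))] at this
    have := congrArg (Int.cast : ℤ → ℂ) this
    simpa [Matrix.mul_apply, gM, h1, Matrix.one_apply, Fin.ext_iff, Int.mul_def] using this
  intro h0
  have h4 := congrArg Matrix.det h3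
  rw [Matrix.det_mul, h0, zero_mul, Matrix.det_smul, Matrix.det_one, mul_one] at h4
  exact pow_ne_zero _ (Nat.cast_ne_zero.2 e.1.ne') h4.symm

end Rp

theorem Ch.ok {C : Ch} {j : ℕ} (h1 : C.c1 j = true) (h2 : C.c2 j = true) : C.Ok j := by
  simp only [Ch.c1, Ch.c2, Rp.cRel, Rp.cInv, Ch.cP, Ch.cP1, Rp.cTr, Rp.cGl, an_eq, allN_eq, ltN_eq,
    imp_eq, orr_eq, Nat.beq_eq] at h1 h2
  obtain ⟨⟨a1, a2, a3, a4, a5, a6, a7⟩, ⟨-, b1⟩, b2, b3, b4, -, -, b5, b6⟩ := h1
  obtain ⟨c1, c2, c3⟩ := h2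
  have hw : ∀ {w w'}, (C.R j).eqM ((C.R j).wd w) ((C.R j).wd w') = true →
      (C.R j).wM w = (C.R j).wM w' := Rp.eqM_sound (Rp.wd_rep _) (Rp.wd_rep _)
  refine ⟨⟨b4, fun s hs => Rp.quad_sound hs (a1 s hs), hw a2, hw a3, hw a4, hw a5, hw a6, hw a7,
    fun s hs => ?_, Rp.cCy_sound b2, Rp.cNd_sound b3⟩,
    fun k l hk hl => Rp.tg1_sound (Rp.node_rep _ _) (b5 k hk l hl),
    fun i hi hij k hk l hl => (Rp.node_rep _ _).zM (b6 i hi hij k hk l hl),
    fun m hm => Rp.trc_sound (Rp.wd_rep _) (c1 m hm).2, ⟨sg (C.R j).zs 1, ?_, ?_⟩,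
    fun m hm h0 => Rp.trc_sound (Rp.wd_rep _) ((c3 m hm).resolve_left h0).2⟩
  · rw [← Rp.symM_sound (Rp.ctg_rep s) (b1 s hs), Matrix.transpose_mul, Rp.gM_symm,
      Matrix.transpose_transpose]
  · rw [sg]; split_ifs <;> simp
  · rw [Rp.cZ_sound c2, oa, ob, Int.subNatNat_eq_coe, Int.subNatNat_eq_coe]; rfl

section Prog

variable {A A' : Type} [Ring A] [Ring A'] {φ : PP →+* A} {c : ℕ → A}

/-- naturality -/
theorem nd_map (f : A →+* A') {φ' : PP →+* A'} {c' : ℕ → A'} (h : ∀ p, f (φ p) = φ' p)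
    (hc : ∀ s, f (c s) = c' s) (pr : List ℕ) (n : ℕ) : f (nd φ c pr n) = nd φ' c' pr n := by
  have h0 : ∀ (st : List A) (n : ℕ), f (gt st 0 n) = gt (st.map f) 0 n := fun st n => by
    rw [← gt_map f, map_zero]
  have h1 : ∀ (st : List A) (l : List ℕ), f (stV φ c st l) = stV φ' c' (st.map f) l :=
    fun st l => by
      cases l with
      | nil => exact map_zero f
      | cons a l =>
        simp only [stV, map_add, map_mul, map_list_sum, List.map_map, Function.comp_def, h, hc, h0]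
  have h2 : ∀ st : List A, (runV φ c pr st).map f = runV φ' c' pr (st.map f) := by
    induction pr with
    | nil => exact fun _ => rfl
    | cons a pr ih => exact fun st => by rw [runV, runV, ih, List.map_cons, h1]
  rw [nd, h0, h2, List.map_singleton, map_one, nd]

theorem nd_mem (S : Subring A) (h : ∀ t, φ (ts t) ∈ S) (hc : ∀ s, c s ∈ S) (pr : List ℕ) (n : ℕ) :
    nd φ c pr n ∈ S := by
  have h1 : ∀ st : List A, (∀ a ∈ st, a ∈ S) → ∀ a ∈ runV φ c pr st, a ∈ S := by
    induction pr with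
    | nil => exact fun _ h => h
    | cons b pr ih =>
      refine fun st hs => ih _ (List.forall_mem_cons.2 ⟨?_, hs⟩)
      have h0 := gt_all (p := (· ∈ S)) hs S.zero_mem
      cases un b with
      | nil => exact S.zero_mem
      | cons a l =>
        refine S.add_mem (S.mul_mem (hc _) (h0 _)) (list_sum_mem fun x hx => ?_)
        obtain ⟨t, -, rfl⟩ := List.mem_map.1 hx
        exact S.mul_mem (h t) (h0 _)
  exact gt_all (p := (· ∈ S)) (h1 _ (by simp)) S.zero_mem n

end Prog

end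

end Pool.Agent.P.MP_1a0ecf_al.K4
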