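import Pool.Agent.P.MP_1a0ecf_al.K4.Tb
import Pool.Agent.P.MP_1a0ecf_al.K4.S2
import Pool.Agent.P.MP_1a0ecf_al.K4.S3

/-! Package B2: soundness of the checks for a region. -/

namespace Pool.Agent.P.MP_1a0ecf_al.K4

open K

noncomputable section

/-- the Schur elements -/
def cK (a b : ℝ) (j : ℕ) : KK ℝ := psi a b (pp (glb.c j))

/-- the exponents of the central element -/
def om (a b : ℝ) (j : ℕ) : ℝ := oa j * a + ob j * b

/-- the block `j` is seen by the word with index `m` -/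
def Hit (C : Ch) (a b : ℝ) (j m : ℕ) : Prop := gt (C.R j).gl 0 m ≠ 0 ∧
  co ((cK a b j)⁻¹ * psi a b (pv (un (gt (C.R j).gl 0 m)))) 0 ≠ 0

/-- the facts about a region -/
structure Rg.Ok (Z : Rg) (C : Ch) (a b : ℝ) : Prop where
  inj : ∀ i < 25, ∀ j < 25, C.ps i = C.ps j → i = j
  rk_pos : ∀ i < 25, ∀ j < 25, Z.k i < Z.k j → C.ps i < C.ps j
  g_le : ∀ j < 25, ∀ s t u v,
    Le ((cK a b j)⁻¹ * (psi a b ((C.R j).gM s t) * psi a b ((C.R j).gM u v))) 0
  sing_un : ∀ i < 25, Z.sing glb i = true → Un (ZZ ℝ) (cK a b i)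
  sing_rk : ∀ i < 25, ∀ j < 25, Z.sing glb i = true → Z.k j = Z.k i → j = i
  om_eq : ∀ i < 25, ∀ j < 25, Z.k i = Z.k j → om a b i = om a b j
  om_ne : ∀ i < 25, ∀ j < 25, Z.k i ≠ Z.k j →
    Z.sing glb i = true ∨ Z.sing glb j = true ∨ om a b i ≠ om a b j
  fam : ∀ i < 25, ∀ j < 25, (Z.k i = Z.k j ↔ F.Fam4 a b i j)
  tree : ∀ r : ℕ → ℕ → Prop, (∀ i < 25, r i i) → (∀ i j, r i j → r j i) →
    (∀ i j k, j < 25 → r i j → r j k → r i k) →
    (∀ i < 25, ∀ j < 25, ∀ m < 16, Hit C a b i m → Hit C a b j m → r i j) →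
    ∀ i < 25, ∀ j < 25, Z.k i = Z.k j → r i j

private theorem gE_symm (R : Rp) (u v : ℕ) : R.gE u v = R.gE v u := by
  unfold Rp.gE
  rw [sel_eq, sel_eq]
  simp only [Nat.ble_eq]
  rcases lt_trichotomy u v with h | rfl | h
  · rw [if_pos h.le, if_neg (not_le.2 h)]
  · rfl
  · rw [if_neg (not_le.2 h), if_pos h.le]

private theorem om_sub {r r' : ℤ × ℤ} {a b l m : ℝ} (h : Cone r r' a b l m) (i j : ℕ) :
    om a b i - om a b j = l * Rg.dl oa ob r i j + m * Rg.dl oa ob r' i j := by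
  have e : ∀ r : ℤ × ℤ, Rg.dl oa ob r i j = r.1 * (oa i - oa j) + r.2 * (ob i - ob j) :=
    fun _ => rfl
  rw [e, e, om, om, h.ha, h.hb]
  push_cast
  ring

private theorem tie_om {Z : Rg} {a b l m : ℝ} (h : Cone Z.r Z.r' a b l m) {i j : ℕ}
    (e : Z.tie oa ob i j = true) : om a b i = om a b j := by
  simp only [Rg.tie, an_eq, eqZ_eq] at e
  rw [← sub_eq_zero, om_sub h, e.1, e.2]
  simp

private theorem str_om {Z : Rg} {a b l m : ℝ} (h : Cone Z.r Z.r' a b l m) {i j : ℕ}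
    (e : Z.str oa ob i j = true) : om a b i ≠ om a b j := by
  simp only [Rg.str, Rg.tie, an_eq, eqZ_eq, nt_eq, orr_eq, leZ_eq] at e
  rw [← sub_ne_zero, om_sub h]
  obtain ⟨e0, e1⟩ := e
  generalize Rg.dl oa ob Z.r i j = x at *
  generalize Rg.dl oa ob Z.r' i j = y at *
  have hl := h.hl
  have hm := h.hm
  intro hc
  apply e0
  rcases e1 with ⟨h1, h2⟩ | ⟨h1, h2⟩
  · have a1 : (0 : ℝ) ≤ x := by exact_mod_cast h1
    have a2 : (0 : ℝ) ≤ y := by exact_mod_cast h2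
    have b1 : (x : ℝ) = 0 := by nlinarith [mul_nonneg hl.le a1, mul_nonneg hm.le a2]
    have b2 : (y : ℝ) = 0 := by nlinarith [mul_nonneg hl.le a1, mul_nonneg hm.le a2]
    exact ⟨by exact_mod_cast b1, by exact_mod_cast b2⟩
  · have a1 : (x : ℝ) ≤ 0 := by exact_mod_cast h1
    have a2 : (y : ℝ) ≤ 0 := by exact_mod_cast h2
    have b1 : (x : ℝ) = 0 := by
      nlinarith [mul_nonneg hl.le (neg_nonneg.2 a1), mul_nonneg hm.le (neg_nonneg.2 a2)]
    have b2 : (y : ℝ) = 0 := by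
      nlinarith [mul_nonneg hl.le (neg_nonneg.2 a1), mul_nonneg hm.le (neg_nonneg.2 a2)]
    exact ⟨by exact_mod_cast b1, by exact_mod_cast b2⟩

private theorem om_fam (a b : ℝ) {i : ℕ} (hi : i < 25) :
    om a b i = 2 * (F.oa4 i * a + F.ob4 i * b) := by
  rw [om, (oa_eq i hi).1, (oa_eq i hi).2]
  push_cast
  ring

/-- degree and leading coefficient of a Schur element and of its inverse -/
private theorem cK_lead {Z : Rg} {a b l m : ℝ} (h : Cone Z.r Z.r' a b l m) {j : ℕ}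
    (e : Z.ld glb j ≠ 0) : lc (cK a b j) = Z.ld glb j ∧
      Le (cK a b j)⁻¹ (-(l * mxP Z.r (glb.c j) + m * mxP Z.r' (glb.c j))) ∧
      co (cK a b j)⁻¹ (-(l * mxP Z.r (glb.c j) + m * mxP Z.r' (glb.c j))) ≠ 0 := by
  obtain ⟨h1, h2⟩ := lead_pp h (glb.c j)
  have h3 : co (psi a b (pp (glb.c j))) (l * mxP Z.r (glb.c j) + m * mxP Z.r' (glb.c j)) ≠ 0 := by
    rw [h2]
    exact_mod_cast e
  obtain ⟨a1, a2, a3⟩ := deg_eq_of h1 h3
  rw [← a2, ← deg_inv]
  refine ⟨a3.trans h2, le_deg _, ?_⟩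
  rw [cK, co_deg]
  exact lc_ne_zero (inv_ne_zero a1)

private theorem hit_Hit {Z : Rg} {C : Ch} {a b l m : ℝ} (h : Cone Z.r Z.r' a b l m) {j n : ℕ}
    (e : Z.ld glb j ≠ 0) (e' : Z.hit glb C j n = true) : Hit C a b j n := by
  simp only [Rg.hit, an_eq, nt_eq, eqZ_eq] at e'
  obtain ⟨e1, e2, e3⟩ := e'
  obtain ⟨-, h1, h2⟩ := cK_lead h e
  obtain ⟨h3, h4⟩ := lead_pv h (un (gt (C.R j).gl 0 n))
  rw [e2, e3] at h3 h4
  refine ⟨fun h0 => e1 ?_, ?_⟩
  · rw [h0, un_zero]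
    rfl
  · have := co_mul_top h1 h3
    rw [neg_add_cancel] at this
    rw [this, h4]
    exact mul_ne_zero h2 (by exact_mod_cast e1)

/-- `lead_pp`, `lead_pv`, `le_pz`, `deg_eq_of`, `un_ZZ`; `om i - om j = l * dl r i j + m * dl r' i j`.
For `tree`: by strong induction on `dp i` every `i` is related to some `i0` with `dp i0 = 0` and the
same rank; such `i0` is unique. -/
theorem Rg.ok {Z : Rg} {C : Ch} {a b l m : ℝ} (h : Cone Z.r Z.r' a b l m)
    (e : Z.cR glb C oa ob bd = true) : Z.Ok C a b := by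
  simp only [Rg.cR, allN_eq, an_eq] at e
  have eD : ∀ i < 25, Z.ld glb i ≠ 0 ∧ ∀ u < (C.R i).F.d, ∀ v < (C.R i).F.d, v ≤ u →
      ∀ t ∈ (C.R i).gE u v, Rg.dg1 Z.r (mxP Z.r (glb.c i)) t = true ∧
        Rg.dg1 Z.r' (mxP Z.r' (glb.c i)) t = true := fun i hi => by
    have := (e i hi).1
    simp only [Rg.cDg, allN_eq, an_eq, nt_eq, eqZ_eq, imp_eq, Nat.ble_eq, allL_eq] at this
    exact this
  have eP : ∀ i < 25, ∀ j < 25, (Z.k i < Z.k j → C.ps i < C.ps j) ∧
      (i = j ∨ C.ps i ≠ C.ps j) ∧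
      (Z.k i = Z.k j → Z.tie oa ob i j = true ∧ ¬(bd i j = true ∨ bd j i = true)) ∧
      (Z.k i ≠ Z.k j → ((bd i j = true ∨ bd j i = true) ∨ Z.str oa ob i j = true) ∧
        ((Z.sing glb i = true ∨ Z.sing glb j = true) ∨ Z.str oa ob i j = true)) :=
    fun i hi j hj => by
      have := (e i hi).2.2 j hj
      simp only [Rg.cPr, an_eq, nt_eq, imp_eq, ltN_eq, orr_eq, Nat.beq_eq, sel_eq] at this
      refine ⟨this.1, this.2.1, fun hk => ?_, fun hk => ?_⟩
      · have h2 := this.2.2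
        rw [if_pos hk] at h2
        simpa only [an_eq, nt_eq, orr_eq] using h2
      · have h2 := this.2.2
        rw [if_neg hk] at h2
        simpa only [an_eq, nt_eq, orr_eq] using h2
  have eG : ∀ i < 25, (Z.dp i = 0 → ∀ j < 25, Z.dp j = 0 ∧ Z.k i = Z.k j → i = j) ∧
      (Z.dp i ≠ 0 → Z.pr i < 25 ∧ Z.dp (Z.pr i) < Z.dp i ∧ Z.k (Z.pr i) = Z.k i ∧
        Z.hit glb C i (Z.pw i) = true ∧ Z.hit glb C (Z.pr i) (Z.pw i) = true) := fun i hi => by
    have := (e i hi).2.1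
    simp only [Rg.cGl, sel_eq, Nat.beq_eq] at this
    refine ⟨fun hk => ?_, fun hk => ?_⟩
    · rw [if_pos hk] at this
      simpa only [allN_eq, imp_eq, an_eq, Nat.beq_eq] using this
    · rw [if_neg hk] at this
      simpa only [an_eq, ltN_eq, Nat.beq_eq] using this
  have eS : ∀ i, Z.sing glb i = true → (Z.ld glb i = 1 ∨ Z.ld glb i = -1) ∧
      ∀ j < 25, i = j ∨ Z.k i ≠ Z.k j := fun i hs => by
    simpa only [Rg.sing, an_eq, orr_eq, eqZ_eq, allN_eq, nt_eq, Nat.beq_eq] using hs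
  refine ⟨fun i hi j hj hp => (eP i hi j hj).2.1.resolve_right (not_not.2 hp),
    fun i hi j hj => (eP i hi j hj).1, fun j hj s t u v => ?_, fun i hi hs => ?_,
    fun i _ j hj hs hk => ?_, fun i hi j hj hk => tie_om h ((eP i hi j hj).2.2.1 hk).1,
    fun i hi j hj hk => ?_, fun i hi j hj => ?_, fun r r1 r2 r3 r4 => ?_⟩
  · have h1 : ∀ s t : Fin (C.R j).F.d, Le (psi a b ((C.R j).gM s t))
        ((l * mxP Z.r (glb.c j) + m * mxP Z.r' (glb.c j)) / 2) := fun s t => by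
      refine le_pz h ?_
      rcases le_total (t : ℕ) s with hs | hs
      · exact (eD j hj).2 s s.2 t t.2 hs
      · rw [gE_symm]
        exact (eD j hj).2 t t.2 s s.2 hs
    have h2 := (cK_lead h (eD j hj).1).2.1.mul ((h1 s t).mul (h1 u v))
    rwa [add_halves, neg_add_cancel] at h2
  · refine un_ZZ (AA_le_ZZ (psi_mem _)) ?_
    rw [(cK_lead h (eD i hi).1).1]
    rcases (eS i hs).1 with h1 | h1
    · left
      rw [h1, Int.cast_one]
    · right
      rw [h1, Int.cast_neg, Int.cast_one]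
  · exact ((eS i hs).2 j hj).elim Eq.symm fun h1 => absurd hk.symm h1
  · rcases ((eP i hi j hj).2.2.2 hk).2 with (h1 | h1) | h1
    · exact Or.inl h1
    · exact Or.inr (Or.inl h1)
    · exact Or.inr (Or.inr (str_om h h1))
  · unfold F.Fam4
    rw [← bd_eq i hi j hj, ← bd_eq j hj i hi]
    constructor
    · intro hk
      obtain ⟨h1, h2⟩ := (eP i hi j hj).2.2.1 hk
      have h3 := tie_om h h1
      rw [om_fam a b hi, om_fam a b hj] at h3
      exact ⟨by linarith, fun h4 => h2 (Or.inl h4), fun h4 => h2 (Or.inr h4)⟩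
    · rintro ⟨h1, h2, h3⟩
      by_contra hk
      rcases ((eP i hi j hj).2.2.2 hk).1 with (h4 | h4) | h4
      · exact h2 h4
      · exact h3 h4
      · apply str_om h h4
        rw [om_fam a b hi, om_fam a b hj, h1]
  · have key : ∀ n, ∀ i < 25, Z.dp i = n → ∃ i0 < 25, Z.dp i0 = 0 ∧ Z.k i0 = Z.k i ∧ r i i0 := by
      intro n
      induction n using Nat.strong_induction_on with
      | _ n ih =>
        intro i hi hn
        by_cases h0 : Z.dp i = 0
        · exact ⟨i, hi, h0, rfl, r1 i hi⟩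
        · obtain ⟨a1, a2, a3, a4, a5⟩ := (eG i hi).2 h0
          obtain ⟨i0, b1, b2, b3, b4⟩ := ih _ (hn ▸ a2) _ a1 rfl
          have hw : Z.pw i < 16 := Nat.mod_lt _ (by norm_num)
          exact ⟨i0, b1, b2, b3.trans a3, r3 _ _ _ a1 (r4 i hi _ a1 _ hw
            (hit_Hit h (eD i hi).1 a4) (hit_Hit h (eD _ a1).1 a5)) b4⟩
    intro i hi j hj hk
    obtain ⟨i0, a1, a2, a3, a4⟩ := key _ i hi rfl
    obtain ⟨j0, b1, b2, b3, b4⟩ := key _ j hj rfl
    obtain rfl : i0 = j0 := (eG i0 a1).1 a2 j0 b1 ⟨b2, a3.trans (hk.trans b3.symm)⟩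
    exact r3 _ _ _ a1 a4 (r2 _ _ b4)

private theorem dl_psi (a b : ℝ) : psi a b (pp glb.dl) ≠ 0 := by
  rw [pp, map_list_prod]
  refine List.prod_ne_zero fun h => ?_
  simp only [List.map_map, List.mem_map, Function.comp] at h
  obtain ⟨n, hn, h⟩ := h
  refine psi_ne ?_ h
  rw [spc_pv]
  exact_mod_cast dl_ne n hn

private theorem cK_mul (a b : ℝ) {j : ℕ} (hj : j < 25) :
    cK a b j * psi a b (pp (gt glb.ef [] j)) = psi a b (pp glb.dl) := by
  rw [cK, ← map_mul, Gl.cD_sound (glb_cD j hj)]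

theorem cK_ne (a b : ℝ) {j : ℕ} (hj : j < 25) : cK a b j ≠ 0 := fun h =>
  dl_psi a b (by rw [← cK_mul a b hj, h, zero_mul])

/-- `glb_cD`, `glb_cS`, `dl_ne` -/
theorem cK_sum (a b : ℝ) {m : ℕ} (hm : m < 25) :
    ∑ j : Fin 25, (cK a b j)⁻¹ * psi a b (pv (glb.CT j m)) = if m = 0 then 1 else 0 := by
  apply mul_right_cancel₀ (dl_psi a b)
  have h1 := congrArg (psi a b) (Gl.cS_sound (glb_cS m hm))
  rw [map_sum, Finset.sum_range] at h1
  rw [Finset.sum_mul, Finset.sum_congr rfl fun (j : Fin 25) _ =>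
    show (cK a b j)⁻¹ * psi a b (pv (glb.CT j m)) * psi a b (pp glb.dl) =
      psi a b (pv (glb.CT j m) * pp (gt glb.ef [] j)) by
        rw [← cK_mul a b j.2, map_mul, mul_mul_mul_comm, inv_mul_cancel₀ (cK_ne a b j.2), one_mul],
    h1]
  split_ifs
  · rw [one_mul]
  · rw [zero_mul, map_zero]

private theorem det_CT :
    ((Matrix.of fun j m : Fin 25 => pv (glb.CT j m)).map (F.spc _)).det ≠ 0 := by
  have h1 : (Matrix.of fun j m : Fin 25 => pv (glb.CT j m)).map (F.spc _) *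
      (Matrix.of fun c j : Fin 25 => ((F.sz4 c * F.tab4 j c : ℤ) : ℂ) / 1152) = 1 := by
    ext i j
    have h2 := tab_orth i i.2 j j.2
    rw [Finset.sum_range] at h2
    rw [Matrix.mul_apply, Finset.sum_congr rfl fun (c : Fin 25) _ =>
      show ((Matrix.of fun j m : Fin 25 => pv (glb.CT j m)).map (F.spc _)) i c *
        (Matrix.of fun c j : Fin 25 => ((F.sz4 c * F.tab4 j c : ℤ) : ℂ) / 1152) c j =
        (((F.sz4 c : ℤ) * (F.tab4 i c * F.tab4 j c) : ℤ) : ℂ) / 1152 by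
          rw [Matrix.map_apply, Matrix.of_apply, Matrix.of_apply, spc_pv, sv_CT i i.2 c c.2]
          push_cast
          ring,
      ← Finset.sum_div, ← Int.cast_sum, h2, Matrix.one_apply]
    simp only [Fin.ext_iff]
    split_ifs
    · norm_num
    · norm_num
  exact (Matrix.isUnit_det_of_right_inverse h1).ne_zero

/-- the character table is invertible (`tab_orth`, `sv_CT`, `det_psi_ne`) -/
theorem lam_unique (a b : ℝ) {lam : Fin 25 → KK ℝ}
    (h : ∀ m < 25, ∑ j, lam j * psi a b (pv (glb.CT j m)) = if m = 0 then 1 else 0) (j : Fin 25) :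
    lam j = (cK a b j)⁻¹ := by
  have h1 : Matrix.vecMul (lam - fun j : Fin 25 => (cK a b j)⁻¹)
      ((Matrix.of fun j m : Fin 25 => pv (glb.CT j m)).map (psi a b)) = 0 := by
    funext m
    have h2 := (h m m.2).trans (cK_sum a b m.2).symm
    rw [← sub_eq_zero, ← Finset.sum_sub_distrib] at h2
    rw [Pi.zero_apply, ← h2]
    simp only [Matrix.vecMul, dotProduct, Pi.sub_apply, Matrix.map_apply, Matrix.of_apply, sub_mul]
  exact sub_eq_zero.1 (congrFun (Matrix.eq_zero_of_vecMul_eq_zero (det_psi_ne det_CT) h1) j)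

end

end Pool.Agent.P.MP_1a0ecf_al.K4
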