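import Pool.Agent.P.MP_1a0ecf_al.K4.W1

/-! Package W2: the ideals of lower sets are spanned by basis elements. -/

namespace Pool.Agent.P.MP_1a0ecf_al.K4

open K Matrix
open scoped Classical

set_option linter.unusedSectionVars false

noncomputable section

variable {X : F.Cox} {Γ : Type} [AddCommGroup Γ] [LinearOrder Γ] [IsOrderedAddMonoid Γ]
  {L : Fin X.n → Γ} {B : KB X Γ L}

private theorem ip_comb {κ : Type} [Fintype κ] (b : κ → B.E.H) (u v : κ → KK Γ) :
    B.ip (∑ p, u p • b p) (∑ q, v q • b q) = ∑ p, u p * ∑ q, B.ip (b p) (b q) * v q := by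
  rw [KB3P.ip_sum]
  refine Finset.sum_congr rfl fun p _ => ?_
  rw [KB3P.ip_smul, B.ip_comm, KB3P.ip_sum]
  congr 1
  refine Finset.sum_congr rfl fun q _ => ?_
  rw [KB3P.ip_smul, B.ip_comm, mul_comm]

private theorem gram_ne {κ : Type} [Fintype κ] {b : κ → B.E.H} (hb : LinearIndependent (KK Γ) b) :
    (Matrix.of fun i j => B.ip (b i) (b j)).det ≠ 0 := by
  intro h
  obtain ⟨v, hv, h0⟩ := Matrix.exists_mulVec_eq_zero_iff.2 h
  have h1 : B.ip (∑ p, v p • b p) (∑ q, v q • b q) = 0 := by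
    rw [ip_comb]
    refine Finset.sum_eq_zero fun p _ => ?_
    have := congrFun h0 p
    simp only [Matrix.mulVec, dotProduct, Matrix.of_apply, Pi.zero_apply] at this
    rw [this, mul_zero]
  exact hv (funext (Fintype.linearIndependent_iff.1 hb v (aniso B.E _ h1)))

/-- `ratS_of_wedge` with `U = 1`, `c = 1`. `Gram h = Fᵀ * Gram b * F`, `det F = ∏ n p` (`det_tri`),
`det (Gram b)` lies in `OO` (`det_mem`) and is not zero (`aniso`). -/
theorem ratS_tri {κ : Type} [Fintype κ] (b h : κ → B.E.H) (F : κ → κ → KK Γ) (n : κ → ℤ)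
    (rk : κ → ℕ) (hF : ∀ p, h p = ∑ q, F q p • b q) (h0 : ∀ p, n p ≠ 0) (h1 : ∀ p, F p p = n p)
    (h2 : ∀ q p, F q p ≠ 0 → q = p ∨ rk q < rk p) (hb : LinearIndependent (KK Γ) b)
    (hip : ∀ p q, Le (B.ip (b p) (b q)) 0) (hS : ∀ p, h p ∈ SB B) :
    B.RatS (Submodule.span (KK Γ) (Set.range b)) := by
  have hdet : (Matrix.of F).det = (((∏ p, n p : ℤ) : ℚ) : KK Γ) := by
    rw [det_tri (Matrix.of F) (fun q p => rk q < rk p) (fun _ _ _ => lt_trans)
      (fun _ => lt_irrefl _) h2]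
    simp [h1]
  have hn : (∏ p, n p : ℤ) ≠ 0 := Finset.prod_ne_zero_iff.2 fun p _ => h0 p
  have hM : (Matrix.of F).det ≠ 0 := by rw [hdet]; exact_mod_cast hn
  have hG : (Matrix.of fun i j => B.ip (h i) (h j)) =
      (Matrix.of F)ᵀ * ((Matrix.of fun i j => B.ip (b i) (b j)) * Matrix.of F) := by
    ext i j
    rw [Matrix.of_apply, hF i, hF j, ip_comb]
    simp only [Matrix.mul_apply, Matrix.transpose_apply, Matrix.of_apply]
  have hG0 := gram_ne hb
  have hGle : Le (Matrix.of fun i j => B.ip (b i) (b j)).det 0 := det_mem (OO Γ) _ hip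
  have hd : (Matrix.of fun i j => B.ip (h i) (h j)).det =
      (Matrix.of F).det * ((Matrix.of fun i j => B.ip (b i) (b j)).det * (Matrix.of F).det) := by
    rw [hG, Matrix.det_mul, Matrix.det_mul, Matrix.det_transpose]
  have key := B.ratS_of_wedge h 1 1 one_ne_zero
    (fun g => by
      rw [one_mul]
      exact det_mem (AA Γ) _ fun i j => (mem_SB.1 (hS j)).1 (g i))
    (fun j => by
      rw [(mem_SB.1 (hS j)).2]
      simp [Matrix.one_apply])
    (by rw [hd]; exact mul_ne_zero hM (mul_ne_zero hG0 hM))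
    (by
      have hw : wd (1 : KK Γ) = 0 := by simpa using wd_rat (Γ := Γ) 1
      rw [hd, deg_mul hM (mul_ne_zero hG0 hM), deg_mul hG0 hM, hdet, deg_rat, Matrix.det_one,
        deg_one, hw]
      simpa using (le_iff.1 hGle).resolve_left hG0)
  have hsp : Submodule.span (KK Γ) (Set.range b) = Submodule.span (KK Γ) (Set.range h) := by
    apply le_antisymm
    · rw [Submodule.span_le]
      rintro _ ⟨q, rfl⟩
      have hq : b q = ∑ p, (Matrix.of F)⁻¹ p q • h p := by
        have hI := Matrix.mul_nonsing_inv (Matrix.of F) (isUnit_iff_ne_zero.2 hM)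
        simp only [hF, Finset.smul_sum, smul_smul]
        rw [Finset.sum_comm]
        have : ∀ r, ∑ p, ((Matrix.of F)⁻¹ p q * F r p) • b r = (1 : Matrix κ κ (KK Γ)) r q • b r := by
          intro r
          rw [← Finset.sum_smul, ← hI, Matrix.mul_apply]
          simp only [Matrix.of_apply, mul_comm]
        simp only [this]
        simp [Matrix.one_apply]
      rw [SetLike.mem_coe, hq]
      exact Submodule.sum_mem _ fun p _ =>
        Submodule.smul_mem _ _ (Submodule.subset_span ⟨p, rfl⟩)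
    · rw [Submodule.span_le]
      rintro _ ⟨p, rfl⟩
      rw [SetLike.mem_coe, hF]
      exact Submodule.sum_mem _ fun q _ =>
        Submodule.smul_mem _ _ (Submodule.subset_span ⟨q, rfl⟩)
  rwa [hsp]

section Units

variable {ι : Type} [Fintype ι] (U : Wd B ι)

private def bb (j : ι) (s t : Fin (U.d j)) : B.E.H := U.el (Pi.single j (single s t 1 * U.g j))

private theorem bb_self (j : ι) (s t : Fin (U.d j)) :
    U.ρ j (bb U j s t) = single s t 1 * U.g j := by
  rw [bb, U.ρ_el, Pi.single_eq_same]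

private theorem bb_ne {j m : ι} (h : m ≠ j) (s t : Fin (U.d j)) : U.ρ m (bb U j s t) = 0 := by
  rw [bb, U.ρ_el, Pi.single_eq_of_ne h]

private theorem g_left (j : ι) {M N : Matrix (Fin (U.d j)) (Fin (U.d j)) (KK Γ)}
    (h : U.g j * M = U.g j * N) : M = N := by
  have hI := Matrix.nonsing_inv_mul (U.g j) (isUnit_iff_ne_zero.2 (U.g_det j))
  rw [← Matrix.one_mul M, ← Matrix.one_mul N, ← hI, Matrix.mul_assoc, Matrix.mul_assoc, h]

private theorem g_inv (j : ι) (M : Matrix (Fin (U.d j)) (Fin (U.d j)) (KK Γ)) :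
    M * U.g j * (U.g j)⁻¹ = M := by
  rw [Matrix.mul_assoc, Matrix.mul_nonsing_inv _ (isUnit_iff_ne_zero.2 (U.g_det j)), Matrix.mul_one]

private theorem inv_g (j : ι) (M : Matrix (Fin (U.d j)) (Fin (U.d j)) (KK Γ)) :
    M * (U.g j)⁻¹ * U.g j = M := by
  rw [Matrix.mul_assoc, Matrix.nonsing_inv_mul _ (isUnit_iff_ne_zero.2 (U.g_det j)), Matrix.mul_one]

private theorem flat_self (j : ι) (s t : Fin (U.d j)) :
    U.ρ j (B.E.flat (bb U j s t)) = single t s 1 * U.g j := by
  apply g_left U j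
  rw [← U.ρ_flat, bb_self, Matrix.transpose_mul, U.g_symm, Matrix.transpose_single,
    Matrix.mul_assoc]

private theorem flat_ne {j m : ι} (h : m ≠ j) (s t : Fin (U.d j)) :
    U.ρ m (B.E.flat (bb U j s t)) = 0 := by
  apply g_left U m
  rw [← U.ρ_flat, bb_ne U h, Matrix.transpose_zero, Matrix.zero_mul, Matrix.mul_zero]

/-- the index set of the basis of the ideal of `Y` -/
private abbrev Ix (Y : Set ι) : Type := Σ j : {j // j ∈ Y}, Fin (U.d j) × Fin (U.d j)

private def bY (Y : Set ι) (p : Ix U Y) : B.E.H := bb U p.1 p.2.1 p.2.2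

private theorem comb_in {Y : Set ι} (c : Ix U Y → KK Γ) {m : ι} (h : m ∈ Y) :
    U.ρ m (∑ q, c q • bY U Y q) = (Matrix.of fun s t => c ⟨⟨m, h⟩, (s, t)⟩) * U.g m := by
  rw [map_sum, Fintype.sum_sigma, Finset.sum_eq_single ⟨m, h⟩]
  · simp only [map_smul, bY, bb_self]
    rw [Matrix.matrix_eq_sum_single (Matrix.of fun s t => c ⟨⟨m, h⟩, (s, t)⟩), Fintype.sum_prod_type,
      Finset.sum_mul]
    refine Finset.sum_congr rfl fun s _ => ?_
    rw [Finset.sum_mul]
    refine Finset.sum_congr rfl fun t _ => ?_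
    rw [← Matrix.smul_mul, Matrix.smul_single, smul_eq_mul, mul_one, Matrix.of_apply]
  · intro j _ hj
    refine Finset.sum_eq_zero fun x _ => ?_
    rw [map_smul, bY, bb_ne U (fun e => hj (Subtype.ext e.symm)), smul_zero]
  · intro h'
    exact absurd (Finset.mem_univ _) h'

private theorem comb_out {Y : Set ι} (c : Ix U Y → KK Γ) {m : ι} (h : m ∉ Y) :
    U.ρ m (∑ q, c q • bY U Y q) = 0 := by
  rw [map_sum]
  refine Finset.sum_eq_zero fun q _ => ?_
  rw [map_smul, bY, bb_ne U (fun e : m = q.1 => h (e ▸ q.1.2)), smul_zero]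

private theorem expand {Y : Set ι} {a : B.E.H} (ha : ∀ m ∉ Y, U.ρ m a = 0) :
    a = ∑ q : Ix U Y, (U.ρ q.1 a * (U.g q.1)⁻¹) q.2.1 q.2.2 • bY U Y q := by
  refine U.ext' fun m => ?_
  by_cases h : m ∈ Y
  · rw [comb_in U _ h]
    exact (inv_g U m _).symm
  · rw [comb_out U _ h, ha m h]

private theorem indep (Y : Set ι) : LinearIndependent (KK Γ) (bY U Y) := by
  rw [Fintype.linearIndependent_iff]
  rintro c hc ⟨⟨m, h⟩, s, t⟩
  have h1 := comb_in U c h
  rw [hc, map_zero] at h1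
  have h2 := g_inv U m (Matrix.of fun s t => c ⟨⟨m, h⟩, (s, t)⟩)
  rw [← h1, Matrix.zero_mul] at h2
  exact (congrFun (congrFun h2 s) t).symm

private theorem lid_eq (Y : Set ι) :
    B.lid (U.eS Y) = Submodule.span (KK Γ) (Set.range (bY U Y)) := by
  apply le_antisymm
  · intro a ha
    rw [expand U (U.mem_lid.1 ha)]
    exact Submodule.sum_mem _ fun q _ => Submodule.smul_mem _ _ (Submodule.subset_span ⟨q, rfl⟩)
  · rw [Submodule.span_le]
    rintro _ ⟨q, rfl⟩
    exact U.mem_lid.2 fun m h => bb_ne U (fun e : m = q.1 => h (e ▸ q.1.2)) _ _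

end Units

private theorem un_sub {γ δ : Γ} (h : γ ≠ δ) : Un (ZZ Γ) ((mK γ : KK Γ) - (mK δ : KK Γ)) := by
  have key : ∀ {γ δ : Γ}, δ < γ → Un (ZZ Γ) ((mK γ : KK Γ) - (mK δ : KK Γ)) := by
    intro γ δ h
    have := (binom h (ε := 1) (ε' := 1) (Or.inl rfl) (Or.inl rfl)).2.2.1
    rw [one_mul, one_mul] at this
    exact un_ZZ (sub_mem (AA_le_ZZ (mK_mem γ)) (AA_le_ZZ (mK_mem δ))) this
  rcases lt_or_gt_of_ne h with h | h
  · rw [← neg_sub]
    exact (key h).neg
  · exact key h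

namespace Wt

variable {ι : Type} [Fintype ι] (U : Wt B ι)

private theorem ip_le (i j : ι) (s t : Fin (U.d i)) (u v : Fin (U.d j)) :
    Le (B.ip (bb U.toWd i s t) (bb U.toWd j u v)) 0 := by
  rw [KB.ip, U.tau]
  refine Le.sum fun m _ => ?_
  rw [map_mul]
  by_cases hi : m = i
  · subst hi
    by_cases hj : m = j
    · subst hj
      rw [bb_self, flat_self]
      have : (single s t (1 : KK Γ) * U.g m * (single v u 1 * U.g m)).trace =
          U.g m t v * U.g m u s := by
        rw [Matrix.mul_assoc, Matrix.trace_single_mul, ← Matrix.mul_assoc, Matrix.mul_apply,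
          Finset.sum_eq_single u]
        · simp
        · intro x _ hx
          rw [Matrix.mul_single_apply_of_ne _ _ _ _ _ hx, zero_mul]
        · intro h'
          exact absurd (Finset.mem_univ _) h'
      rw [this]
      exact U.g_le m t v u s
    · rw [flat_ne U.toWd hj, Matrix.mul_zero, Matrix.trace_zero, mul_zero]
      exact Le.zero 0
  · rw [bb_ne U.toWd hi, Matrix.zero_mul, Matrix.trace_zero, mul_zero]
    exact Le.zero 0

/-- `ratS_tri` for `b (j, s, t) = el (Pi.single j (single s t 1 * g j))`, `j ∈ Y`;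
`ρ j (flat (b (j, s, t))) = single t s 1 * g j` and
`ip (b (j, s, t)) (b (j, u, v)) = (c j)⁻¹ * (g j t v * g j u s)` -/
theorem ratS {Y : Set ι} (hY : ∀ m j, j ∈ Y → U.pos m < U.pos j → m ∈ Y) :
    B.RatS (B.lid (U.eS Y)) := by
  choose h hS n hn hρ hz using U.top
  rw [lid_eq U.toWd Y]
  have hself : ∀ j s t, U.ρ j (h j s t) * (U.g j)⁻¹ = single s t (n j s t : KK Γ) := by
    intro j s t
    rw [hρ, ← Matrix.smul_mul, g_inv, Matrix.smul_single, smul_eq_mul, mul_one]
  refine ratS_tri (bY U.toWd Y) (fun p => h p.1 p.2.1 p.2.2)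
    (fun q p => (U.ρ q.1 (h p.1 p.2.1 p.2.2) * (U.g q.1)⁻¹) q.2.1 q.2.2)
    (fun p => n p.1 p.2.1 p.2.2) (fun p => U.pos p.1) (fun p => ?_) (fun p => hn _ _ _)
    (fun p => ?_) ?_ (indep U.toWd Y) (fun p q => U.ip_le _ _ _ _ _ _) fun p => hS _ _ _
  · exact expand U.toWd fun m hm =>
      hz _ _ _ m (fun e => hm (e ▸ p.1.2)) fun hlt => hm (hY m _ p.1.2 hlt)
  · simp only [hself, Matrix.single_apply_same]
  · rintro ⟨⟨m, hm⟩, u, v⟩ ⟨⟨j, hj⟩, s, t⟩ hne
    by_cases e : m = j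
    · subst e
      left
      simp only [hself] at hne
      by_contra hc
      apply hne
      rw [Matrix.single_apply_of_ne]
      rintro ⟨rfl, rfl⟩
      exact hc rfl
    · right
      by_contra hc
      apply hne
      simp only [hz j s t m e hc, Matrix.zero_mul, Matrix.zero_apply]

/-- `co (eS {j}) w = tau (eS {j} * T w⁻¹) = (c j)⁻¹ * trace (ρ j (T w⁻¹))` -/
theorem in_sing {j : ι} (h : U.sing j) : In B.E (ZZ Γ) (U.eS {j}) := by
  intro w
  rw [← B.E.tau_mul_T, U.tau]
  refine Subring.sum_mem _ fun m _ => ?_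
  rw [map_mul, U.ρ_eS]
  split_ifs with hm
  · rw [Matrix.one_mul]
    rw [Set.mem_singleton_iff] at hm
    subst hm
    exact mul_mem (U.sing_un _ h).2.1 (AA_le_ZZ (U.tr_mem _ _))
  · rw [Matrix.zero_mul, Matrix.trace_zero, mul_zero]
    exact zero_mem _

private theorem factor {i j : ι} (hi : ¬ U.sing i) (hj : U.rk j ≠ U.rk i) :
    ∃ a ∈ hr B.E (B.ze_mem (AA_le_ZZ (Γ := Γ))),
      (∀ m, U.rk m = U.rk i → U.ρ m a = 1) ∧ U.ρ j a = 0 := by
  by_cases hs : U.sing j
  · refine ⟨1 - U.eS {j}, sub_mem (one_mem _) (U.in_sing hs), fun m hm => ?_, ?_⟩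
    · rw [map_sub, map_one, U.ρ_eS, if_neg, sub_zero]
      rintro (rfl : m = j)
      exact hj hm
    · rw [map_sub, map_one, U.ρ_eS, if_pos (Set.mem_singleton j), sub_self]
  · have hω : U.ω i ≠ U.ω j := ((U.ω_ne i j hj.symm).resolve_left hi).resolve_left hs
    have hu := un_sub hω
    have h1 : In B.E (ZZ Γ) (1 : B.E.H) := one_mem (hr B.E (B.ze_mem (AA_le_ZZ (Γ := Γ))))
    have hz : In B.E (ZZ Γ) U.z := fun w => AA_le_ZZ (U.z_in w)
    have h2 : In B.E (ZZ Γ) (U.z - (mK (U.ω j) : KK Γ) • 1) :=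
      sub_mem (S := Subring B.E.H) (H := hr B.E (B.ze_mem (AA_le_ZZ (Γ := Γ)))) hz
        (In.smul B.E (AA_le_ZZ (mK_mem _)) h1)
    refine ⟨((mK (U.ω i) : KK Γ) - (mK (U.ω j) : KK Γ))⁻¹ • (U.z - (mK (U.ω j) : KK Γ) • 1),
      In.smul B.E hu.2.1 h2, fun m hm => ?_, ?_⟩
    · rw [map_smul, map_sub, map_smul, map_one, U.ρ_z, U.ω_eq m i hm, ← sub_smul, smul_smul,
        inv_mul_cancel₀ hu.2.2, one_smul]
    · rw [map_smul, map_sub, map_smul, map_one, U.ρ_z, sub_self, smul_zero]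

/-- for `i` not singular the idempotent is `(1 - eS {j | sing j})` times the product over the `j`
not singular with `rk j ≠ rk i` of `(mK (ω i) - mK (ω j))⁻¹ • (z - mK (ω j) • 1)` (`binom`, `un_ZZ`,
the subring `hr`; use a list or `Finset.noncommProd`, or induction on a finite set of `j`) -/
theorem in_rk (i : ι) : In B.E (ZZ Γ) (U.eS {j | U.rk j = U.rk i}) := by
  by_cases hi : U.sing i
  · have : {j | U.rk j = U.rk i} = {i} := by
      ext j
      exact ⟨fun h => U.sing_rk i j hi h, fun h => by rw [Set.mem_singleton_iff.1 h]; rfl⟩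
    rw [this]
    exact U.in_sing hi
  · have key : ∀ S : Finset ι, ∃ a ∈ hr B.E (B.ze_mem (AA_le_ZZ (Γ := Γ))),
        (∀ m, U.rk m = U.rk i → U.ρ m a = 1) ∧ ∀ m ∈ S, U.rk m ≠ U.rk i → U.ρ m a = 0 := by
      intro S
      induction S using Finset.induction_on with
      | empty => exact ⟨1, one_mem _, fun m _ => map_one _, fun m hm => absurd hm (by simp)⟩
      | insert j S _ ih =>
        obtain ⟨a, ha, h1, h2⟩ := ih
        by_cases hj : U.rk j = U.rk i
        · refine ⟨a, ha, h1, fun m hm hr => ?_⟩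
          rcases Finset.mem_insert.1 hm with rfl | hm
          · exact absurd hj hr
          · exact h2 m hm hr
        · obtain ⟨b, hb, h3, h4⟩ := U.factor hi hj
          refine ⟨a * b, mul_mem ha hb, fun m hm => ?_, fun m hm hr => ?_⟩
          · rw [map_mul, h1 m hm, h3 m hm, mul_one]
          · rw [map_mul]
            rcases Finset.mem_insert.1 hm with rfl | hm
            · rw [h4, mul_zero]
            · rw [h2 m hm hr, zero_mul]
    obtain ⟨a, ha, h1, h2⟩ := key Finset.univ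
    have : U.eS {j | U.rk j = U.rk i} = a := by
      refine U.ext' fun m => ?_
      rw [U.ρ_eS]
      split_ifs with hm
      · exact (h1 m hm).symm
      · exact (h2 m (Finset.mem_univ _) hm).symm
    rw [this]
    exact ha

theorem crd (k : ℕ) : B.Crd (B.lid (U.eS {j | U.rk j ≤ k})) := by
  have h1 : ∀ r : ℕ, U.eS {j | U.rk j = r} ∈ hr B.E (B.ze_mem (AA_le_ZZ (Γ := Γ))) := by
    intro r
    by_cases h : ∃ i, U.rk i = r
    · obtain ⟨i, rfl⟩ := h
      exact U.in_rk i
    · have : {j | U.rk j = r} = ∅ := Set.eq_empty_of_forall_notMem fun j hj => h ⟨j, hj⟩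
      rw [this, U.eS_empty]
      exact zero_mem _
  have h2 : U.eS {j | U.rk j ≤ k} = ∑ r ∈ Finset.range (k + 1), U.eS {j | U.rk j = r} := by
    refine U.ext' fun m => ?_
    rw [map_sum]
    simp only [U.ρ_eS, Set.mem_ofPred_eq]
    by_cases hm : U.rk m ≤ k
    · rw [if_pos hm, Finset.sum_eq_single (U.rk m), if_pos rfl]
      · intro r _ hr
        exact if_neg (Ne.symm hr)
      · intro h
        exact absurd (Finset.mem_range.2 (Nat.lt_succ_of_le hm)) h
    · rw [if_neg hm]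
      refine (Finset.sum_eq_zero fun r hr => if_neg ?_).symm
      rintro rfl
      exact hm (Nat.le_of_lt_succ (Finset.mem_range.1 hr))
  refine B.crd_of_idem (U.eS_CI _).2 (B.flat_CI (U.eS_CI _)) ?_ (U.ratS fun m j hj hlt => ?_)
  · rw [h2]
    exact Subring.sum_mem (hr B.E (B.ze_mem (AA_le_ZZ (Γ := Γ)))) fun r _ => h1 r
  · by_contra hm
    exact lt_asymm hlt (U.rk_pos j m (lt_of_le_of_lt hj (not_le.1 hm)))

private theorem not_lt_of_occ {z : X.W} {i j : ι} (hi : U.Occ z i) (hj : U.Occ z j) :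
    ¬ U.rk i < U.rk j := by
  intro hlt
  obtain ⟨Y, hY⟩ := U.crd (U.rk i)
  by_cases hz : z ∈ Y
  · apply hj
    have h1 : B.lmK (B.toKL.cell z) (U.eS {j | U.rk j ≤ U.rk i}) = 1 :=
      B.blk_of_mem (U.eS_CI _) hY hz
    have h2 : {m | U.rk m ≤ U.rk i} ∩ {j} = ∅ :=
      Set.eq_empty_of_forall_notMem fun m hm => by
        obtain ⟨h3, rfl⟩ := hm
        exact absurd hlt (not_lt.2 h3)
    rw [← Matrix.one_mul (B.lmK _ (U.eS {j})), ← h1, ← B.lmK_mul (B.toKL.cvx_cell z), U.eS_mul, h2,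
      U.eS_empty, B.lmK_zero]
  · apply hi
    have h1 := B.lmK_of_notMem (U.eS_CI _) hY hz
    have h2 : {m | U.rk m ≤ U.rk i} ∩ {i} = {i} :=
      Set.inter_eq_right.2 (Set.singleton_subset_iff.2 (le_refl (U.rk i)))
    rw [← h2, ← U.eS_mul, B.lmK_mul (B.toKL.cvx_cell z), h1, Matrix.zero_mul]

/-- `blk_of_mem`, `lmK_of_notMem`, `lmK_mul` -/
theorem sep {z : X.W} {i j : ι} (hi : U.Occ z i) (hj : U.Occ z j) : U.rk i = U.rk j :=
  le_antisymm (not_lt.1 (U.not_lt_of_occ hj hi)) (not_lt.1 (U.not_lt_of_occ hi hj))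

end Wt

end

end Pool.Agent.P.MP_1a0ecf_al.K4
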