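import Pool.Agent.P.MP_1a0ecf_al.K4.W1

/-! Package W3: families and blocks; gluing. -/

namespace Pool.Agent.P.MP_1a0ecf_al.K4

open K Matrix
open scoped Classical

set_option linter.unusedSectionVars false

noncomputable section

variable {X : F.Cox} {Γ : Type} [AddCommGroup Γ] [LinearOrder Γ] [IsOrderedAddMonoid Γ]
  {L : Fin X.n → Γ} {B : KB X Γ L}

/-- `le_of_sum_sq`, then the constant coefficient is a sum of squares of rationals -/
theorem lt_of_sum_sq {ι : Type} (s : Finset ι) (f : ι → KK Γ) (h : Lt (∑ i ∈ s, f i * f i) 0) :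
    ∀ i ∈ s, Lt (f i) 0 := by
  have hle : ∀ i ∈ s, Le (f i) 0 := le_of_sum_sq s f (γ := 0) (by rw [add_zero]; exact h.le)
  have h0 := h 0 le_rfl
  rw [co_sum, Finset.sum_congr rfl fun i hi =>
    (by simpa using co_mul_top (hle i hi) (hle i hi) : co (f i * f i) 0 = co (f i) 0 * co (f i) 0),
    Finset.sum_eq_zero_iff_of_nonneg fun i _ => mul_self_nonneg _] at h0
  exact fun i hi => (hle i hi).lt_of_co (mul_self_eq_zero.1 (h0 i hi))

theorem w3_sq {e : B.E.H} (h : CI e) (a : B.E.H) :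
    B.ip (e * a) a = ∑ w, B.E.co (e * a) w * B.E.co (e * a) w := by
  rw [← B.ip_eq, B.ip_mul_left e a (e * a), B.flat_CI h, ← mul_assoc, h.2, B.ip_comm]

theorem w3_sub {e e' : B.E.H} (h : CI e) (h' : CI e') (he : e' * e = e') : CI (e - e') :=
  ⟨fun a => by rw [sub_mul, mul_sub, h.1, h'.1], by
    rw [sub_mul, mul_sub, mul_sub, h.2, h'.2, h.1 e', he, sub_self, sub_zero]⟩

/-- `ip (e a) a = ip (e' a) (e' a) + ip ((e - e') a) ((e - e') a)` -/
theorem lt_sub_idem {e e' a : B.E.H} (h : CI e) (h' : CI e') (he : e' * e = e')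
    (hl : Lt (B.ip (e * a) a) 0) : Lt (B.ip (e' * a) a) 0 := by
  have e1 : B.ip (e * a) a = ∑ p : X.W ⊕ X.W,
      Sum.elim (B.E.co (e' * a)) (B.E.co ((e - e') * a)) p *
        Sum.elim (B.E.co (e' * a)) (B.E.co ((e - e') * a)) p := by
    rw [Fintype.sum_sum_type]
    simp only [Sum.elim_inl, Sum.elim_inr]
    rw [← w3_sq h', ← w3_sq (w3_sub h h' he), sub_mul, KB3P.ip_sub, add_sub_cancel]
  rw [e1] at hl
  rw [w3_sq h']
  refine Lt.sum fun w _ => ?_
  have := lt_of_sum_sq _ _ hl (Sum.inl w) (Finset.mem_univ _)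
  simpa using this.mul_le this.le

namespace Wt

variable {ι : Type} [Fintype ι] (U : Wt B ι)

/-- `cell_trace` at `T w`, `lmK_j`, `sp` -/
theorem fam_iff (z : X.W) (j : ι) : B.toKL.Fam z (U.χ j) ↔ U.Occ z j := by
  obtain ⟨m, hm, ht⟩ := U.cell_trace z
  have e1 : B.toKL.ch (B.toKL.cell z) = ∑ i, (m i : ℂ) • U.χ i := by
    funext w
    have hn : ∀ i, (m i : KK Γ) ∈ AA Γ := fun i => natCast_mem _ _
    have h1 := congrArg sp (ht (B.E.T w))
    rw [sp_sum _ _ fun i _ => mul_mem (hn i) (U.tr_mem i w), ← B.j_T, B.lmK_j,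
      ← AddMonoidHom.map_trace, sp_alg, B.j_T] at h1
    rw [Finset.sum_apply, F.KL.ch, ← Finset.sum_coe_sort]
    refine Eq.trans ?_ (h1.trans (Finset.sum_congr rfl fun i _ => ?_))
    · rw [Matrix.trace, map_sum]
      rfl
    · rw [sp_mul (hn i) (U.tr_mem i w), U.tr_sp, ← Int.cast_natCast, sp_int]
      simp
  rw [F.KL.Fam, e1, ip_sum, ← hm]
  simp [ip_smul, U.orth]

theorem ip_eS (j : ι) (w : X.W) : B.ip (U.eS {j} * B.E.T w) (B.E.T w) =
    (U.c j)⁻¹ * (U.ρ j (B.E.T w * B.E.T w⁻¹)).trace := by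
  rw [KB.ip, B.E.flat_T, mul_assoc, U.tau, Finset.sum_eq_single j]
  · rw [map_mul, U.ρ_eS]
    simp
  · intro i _ hi
    rw [map_mul, U.ρ_eS]
    simp [hi]
  · simp

/-- Let `e1`, `e0` be the idempotents (`cell_idem`) of the lower sets `{y | Le y w}` and
`{y | Le y w ∧ ¬ Le w y}`; `e1 = eS Y1`, `e0 = eS Y0` (`CI_eq`). By `ip_eT` and `lt_sub_idem` (for `e0`
and `1 - e1`) `j ∈ Y1`, `j ∉ Y0`. If `eS {j}` acts by zero on the cell it maps `lid e1` to `lid e0`. -/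
theorem glue {j : ι} {w : X.W}
    (h : co ((U.c j)⁻¹ * (U.ρ j (B.E.T w * B.E.T w⁻¹)).trace) 0 ≠ 0) : U.Occ w j := by
  rw [← U.ip_eS] at h
  have hn : ¬ Lt (B.ip (U.eS {j} * B.E.T w) (B.E.T w)) 0 := fun k => h (k 0 le_rfl)
  have hc := U.eS_CI {j}
  obtain ⟨e1, c1, -, l1⟩ := B.cell_idem (Y := {y | B.toKL.Le y w}) fun x y a b => a.trans b
  obtain ⟨e0, c0, -, l0⟩ := B.cell_idem (Y := {y | B.toKL.Le y w ∧ ¬ B.toKL.Le w y})
    fun x y a b => ⟨a.trans b.1, fun k => b.2 (k.trans a)⟩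
  have key : ∀ e, CI e → U.eS {j} * e = 0 ∨ U.eS {j} * e = U.eS {j} := fun e he => by
    obtain ⟨Y, rfl⟩ := U.CI_eq he
    rw [U.eS_mul]
    by_cases k : j ∈ Y
    · exact Or.inr (by rw [Set.singleton_inter_of_mem k])
    · exact Or.inl (by rw [Set.singleton_inter_of_notMem k, U.eS_empty])
  have h0 : U.eS {j} * e0 = 0 := (key e0 c0).resolve_right fun k => hn (lt_sub_idem c0 hc k (by
    simpa [B.toKL.le_refl] using B.ip_eT c0 l0 w w))
  have h1 : U.eS {j} * e1 = U.eS {j} := (key e1 c1).resolve_left fun k => by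
    have one : CI (1 : B.E.H) := ⟨fun a => by simp, one_mul _⟩
    refine hn (lt_sub_idem (w3_sub one c1 (mul_one _)) hc (by rw [mul_sub, k, mul_one, sub_zero]) ?_)
    have a1 : B.ip (B.E.T w) (B.E.T w) = 1 := by
      rw [KB.ip, B.E.flat_T, B.E.tau_T_mul]
      simp
    rw [sub_mul, one_mul, KB3P.ip_sub, a1]
    simpa [B.toKL.le_refl] using (B.ip_eT c1 l1 w w).neg
  intro hz
  refine U.eS_ne j (B.eq_zero_of_lmK hc.2 fun z => ?_)
  by_cases a : B.toKL.Le z w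
  · by_cases b : B.toKL.Le w z
    · rw [B.toKL.cell_eq (show B.toKL.Sim z w from ⟨a, b⟩)]
      exact hz
    · have := B.lmK_mul (B.toKL.cvx_cell z) (U.eS {j}) e0
      rw [h0, B.lmK_zero, B.blk_of_mem c0 l0 (z := z) ⟨a, b⟩, mul_one] at this
      exact this.symm
  · rw [← h1, B.lmK_mul (B.toKL.cvx_cell z), B.lmK_of_notMem c1 l1 (z := z) a, mul_zero]

end Wt

end

end Pool.Agent.P.MP_1a0ecf_al.K4
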