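import Pool.Agent.P.MP_1a0ecf_al.K4.B1
import Pool.Agent.P.MP_1a0ecf_al.K4.B2
import Pool.Agent.P.MP_1a0ecf_al.K4.W2
import Pool.Agent.P.MP_1a0ecf_al.K4.W3

/-! Package B3: the certificate of a region. -/

namespace Pool.Agent.P.MP_1a0ecf_al.K4

open K Matrix
open scoped Classical

noncomputable section

variable {X : F.Cox} {a b : ℝ} {B : KB X ℝ (Lw X a b)} {C : Ch}

/-- the elements `C s` -/
def cH (B : KB X ℝ (Lw X a b)) (s : ℕ) : B.E.H :=
  if h : s < X.n then B.E.Ts ⟨s, h⟩ + psi a b (vi s) • 1 else 0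

theorem cH_mem (s : ℕ) : cH B s ∈ SB B := by
  unfold cH
  split_ifs with h
  · refine mem_SB.2 ⟨(hr B.E (B.ze_mem le_rfl)).add_mem (in_T _ _ _)
      (In.smul _ (psi_mem _) (hr B.E (B.ze_mem le_rfl)).one_mem), ?_⟩
    have e : bK ℝ (psi a b (vi s)) = (mK (Lw X a b ⟨s, h⟩) : KK ℝ) := by
      rw [psi_vi, ← mK_neg, bK_mK, neg_neg]
    rw [map_add, B.bk_smul, map_one, B.bk_T, X.cs.inv_simple, B.E.Ti_s, e, psi_vi, sub_smul]
    abel
  · exact zero_mem _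

theorem bar_cM (R : Rp) (s : ℕ) (u v : Fin R.F.d) : F.barG _ (R.cM s u v) = R.cM s u v := bar_pz _

theorem cM_ge (R : Rp) {s : ℕ} (hs : ¬ s < 4) : R.cM s = 0 := by
  ext u v
  simp [Rp.cM, Fm.spM, Rp.cr, sel_eq, hs, pz]

theorem map_smul_one {n : ℕ} (p : PP) : ((p • 1 : Matrix (Fin n) (Fin n) PP)).map (psi a b) =
    psi a b p • 1 := by
  ext u v
  simp [Matrix.one_apply, apply_ite (psi a b)]

theorem trace_map {n : ℕ} (M : Matrix (Fin n) (Fin n) PP) :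
    (M.map (psi a b)).trace = psi a b M.trace := (AddMonoidHom.map_trace _ _).symm

namespace Rh

variable (U : Rh B C) (h : X.Is (F.pathM 1 4)) (hn : X.n = 4) (hC : ∀ j < 25, C.Ok j)

theorem ρ_Ts (j : Fin 25) (i : Fin X.n) : U.ρ j (B.E.Ts i) = ((C.R j).tM i).map (psi a b) := by
  simpa [Rp.wM] using U.wd j [i]

include hn in
theorem ρ_cH (j : Fin 25) (s : ℕ) : U.ρ j (cH B s) = ((C.R j).cM s).map (psi a b) := by
  unfold cH
  split_ifs with k
  · rw [map_add, map_smul, map_one, ρ_Ts, Rp.tM, Matrix.map_sub _ (map_sub _), map_smul_one,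
      sub_add_cancel]
  · rw [map_zero, cM_ge _ (hn ▸ k), Matrix.map_zero _ (map_zero _)]

include hn hC in
theorem cH_inv (j : Fin 25) (s : ℕ) : (U.ρ j (cH B s))ᵀ * (C.R j).gM.map (psi a b) =
    (C.R j).gM.map (psi a b) * U.ρ j (cH B s) := by
  rw [U.ρ_cH hn, ← Matrix.transpose_map, ← Matrix.map_mul, ← Matrix.map_mul]
  by_cases k : s < 4
  · rw [(hC j j.2).inv s k]
  · rw [cM_ge _ k, transpose_zero, Matrix.zero_mul, Matrix.mul_zero]

include hn hC in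
theorem flat (j : Fin 25) (x : B.E.H) : (U.ρ j x)ᵀ * (C.R j).gM.map (psi a b) =
    (C.R j).gM.map (psi a b) * U.ρ j (B.E.flat x) := by
  induction x using B.E.induction with
  | h1 => rw [KB3P.flat_one, map_one, transpose_one, Matrix.one_mul, Matrix.mul_one]
  | ha x y k k' => rw [map_add, map_add, map_add, transpose_add, Matrix.add_mul, Matrix.mul_add, k, k']
  | hs r x k => rw [map_smul, map_smul, map_smul, transpose_smul, Matrix.smul_mul, Matrix.mul_smul, k]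
  | hm x i k =>
    have e := U.cH_inv hn hC j i
    rw [cH, dif_pos i.2, map_add, map_smul, map_one, transpose_add, transpose_smul, transpose_one,
      Matrix.add_mul, Matrix.mul_add, Matrix.smul_mul, Matrix.mul_smul, Matrix.one_mul,
      Matrix.mul_one, add_left_inj] at e
    rw [B.E.flat_mul, B.E.flat_T, X.cs.inv_simple, map_mul, map_mul, transpose_mul, Matrix.mul_assoc,
      k, ← Matrix.mul_assoc, e, Matrix.mul_assoc]

include hn in
theorem ρ_nd (j : Fin 25) (n : ℕ) :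
    U.ρ j (nd ((algebraMap (KK ℝ) B.E.H).comp (psi a b)) (cH B) C.pr n) =
      ((C.R j).nM C.pr n).map (psi a b) := by
  have e1 := nd_map (φ := (algebraMap (KK ℝ) B.E.H).comp (psi a b)) (c := cH B)
    (U.ρ j).toRingHom (φ' := (algebraMap (KK ℝ) _).comp (psi a b))
    (c' := fun s => ((C.R j).cM s).map (psi a b)) (fun p => (U.ρ j).commutes _) (U.ρ_cH hn j) C.pr n
  have e2 := nd_map (φ := algebraMap PP (C.R j).F.Mx) (c := (C.R j).cM)
    (psi a b).mapMatrix (φ' := (algebraMap (KK ℝ) _).comp (psi a b))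
    (c' := fun s => ((C.R j).cM s).map (psi a b)) (fun p => by
      rw [RingHom.comp_apply, Algebra.algebraMap_eq_smul_one, Algebra.algebraMap_eq_smul_one]
      exact map_smul_one p) (fun _ => rfl) C.pr n
  exact e1.trans e2.symm

include hn hC in
theorem top (hp : ∀ i < 25, ∀ j < 25, C.ps i = C.ps j → i = j) (j : Fin 25) (s t : Fin (C.R j).F.d) :
    ∃ x ∈ SB B, ∃ n : ℤ, n ≠ 0 ∧
      U.ρ j x = (n : KK ℝ) • (single s t 1 * (C.R j).gM.map (psi a b)) ∧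
      ∀ m : Fin 25, m ≠ j → ¬ C.ps m < C.ps j → U.ρ m x = 0 := by
  obtain ⟨Z, hZ⟩ : ∃ Z : TwoSidedIdeal B.E.H, ∀ x, x ∈ Z ↔
      ∀ m : Fin 25, m ≠ j → ¬ C.ps m < C.ps j → U.ρ m x = 0 :=
    ⟨TwoSidedIdeal.mk' {x | ∀ m : Fin 25, m ≠ j → ¬ C.ps m < C.ps j → U.ρ m x = 0}
      (fun m _ _ => map_zero _) (fun hx hy m k k' => by rw [map_add, hx m k k', hy m k k', add_zero])
      (fun hx m k k' => by rw [map_neg, hx m k k', neg_zero])
      (fun hx m k k' => by rw [map_mul, hx m k k', Matrix.mul_zero])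
      (fun hx m k k' => by rw [map_mul, hx m k k', Matrix.zero_mul]),
      fun x => TwoSidedIdeal.mem_mk' _ _ _ _ _ _ x⟩
  simp only [← hZ]
  refine top_of_cyc (U.ρ j) _ Z (cH B) cH_mem (fun s y u => ?_) (U.cH_inv hn hC j) (C.R j).r
    (fun k l hk hl => ?_) (fun y => ?_) s t
  · rw [U.ρ_cH hn, map_apply, psi_bar, bar_cM]
    exact ⟨psi_mem _, rfl⟩
  · obtain ⟨e1, e2⟩ := (hC j j.2).top k l hk hl
    refine ⟨_, nd_mem (SB B) (φ := (algebraMap (KK ℝ) B.E.H).comp (psi a b)) (fun t => ?_) cH_mem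
      C.pr (tS ((C.R j).tgt k l)), _, e1, ?_, (hZ _).2 fun m m1 m2 => ?_⟩
    · rw [RingHom.comp_apply, Algebra.algebraMap_eq_smul_one]
      exact SB_smul (psi_mem _) (by rw [psi_bar, bar_ts]) (one_mem _)
    · rw [U.ρ_nd hn, e2, ← Matrix.smul_mul, Matrix.map_mul, ← Matrix.smul_mul]
      congr 1
      ext u v
      simp [single, apply_ite (psi a b)]
    · rw [U.ρ_nd hn, (hC m m.2).low j j.2 (lt_of_le_of_ne (not_lt.1 m2) fun e =>
        m1 (Fin.ext (hp _ j.2 _ m.2 e).symm)) k hk l hl, Matrix.map_zero _ (map_zero _)]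
  · refine ((hC j j.2).cyc y).imp id fun ⟨s, u, n, k1, k2, k3, k4⟩ => ⟨s, u, n, k1, k2, ?_, fun z hz => ?_⟩
    · rw [U.ρ_cH hn, map_apply, k3, map_intCast]
    · rw [U.ρ_cH hn, map_apply, k4 z hz, map_zero]

theorem tr_wd (j : Fin 25) {l : List (Fin X.n)} (hl : X.cs.IsReduced l) :
    (U.ρ j (B.E.T (X.cs.wordProd l))).trace = psi a b ((C.R j).wM (l.map Fin.val)).trace := by
  rw [B.E.T_word hl, U.wd, trace_map]

theorem tr_eq (j : Fin 25) (w : X.W) :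
    (U.ρ j (B.E.T w)).trace ∈ AA ℝ ∧ sp (U.ρ j (B.E.T w)).trace = U.χ j w := by
  obtain ⟨l, hl, rfl⟩ := X.cs.exists_isReduced w
  rw [U.tr_wd j hl, sp_psi, U.χ_wd j l hl]
  exact ⟨psi_mem _, rfl⟩

include h hn in
theorem el4_wd {m : ℕ} (hm : m < 25) : ∃ l : List (Fin X.n), X.cs.IsReduced l ∧
    l.map Fin.val = gt wds [] m ∧ X.el4 m = X.cs.wordProd l := by
  obtain ⟨l, e, hl⟩ := red_sound h hn (red_wds m)
  exact ⟨l, hl, e, by rw [word_eq, e, wds_eq m hm, F.Cox.el4]⟩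

include h hn hC

theorem isChi (j : Fin 25) : F.Cox.IsChi (U.χ j) j := fun m hm => by
  obtain ⟨l, hl, e, e'⟩ := el4_wd h hn hm
  rw [e', U.χ_wd j l hl, e, (hC j j.2).tr m hm, spc_pv, sv_CT j j.2 m hm]

omit h hn in
theorem card : ∑ j : Fin 25, (C.R j).F.d * (C.R j).F.d = 1152 := by
  have e : ∀ j : Fin 25, ((C.R j).F.d : ℤ) = F.tab4 j 0 := fun j => by
    have k := congrArg (F.spc _) ((hC j j.2).tr 0 (by norm_num))
    rw [spc_pv, sv_CT j j.2 0 (by norm_num), wds_eq 0 (by norm_num)] at k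
    have k' : (C.R j).wM (F.wd4 0) = 1 := rfl
    rw [k', trace_one, Fintype.card_fin, map_natCast] at k
    exact_mod_cast k
  have k := F.t4_col 0 (by norm_num)
  rw [if_pos rfl, ← Fin.sum_univ_eq_sum_range (fun j => F.tab4 j 0 * F.tab4 j 0)] at k
  simp only [← e] at k
  exact_mod_cast k

theorem orth (i j : Fin 25) : ip (U.χ i) (U.χ j) = if i = j then 1 else 0 := by
  rw [F.Cox.ip4 h hn (U.isCh i).isCl (U.isCh j).isCl, Finset.sum_congr rfl fun c hc => by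
    rw [U.isChi h hn hC i c (Finset.mem_range.1 hc), U.isChi h hn hC j c (Finset.mem_range.1 hc)]]
  have k := congrArg (Int.cast : ℤ → ℂ) (tab_orth i i.2 j j.2)
  push_cast at k
  rw [k]
  by_cases e : i = j
  · simp [e]
  · simp [e, Fin.val_ne_of_ne e]

theorem tr_el4 (j : Fin 25) {m : ℕ} (hm : m < 25) :
    (U.ρ j (B.E.T (X.el4 m))).trace = psi a b (pv (glb.CT j m)) := by
  obtain ⟨l, hl, e, e'⟩ := el4_wd h hn hm
  rw [e', U.tr_wd j hl, e, (hC j j.2).tr m hm]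

omit hC in
theorem el4_ne {m : ℕ} (hm : m < 25) : X.el4 m = 1 ↔ m = 0 := by
  obtain ⟨l, hl, e, e'⟩ := el4_wd h hn hm
  rw [← wds_ne m hm, ← wds_eq m hm, ← e, e', ← X.cs.length_eq_zero_iff, hl.eq, List.length_eq_zero_iff,
    List.map_eq_nil_iff]

theorem ρ_z (j : Fin 25) : U.ρ j (B.E.T (X.el4 24) * B.E.T (X.el4 24)) =
    (mK (2 * om a b j) : KK ℝ) • 1 := by
  obtain ⟨l, hl, e, e'⟩ := el4_wd h hn (m := 24) (by norm_num)
  obtain ⟨s, hs, k⟩ := (hC j j.2).cen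
  rw [map_mul, e', B.E.T_word hl, U.wd, e, k, map_smul_one, smul_mul_smul_comm, Matrix.one_mul,
    psi_mo, two_mul, mK_add (om a b j), Units.val_mul, om]
  rcases hs with rfl | rfl <;> simp

theorem tr_gl (hw : ∀ m, red (gt C.gw [] m) = true) {m : ℕ} (hm : m < 16) : ∃ w : X.W,
    ∀ j : Fin 25, gt (C.R j).gl 0 m ≠ 0 →
      (U.ρ j (B.E.T w * B.E.T w⁻¹)).trace = psi a b (pv (un (gt (C.R j).gl 0 m))) := by
  obtain ⟨l, e, hl⟩ := red_sound h hn (hw m)
  refine ⟨X.cs.wordProd l, fun j hj => ?_⟩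
  rw [← X.cs.wordProd_reverse, B.E.T_word hl, B.E.T_word hl.reverse, ← List.prod_append,
    ← List.map_append, U.wd, List.map_append, List.map_reverse, e, trace_map, (hC j j.2).gl m hm hj]

/-- the first part of the certificate -/
def toWd (hp : ∀ i < 25, ∀ j < 25, C.ps i = C.ps j → i = j) : Wd B (Fin 25) where
  d j := (C.R j).F.d
  d_pos j := (hC j j.2).pos
  ρ := U.ρ
  g j := (C.R j).gM.map (psi a b)
  g_symm j := by rw [← Matrix.transpose_map, Rp.gM_symm]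
  g_det j := det_psi_ne (hC j j.2).nd
  ρ_flat := U.flat hn hC
  pos j := C.ps j
  top := U.top hn hC hp
  card := by rw [card hC, ← F.Cox.card4 h hn, Nat.card_eq_fintype_card]

theorem tau (hp : ∀ i < 25, ∀ j < 25, C.ps i = C.ps j → i = j) (x : B.E.H) :
    B.E.tau x = ∑ j : Fin 25, (cK a b j)⁻¹ * (U.ρ j x).trace := by
  obtain ⟨lam, e⟩ := (U.toWd h hn hC hp).exists_lam
  have k := lam_unique a b (lam := lam) fun m hm => by
    have := e (B.E.T (X.el4 m))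
    rw [B.E.tau_T] at this
    simp only [el4_ne h hn hm] at this
    rw [this]
    exact Finset.sum_congr rfl fun j _ => congrArg _ (U.tr_el4 h hn hC j hm).symm
  rw [e]
  exact Finset.sum_congr rfl fun j _ => by rw [k]; rfl

/-- the certificate -/
def toWt {Z : Rg} (hZ : Z.Ok C a b) : Wt B (Fin 25) where
  toWd := U.toWd h hn hC hZ.inj
  c j := cK a b j
  c_ne j := cK_ne a b j.2
  tau := U.tau h hn hC hZ.inj
  g_le j := hZ.g_le j j.2
  tr_mem j w := (U.tr_eq j w).1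
  χ := U.χ
  tr_sp j w := (U.tr_eq j w).2
  orth i j := by convert U.orth h hn hC i j
  rk j := Z.k j
  rk_pos i j := hZ.rk_pos i i.2 j j.2
  z := B.E.T (X.el4 24) * B.E.T (X.el4 24)
  z_in := In.mul _ (B.ze_mem le_rfl) (in_T _ _ _) (in_T _ _ _)
  ω j := 2 * om a b j
  ρ_z := U.ρ_z h hn hC
  sing j := Z.sing glb j = true
  sing_un j := hZ.sing_un j j.2
  sing_rk i j k k' := Fin.ext (hZ.sing_rk i i.2 j j.2 k k')
  ω_eq i j k := congrArg _ (hZ.om_eq i i.2 j j.2 k)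
  ω_ne i j k := (hZ.om_ne i i.2 j j.2 k).imp id (Or.imp id fun e e' =>
    e (mul_left_cancel₀ two_ne_zero e'))

end Rh

/-- the result for one region -/
theorem region (h : X.Is (F.pathM 1 4)) (hn : X.n = 4) (hC : ∀ j < 25, C.Ok j)
    (hw : ∀ m, red (gt C.gw [] m) = true) {Z : Rg} (hZ : Z.Ok C a b) (D : F.KL X ℝ (Lw X a b)) :
    ∃ χ : Fin 25 → X.W → ℂ, (∀ j, IsCh (χ j) ∧ F.Cox.IsChi (χ j) j) ∧
      ∀ i j, D.Rel (χ i) (χ j) ↔ F.Fam4 a b i j := by
  obtain ⟨B, rfl⟩ := exists_KB D (conj_w h hn a b)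
  obtain ⟨U⟩ := exists_Rh h hn B hC
  refine ⟨U.χ, fun j => ⟨U.isCh j, U.isChi h hn hC j⟩, fun i j => ?_⟩
  have irr : ∀ j, IsIrr (U.χ j) := fun j => (U.isChi h hn hC j).irr h hn (U.isCh j) j.2
  rw [← hZ.fam i i.2 j j.2]
  refine ⟨fun ⟨z, k, k'⟩ => (U.toWt h hn hC hZ).sep (((U.toWt h hn hC hZ).fam_iff z i).1 k)
    (((U.toWt h hn hC hZ).fam_iff z j).1 k'), fun e => ?_⟩
  refine hZ.tree (fun i j => ∀ (hi : i < 25) (hj : j < 25), B.toKL.Rel (U.χ ⟨i, hi⟩) (U.χ ⟨j, hj⟩))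
    (fun i _ hi _ => B.toKL.rel_refl (irr _)) (fun i j k hj hi => (k hi hj).symm)
    (fun i j k hj r r' hi hk => (r hi hj).trans (irr _) (r' hj hk))
    (fun i _ j _ m hm r r' hi hj => ?_) i i.2 j j.2 e i.2 j.2
  obtain ⟨w, k⟩ := U.tr_gl h hn hC hw hm
  refine ⟨w, ((U.toWt h hn hC hZ).fam_iff w ⟨i, hi⟩).2 ((U.toWt h hn hC hZ).glue ?_),
    ((U.toWt h hn hC hZ).fam_iff w ⟨j, hj⟩).2 ((U.toWt h hn hC hZ).glue ?_)⟩
  · exact fun e => r.2 ((k ⟨i, hi⟩ r.1) ▸ e)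
  · exact fun e => r'.2 ((k ⟨j, hj⟩ r'.1) ▸ e)

end

end Pool.Agent.P.MP_1a0ecf_al.K4
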