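import Pool.Agent.P.MP_1a0ecf_al.Ck

/-! Type F4, Kazhdan-Lusztig side: the checker. Computations with natural numbers and integers. -/

namespace Pool.Agent.P.MP_1a0ecf_al.K4

noncomputable section

def sel {α : Type} (b : Bool) (x y : α) : α := Bool.rec y x b

def gt {α : Type} (l : List α) (z : α) : Nat → α :=
  List.rec (fun _ => z) (fun a _ ih n => Nat.rec a (fun m _ => ih m) n) l

def tab {α : Type} (f : Nat → α) (n : Nat) : Nat → List α :=
  Nat.rec (fun _ => []) (fun _ ih k => f k :: ih (Nat.succ k)) n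

def fo {α β : Type} (f : α → β → β) (z : β) (l : List α) : β :=
  List.rec z (fun a _ ih => f a ih) l

def foN {β : Type} (f : Nat → β → β) (z : β) (n : Nat) : β := Nat.rec z (fun k ih => f k ih) n

def allL {α : Type} (f : α → Bool) (l : List α) : Bool :=
  List.rec true (fun a _ ih => Bool.rec false ih (f a)) l

/-- the digits in base `2 ^ 32` -/
def un (n : Nat) : List Nat :=
  Nat.rec (motive := fun _ => Nat → List Nat) (fun _ => [])
    (fun _ ih m => sel (Nat.beq m 0) [] (Nat.mod m 4294967296 :: ih (Nat.div m 4294967296)))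
    (Nat.succ (Nat.div (Nat.log2 n) 32)) n

/-- the fields of a term -/
def tI (t : Nat) : Nat := Nat.mod t 64

def tJ (t : Nat) : Nat := Nat.mod (Nat.div t 64) 64

def tG (t : Nat) : Bool := Nat.beq (Nat.mod (Nat.div t 4096) 2) 1

def tC (t : Nat) : Nat := Nat.mod (Nat.div t 8192) 2048

def tS (t : Nat) : Nat := Nat.div t 16777216

def tZ (t : Nat) : Bool := an (Nat.beq (tI t) 32) (Nat.beq (tJ t) 32)

/-- exponents and coefficient as integers -/
def zI (t : Nat) : Int := Int.subNatNat (tI t) 32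

def zJ (t : Nat) : Int := Int.subNatNat (tJ t) 32

def zC (t : Nat) : Int := sel (tG t) (Int.subNatNat 0 (tC t)) (Int.ofNat (tC t))

def eqZ (a b : Int) : Bool := decide (a = b)

def leZ (a b : Int) : Bool := decide (a ≤ b)

def mxZ (a b : Int) : Int := sel (leZ a b) b a

/-- `n` blocks `a` of `e` bits -/
def rp (a e n : Nat) : Nat := Nat.rec 0 (fun _ ih => Nat.add a (Nat.shiftLeft ih e)) n

/-- a packed row with value `p - m` and bound `w` -/
structure Rw where
  p : Nat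
  m : Nat
  w : Nat

def zr : Rw := ⟨0, 0, 0⟩

def bad : Rw := ⟨0, 0, 1048576⟩

/-- evaluate `x` first -/
def frw {β : Type} (x : Rw) (k : Rw → β) : β :=
  sel (Nat.ble x.p x.m) (sel (Nat.ble x.w 0) (k x) (k x)) (sel (Nat.ble x.w 0) (k x) (k x))

def fl {α : Type} (f : α → Rw → Rw) (l : List α) : Rw → Rw :=
  List.rec (fun a => a) (fun t _ ih a => frw (f t a) ih) l

def flN (f : Nat → Rw → Rw) (n : Nat) : Rw → Rw :=
  Nat.rec (fun a => a) (fun k ih a => frw (f k a) ih) n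

/-- size of the matrices and radii of the box -/
structure Fm where
  d : Nat
  x : Nat
  y : Nat

namespace Fm

variable (F : Fm)

def e1 : Nat := Nat.mul 20 (Nat.add (Nat.mul 2 F.x) 9)

def e2 : Nat := Nat.mul F.e1 (Nat.add (Nat.mul 2 F.y) 9)

def sU : Nat := Nat.add 80 (Nat.mul 4 F.e1)

def blk (a : Nat) : Nat :=
  rp (rp a 20 (Nat.add (Nat.mul 2 F.x) 1)) F.e1 (Nat.add (Nat.mul 2 F.y) 1)

def off1 : Nat := F.blk 1024

def off : Nat := rp F.off1 F.e2 F.d

def al : Nat := rp (F.blk 2047) F.e2 F.d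

def offs : Nat := Nat.shiftLeft F.off F.sU

def als : Nat := Nat.shiftLeft F.al F.sU

def ad (g : Bool) (c s w : Nat) (r a : Rw) : Rw :=
  ⟨Nat.add a.p (Nat.mul c (Nat.shiftLeft (sel g r.m r.p) s)),
    Nat.add a.m (Nat.mul c (Nat.shiftLeft (sel g r.p r.m) s)), Nat.add a.w w⟩

/-- add a monomial multiple of a row -/
def addT (g : Bool) (c i j : Nat) (r a : Rw) : Rw :=
  sel (Nat.beq r.w 0) a
    (ad g c (Nat.add (Nat.mul 20 (Nat.sub i 28)) (Nat.mul F.e1 (Nat.sub j 28)))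
      (sel (an (an (Nat.ble 28 i) (Nat.ble i 36)) (an (Nat.ble 28 j) (Nat.ble j 36)))
        (Nat.mul c r.w) 1048576) r a)

/-- add a monomial in column `k` -/
def addL (g : Bool) (c i j k : Nat) (a : Rw) : Rw :=
  ad g c (Nat.add (Nat.add (Nat.mul 20 (Nat.sub (Nat.add i F.x) 28))
      (Nat.mul F.e1 (Nat.sub (Nat.add j F.y) 28))) (Nat.mul F.e2 k))
    (sel (an (an (an (Nat.ble 28 (Nat.add i F.x)) (Nat.ble i (Nat.add F.x 36)))
      (an (Nat.ble 28 (Nat.add j F.y)) (Nat.ble j (Nat.add F.y 36)))) (ltN k F.d)) c 1048576)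
    ⟨1, 0, 1⟩ a

def nr3 (n : Nat) : Rw := ⟨Nat.sub n F.off, Nat.sub F.off n, 1024⟩

def nr2 (t : Nat) : Rw :=
  sel (Nat.beq (Nat.land t F.als) t) (F.nr3 (Nat.shiftRight t F.sU)) bad

def nr1 (x m : Nat) : Rw := sel (Nat.ble m x) (F.nr2 (Nat.sub x m)) bad

/-- normalise -/
def nrm (a : Rw) : Rw :=
  sel (Nat.ble (Nat.add a.w 1025) 1048576)
    (sel (Nat.beq a.p a.m) zr (F.nr1 (Nat.add a.p F.offs) a.m)) bad

/-- symmetric terms -/
def tmS (r : Rw) (t : Nat) (a : Rw) : Rw :=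
  sel (tZ t) (F.addT (tG t) (tC t) 32 32 r a)
    (F.addT (tG t) (tC t) (tI t) (tJ t) r
      (F.addT (tG t) (tC t) (Nat.sub 64 (tI t)) (Nat.sub 64 (tJ t)) r a))

def litS (k t : Nat) (a : Rw) : Rw :=
  sel (tZ t) (F.addL (tG t) (tC t) 32 32 k a)
    (F.addL (tG t) (tC t) (tI t) (tJ t) k
      (F.addL (tG t) (tC t) (Nat.sub 64 (tI t)) (Nat.sub 64 (tJ t)) k a))

/-- subtract a term -/
def litN (k t : Nat) (a : Rw) : Rw := F.addL (nt (tG t)) (tC t) (tI t) (tJ t) k a

def mk' (f : Nat → Rw) : List Rw := tab (fun u => F.nrm (f u)) F.d 0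

def idM : List Rw := F.mk' fun u => F.addL false 1 32 32 u zr

/-- row `u` of a product -/
def mr (c : List Nat) (A : List Rw) (u : Nat) (a : Rw) : Rw :=
  fo (fun t r => F.tmS (gt A zr (tS t)) t r) a (un (gt c 0 u))

end Fm

def okM (A : List Rw) : Bool := allL (fun r => ltN r.w 1048576) A

def isZ (r : Rw) : Bool := Nat.beq r.w 0

def zM (A : List Rw) : Bool := allL isZ A

/-- the data of one representation -/
structure Rp where
  F : Fm
  cs : List (List Nat)
  gd : List (List Nat)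
  gi : List Nat
  gn : Nat
  r : Nat
  cy : List Nat
  tg : List Nat
  zs : Bool
  gl : List Nat

namespace Rp

variable (R : Rp)

def cr (s : Nat) : List Nat := sel (ltN s 4) (gt R.cs [] s) []

/-- one step of the program -/
def stA (st : List (List Rw)) (h : Nat) (ts : List Nat) : List Rw :=
  R.F.mk' fun u => fo (fun t r => R.F.tmS (gt (gt st [] (tS t)) zr u) t r)
    (R.F.mr (R.cr (Nat.mod h 8)) (gt st [] (Nat.div (Nat.div h 8) 2)) u zr) ts

def stI (st : List (List Rw)) (l : List Nat) : List Rw :=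
  List.rec [] (fun h ts _ => R.stA st h ts) l

def run (pr : List Nat) : List (List Rw) → List (List Rw) :=
  List.rec (fun st => st) (fun a _ ih st => ih (R.stI st (un a) :: st)) pr

def stT (s : Nat) (A : List Rw) : List Rw :=
  R.F.mk' fun u => R.F.addT true 1 (sel (ltN s 2) 31 32) (sel (ltN s 2) 32 31) (gt A zr u)
    (R.F.mr (R.cr s) A u zr)

def wd (w : List Nat) : List Rw := List.rec R.F.idM (fun s _ ih => R.stT s ih) w

def okW (w : List Nat) : Bool :=
  List.rec true (fun s l ih => Bool.rec false (okM (R.wd (s :: l))) ih) w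

def eqM (A B : List Rw) : Bool :=
  allN (fun u => isZ (R.F.nrm (R.F.addT true 1 32 32 (gt B zr u)
    (R.F.addT false 1 32 32 (gt A zr u) zr)))) R.F.d

def quad (s : Nat) : Bool :=
  zM (R.stA [R.stA [R.F.idM] s []] s [sel (ltN s 2) 14369 14432])

def cRel : Bool :=
  an (allN R.quad 4) (an (R.eqM (R.wd [0, 1, 0]) (R.wd [1, 0, 1]))
    (an (R.eqM (R.wd [1, 2, 1, 2]) (R.wd [2, 1, 2, 1])) (an (R.eqM (R.wd [2, 3, 2]) (R.wd [3, 2, 3]))
      (an (R.eqM (R.wd [0, 2]) (R.wd [2, 0])) (an (R.eqM (R.wd [0, 3]) (R.wd [3, 0]))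
        (R.eqM (R.wd [1, 3]) (R.wd [3, 1])))))))

def gE (u v : Nat) : List Nat :=
  un (sel (Nat.ble u v) (gt (gt R.gd [] v) 0 u) (gt (gt R.gd [] u) 0 v))

def gm : List Rw := R.F.mk' fun u => flN (fun v a => fl (R.F.litS v) (R.gE u v) a) R.F.d zr

def ctg (s : Nat) : List Rw :=
  R.F.mk' fun u => foN (fun v a => fo (fun t r => sel (Nat.beq (tS t) u)
    (R.F.tmS (gt R.gm zr v) t r) r) a (un (gt (R.cr s) 0 v))) zr R.F.d

def opn (r : Rw) : Nat := Nat.sub (Nat.add R.F.off r.p) r.m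

def opk (r : Rw) : Bool :=
  an (Nat.ble (Nat.add r.w 1025) 1048576) (an (Nat.ble r.m (Nat.add R.F.off r.p))
    (Nat.beq (Nat.land (R.opn r) R.F.al) (R.opn r)))

def ent (A : List Rw) (u k : Nat) : Nat :=
  Nat.mod (Nat.shiftRight (R.opn (gt A zr u)) (Nat.mul R.F.e2 k)) (Nat.pow 2 R.F.e2)

def opM (A : List Rw) : Bool := allN (fun u => R.opk (gt A zr u)) R.F.d

def symM (A : List Rw) : Bool :=
  an (R.opM A) (allN (fun u => allN (fun v => Nat.beq (R.ent A u v) (R.ent A v u)) u) R.F.d)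

def cInv : Bool := an (okM R.gm) (allN (fun s => R.symM (R.ctg s)) 4)

/-- the trace of `A` is the sum of the terms of `l` -/
def trc (A : List Rw) (l : List Nat) : Bool :=
  an (R.opM A) (an (ltN 0 R.F.d) (isZ (R.F.nrm (fl (R.F.litN 0) l
    ⟨Nat.shiftLeft (sumN (fun k => R.ent A k k) R.F.d) R.F.sU,
      Nat.shiftLeft (Nat.mul R.F.d R.F.off1) R.F.sU, Nat.mul R.F.d 1024⟩))))

def cTr (ws : List (List Nat)) (ct : List Nat) : Bool :=
  allN (fun m => an (R.okW (gt ws [] m)) (R.trc (R.wd (gt ws [] m)) (un (gt ct 0 m)))) 25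

def dbl (w : List Nat) : List Nat := List.append w (List.reverse w)

def cGl (gw : List (List Nat)) : Bool :=
  allN (fun m => orr (Nat.beq (gt R.gl 0 m) 0) (an (R.okW (dbl (gt gw [] m)))
    (R.trc (R.wd (dbl (gt gw [] m))) (un (gt R.gl 0 m))))) 16

/-- the word `w` acts by a signed monomial -/
def cZ (w : List Nat) (i j : Nat) : Bool :=
  an (R.okW w) (allN (fun u => isZ (R.F.nrm (R.F.addL (nt R.zs) 1 i j u
    (R.F.addT false 1 32 32 (gt (R.wd w) zr u) zr)))) R.F.d)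

def cst (s y u : Nat) : Int :=
  fo (fun t a => sel (Nat.beq (tS t) u) (Int.add (zC t) a) a) 0 (un (gt (R.cr s) 0 y))

def cy1 (y s u : Nat) : Bool :=
  an (ltN u y) (an (nt (eqZ (R.cst s y u) 0))
    (an (allL (fun t => imp (Nat.beq (tS t) u) (tZ t)) (un (gt (R.cr s) 0 y)))
      (allN (fun z => imp (ltN y z)
        (allL (fun t => nt (Nat.beq (tS t) u)) (un (gt (R.cr s) 0 z)))) R.F.d)))

def cCy : Bool :=
  allN (fun y => orr (ltN y R.r) (R.cy1 y (Nat.mod (gt R.cy 0 y) 8) (Nat.div (gt R.cy 0 y) 8))) R.F.d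

def g1 (u v : Nat) : Int :=
  fo (fun t a => Int.add (sel (tZ t) (zC t) (Int.add (zC t) (zC t))) a) 0 (R.gE u v)

def gI (v w : Nat) : Int := Int.subNatNat (gt (un (gt R.gi 0 v)) 0 w) 2147483648

def cNd : Bool :=
  an (ltN 0 R.gn) (allN (fun u => allN (fun w => eqZ
    (foN (fun v a => Int.add (Int.mul (R.g1 u v) (R.gI v w)) a) 0 R.F.d)
    (sel (Nat.beq u w) (Int.ofNat R.gn) 0)) R.F.d) R.F.d)

/-- the node of `t` is a multiple of the matrix with row `l` of the form in row `k` -/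
def tg1 (st : List (List Rw)) (k l t : Nat) : Bool :=
  an (ltN 0 (tC t)) (allN (fun u => isZ (R.F.nrm
    (R.F.addT (nt (tG t)) (tC t) 32 32 (sel (Nat.beq u k) (gt R.gm zr l) zr)
      (R.F.addT false 1 32 32 (gt (gt st [] (tS t)) zr u) zr)))) R.F.d)

def tgt (k l : Nat) : Nat := gt R.tg 0 (Nat.add (Nat.mul k R.r) l)

end Rp

def okS (st : List (List Rw)) : Bool :=
  List.rec true (fun A _ ih => Bool.rec false (okM A) ih) st

def rp0 : Rp := ⟨⟨0, 0, 0⟩, [], [], [], 0, 0, [], [], false, []⟩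

/-- the data of a chamber -/
structure Ch where
  rs : List Rp
  pr : List Nat
  pos : List Nat
  gw : List (List Nat)

namespace Ch

variable (C : Ch)

def R (j : Nat) : Rp := gt C.rs rp0 j

def ps (j : Nat) : Nat := gt C.pos 0 j

def cP1 (j : Nat) (st : List (List Rw)) : Bool :=
  an (okS st) (an (okM (C.R j).gm) (an
    (allN (fun k => allN (fun l => (C.R j).tg1 st k l ((C.R j).tgt k l)) (C.R j).r) (C.R j).r)
    (allN (fun i => imp (ltN (C.ps i) (C.ps j)) (allN (fun k => allN (fun l =>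
      zM (gt st [] (tS ((C.R i).tgt k l)))) (C.R i).r) (C.R i).r)) 25)))

def cP (j : Nat) : Bool := C.cP1 j ((C.R j).run C.pr [(C.R j).F.idM])

end Ch

/-- the value of a linear form on the exponent of a term -/
def dt (r : Int × Int) (t : Nat) : Int := Int.add (Int.mul r.1 (zI t)) (Int.mul r.2 (zJ t))

def mxL (r : Int × Int) (l : List Nat) : Int := fo (fun t a => mxZ (dt r t) a) (-100000) l

def ldL (r r' : Int × Int) (l : List Nat) : Int :=
  fo (fun t a => sel (an (eqZ (dt r t) (mxL r l)) (eqZ (dt r' t) (mxL r' l))) (Int.add (zC t) a) a) 0 l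

def mxP (r : Int × Int) (p : List Nat) : Int := fo (fun n a => Int.add (mxL r (un n)) a) 0 p

def ldP (r r' : Int × Int) (p : List Nat) : Int := fo (fun n a => Int.mul (ldL r r' (un n)) a) 1 p

def sv (l : List Nat) : Int := fo (fun t a => Int.add (zC t) a) 0 l

/-- packed polynomials with radii `x`, `y` and bound `w` -/
structure Vl where
  p : Nat
  m : Nat
  x : Nat
  y : Nat
  w : Nat

def mxN (a b : Nat) : Nat := sel (Nat.ble a b) b a

def rI (l : List Nat) : Nat := fo (fun t a => mxN (Nat.add (Nat.sub (tI t) 32) (Nat.sub 32 (tI t))) a) 0 l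

def rJ (l : List Nat) : Nat := fo (fun t a => mxN (Nat.add (Nat.sub (tJ t) 32) (Nat.sub 32 (tJ t))) a) 0 l

def l1 (l : List Nat) : Nat := fo (fun t a => Nat.add (tC t) a) 0 l

def lv (g : Bool) (x y : Nat) (l : List Nat) : Nat :=
  fo (fun t a => sel (sel g (tG t) (nt (tG t))) (Nat.add (Nat.shiftLeft (tC t) (Nat.mul 64
    (Nat.add (Nat.sub (Nat.add (tI t) x) 32) (Nat.mul 128 (Nat.sub (Nat.add (tJ t) y) 32))))) a) a) 0 l

def vn (p m x y w : Nat) : Vl := ⟨Nat.sub p m, Nat.sub m p, x, y, w⟩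

def mul2 (V : Vl) (p m x y w : Nat) : Vl :=
  vn (Nat.add (Nat.mul V.p p) (Nat.mul V.m m)) (Nat.add (Nat.mul V.p m) (Nat.mul V.m p))
    (Nat.add V.x x) (Nat.add V.y y) (Nat.mul V.w w)

def mulL (l : List Nat) (V : Vl) : Vl :=
  mul2 V (Nat.sub (lv false (rI l) (rJ l) l) (lv true (rI l) (rJ l) l))
    (Nat.sub (lv true (rI l) (rJ l) l) (lv false (rI l) (rJ l) l)) (rI l) (rJ l) (l1 l)

def pad (V : Vl) (x y : Nat) : Nat := Nat.mul 64 (Nat.add (Nat.sub x V.x) (Nat.mul 128 (Nat.sub y V.y)))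

def add2 (V V' : Vl) (x y : Nat) : Vl :=
  vn (Nat.add (Nat.shiftLeft V.p (pad V x y)) (Nat.shiftLeft V'.p (pad V' x y)))
    (Nat.add (Nat.shiftLeft V.m (pad V x y)) (Nat.shiftLeft V'.m (pad V' x y))) x y (Nat.add V.w V'.w)

def addV (V V' : Vl) : Vl := add2 V V' (mxN V.x V'.x) (mxN V.y V'.y)

def negV (V : Vl) : Vl := ⟨V.m, V.p, V.x, V.y, V.w⟩

def prV (p : List Nat) (V : Vl) : Vl := fo (fun n a => mulL (un n) a) V p

def one : Vl := ⟨1, 0, 0, 0, 1⟩

def nul : Vl := ⟨0, 0, 0, 0, 0⟩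

def zV (V : Vl) : Bool :=
  an (Nat.beq V.p V.m) (an (Nat.ble V.x 63) (ltN V.w 18446744073709551616))

/-- characters, Schur elements, their complements and a common multiple -/
structure Gl where
  ct : List (List Nat)
  cf : List (List Nat)
  ef : List (List Nat)
  dl : List Nat

namespace Gl

variable (G : Gl)

def CT (j m : Nat) : List Nat := un (gt (gt G.ct [] j) 0 m)

def c (j : Nat) : List Nat := gt G.cf [] j

def E (j : Nat) : Vl := prV (gt G.ef [] j) one

def D : Vl := prV G.dl one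

def cD (j : Nat) : Bool := zV (addV (prV (G.c j) (G.E j)) (negV G.D))

def cS (m : Nat) : Bool :=
  zV (foN (fun j a => addV (mulL (G.CT j m) (G.E j)) a) (sel (Nat.beq m 0) (negV G.D) nul) 25)

end Gl

/-- reduced words -/
def rdS (k : Nat) (v : List Int) : List Int :=
  tab (fun i => Int.sub (gt v 0 i) (Int.mul (gt v 0 k)
    (gt (gt [[2, -1, 0, 0], [-1, 2, -1, 0], [0, -2, 2, -1], [0, 0, -1, 2]] [] k) 0 i))) 4 0

def rdV (w : List Nat) : List Int := List.rec [1, 1, 1, 1] (fun k _ ih => rdS k ih) w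

def red (w : List Nat) : Bool :=
  List.rec true (fun k l ih => Bool.rec false (an (ltN k 4) (leZ 1 (gt (rdV l) 0 k))) ih) w

/-- the data of a region -/
structure Rg where
  r : Int × Int
  r' : Int × Int
  rk : List Nat
  par : List Nat

namespace Rg

variable (Z : Rg) (G : Gl) (C : Ch) (oa ob : Nat → Int) (bd : Nat → Nat → Bool)

def k (j : Nat) : Nat := gt Z.rk 0 j

def dl (r : Int × Int) (i j : Nat) : Int :=
  Int.add (Int.mul r.1 (Int.sub (oa i) (oa j))) (Int.mul r.2 (Int.sub (ob i) (ob j)))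

def tie (i j : Nat) : Bool := an (eqZ (dl oa ob Z.r i j) 0) (eqZ (dl oa ob Z.r' i j) 0)

def str (i j : Nat) : Bool :=
  an (nt (Z.tie oa ob i j)) (orr (an (leZ 0 (dl oa ob Z.r i j)) (leZ 0 (dl oa ob Z.r' i j)))
    (an (leZ (dl oa ob Z.r i j) 0) (leZ (dl oa ob Z.r' i j) 0)))

def ld (j : Nat) : Int := ldP Z.r Z.r' (G.c j)

def sing (i : Nat) : Bool :=
  an (orr (eqZ (Z.ld G i) 1) (eqZ (Z.ld G i) (-1)))
    (allN (fun j => orr (Nat.beq i j) (nt (Nat.beq (Z.k i) (Z.k j)))) 25)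

def dg1 (r : Int × Int) (M : Int) (t : Nat) : Bool :=
  an (leZ (Int.mul 2 (dt r t)) M) (leZ (Int.mul (-2) (dt r t)) M)

def cDg (j : Nat) : Bool :=
  an (nt (eqZ (Z.ld G j) 0)) (allN (fun u => allN (fun v => imp (Nat.ble v u) (allL (fun t =>
    an (dg1 Z.r (mxP Z.r (G.c j)) t) (dg1 Z.r' (mxP Z.r' (G.c j)) t)) ((C.R j).gE u v)))
      (C.R j).F.d) (C.R j).F.d)

def hit (j m : Nat) : Bool :=
  an (nt (eqZ (ldL Z.r Z.r' (un (gt (C.R j).gl 0 m))) 0))
    (an (eqZ (mxL Z.r (un (gt (C.R j).gl 0 m))) (mxP Z.r (G.c j)))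
      (eqZ (mxL Z.r' (un (gt (C.R j).gl 0 m))) (mxP Z.r' (G.c j))))

def pa (i : Nat) : Nat := Nat.div (gt Z.par 0 i) 16

def pw (i : Nat) : Nat := Nat.mod (gt Z.par 0 i) 16

def dp (i : Nat) : Nat := Nat.div (Z.pa i) 32

def pr (i : Nat) : Nat := Nat.mod (Z.pa i) 32

def cGl (i : Nat) : Bool :=
  sel (Nat.beq (Z.dp i) 0)
    (allN (fun j => imp (an (Nat.beq (Z.dp j) 0) (Nat.beq (Z.k i) (Z.k j))) (Nat.beq i j)) 25)
    (an (ltN (Z.pr i) 25) (an (ltN (Z.dp (Z.pr i)) (Z.dp i)) (an (Nat.beq (Z.k (Z.pr i)) (Z.k i))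
      (an (Z.hit G C i (Z.pw i)) (Z.hit G C (Z.pr i) (Z.pw i))))))

def cPr (i j : Nat) : Bool :=
  an (imp (ltN (Z.k i) (Z.k j)) (ltN (C.ps i) (C.ps j)))
    (an (orr (Nat.beq i j) (nt (Nat.beq (C.ps i) (C.ps j))))
      (sel (Nat.beq (Z.k i) (Z.k j)) (an (Z.tie oa ob i j) (nt (orr (bd i j) (bd j i))))
        (an (orr (orr (bd i j) (bd j i)) (Z.str oa ob i j))
          (orr (orr (Z.sing G i) (Z.sing G j)) (Z.str oa ob i j)))))

def cR : Bool :=
  allN (fun i => an (Z.cDg G C i) (an (Z.cGl G C i) (allN (Z.cPr G C oa ob bd i) 25))) 25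

end Rg

end

end Pool.Agent.P.MP_1a0ecf_al.K4
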