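import Pool.Agent.P.MP_1a0ecf_al.K4.DG
import Pool.Agent.P.MP_1a0ecf_al.K4.DB

/-! Type F4, Kazhdan-Lusztig side: running the checker. -/

namespace Pool.Agent.P.MP_1a0ecf_al.K4

set_option maxRecDepth 100000

theorem cB1_15 : chB.c1 15 = true := by decide +kernel

theorem cB1_16 : chB.c1 16 = true := by decide +kernel

theorem cB1_17 : chB.c1 17 = true := by decide +kernel

theorem cB1_18 : chB.c1 18 = true := by decide +kernel

theorem cB1_19 : chB.c1 19 = true := by decide +kernel

end Pool.Agent.P.MP_1a0ecf_al.K4
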