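import Pool.Agent.P.MP_1a0ecf_al.K4.DG
import Pool.Agent.P.MP_1a0ecf_al.K4.DB

/-! Type F4, Kazhdan-Lusztig side: running the checker. -/

namespace Pool.Agent.P.MP_1a0ecf_al.K4

set_option maxRecDepth 100000

theorem cB2_0 : chB.c2 0 = true := by decide +kernel

theorem cB2_1 : chB.c2 1 = true := by decide +kernel

theorem cB2_2 : chB.c2 2 = true := by decide +kernel

theorem cB2_3 : chB.c2 3 = true := by decide +kernel

theorem cB2_4 : chB.c2 4 = true := by decide +kernel

theorem cB2_5 : chB.c2 5 = true := by decide +kernel

theorem cB2_6 : chB.c2 6 = true := by decide +kernel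

theorem cB2_7 : chB.c2 7 = true := by decide +kernel

theorem cB2_8 : chB.c2 8 = true := by decide +kernel

theorem cB2_9 : chB.c2 9 = true := by decide +kernel

theorem cB2_10 : chB.c2 10 = true := by decide +kernel

theorem cB2_11 : chB.c2 11 = true := by decide +kernel

theorem cB2_12 : chB.c2 12 = true := by decide +kernel

theorem cB2_13 : chB.c2 13 = true := by decide +kernel

theorem cB2_14 : chB.c2 14 = true := by decide +kernel

theorem cB2_15 : chB.c2 15 = true := by decide +kernel

theorem cB2_16 : chB.c2 16 = true := by decide +kernel

theorem cB2_17 : chB.c2 17 = true := by decide +kernel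

theorem cB2_18 : chB.c2 18 = true := by decide +kernel

theorem cB2_19 : chB.c2 19 = true := by decide +kernel

theorem cB2_20 : chB.c2 20 = true := by decide +kernel

theorem cB2_21 : chB.c2 21 = true := by decide +kernel

theorem cB2_22 : chB.c2 22 = true := by decide +kernel

theorem cB2_23 : chB.c2 23 = true := by decide +kernel

theorem cB2_24 : chB.c2 24 = true := by decide +kernel

theorem cBw : allL red chB.gw = true := by decide +kernel

end Pool.Agent.P.MP_1a0ecf_al.K4
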