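import Pool.Agent.P.MP_1a0ecf_al.K4.DG
import Pool.Agent.P.MP_1a0ecf_al.K4.DC

/-! Type F4, Kazhdan-Lusztig side: running the checker. -/

namespace Pool.Agent.P.MP_1a0ecf_al.K4

set_option maxRecDepth 100000

theorem cC1_0 : chC.c1 0 = true := by decide +kernel

theorem cC1_1 : chC.c1 1 = true := by decide +kernel

theorem cC1_2 : chC.c1 2 = true := by decide +kernel

theorem cC1_3 : chC.c1 3 = true := by decide +kernel

theorem cC1_4 : chC.c1 4 = true := by decide +kernel

theorem cC1_5 : chC.c1 5 = true := by decide +kernel

theorem cC1_6 : chC.c1 6 = true := by decide +kernel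

theorem cC1_7 : chC.c1 7 = true := by decide +kernel

theorem cC1_8 : chC.c1 8 = true := by decide +kernel

theorem cC1_9 : chC.c1 9 = true := by decide +kernel

theorem cC1_10 : chC.c1 10 = true := by decide +kernel

theorem cC1_11 : chC.c1 11 = true := by decide +kernel

theorem cC1_12 : chC.c1 12 = true := by decide +kernel

theorem cC1_13 : chC.c1 13 = true := by decide +kernel

theorem cC1_14 : chC.c1 14 = true := by decide +kernel

end Pool.Agent.P.MP_1a0ecf_al.K4
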