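import Pool.Agent.P.MP_1a0ecf_al.K4.DG
import Pool.Agent.P.MP_1a0ecf_al.K4.DC

/-! Type F4, Kazhdan-Lusztig side: running the checker. -/

namespace Pool.Agent.P.MP_1a0ecf_al.K4

set_option maxRecDepth 100000

theorem cC2_0 : chC.c2 0 = true := by decide +kernel

theorem cC2_1 : chC.c2 1 = true := by decide +kernel

theorem cC2_2 : chC.c2 2 = true := by decide +kernel

theorem cC2_3 : chC.c2 3 = true := by decide +kernel

theorem cC2_4 : chC.c2 4 = true := by decide +kernel

theorem cC2_5 : chC.c2 5 = true := by decide +kernel

theorem cC2_6 : chC.c2 6 = true := by decide +kernel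

theorem cC2_7 : chC.c2 7 = true := by decide +kernel

theorem cC2_8 : chC.c2 8 = true := by decide +kernel

theorem cC2_9 : chC.c2 9 = true := by decide +kernel

theorem cC2_10 : chC.c2 10 = true := by decide +kernel

theorem cC2_11 : chC.c2 11 = true := by decide +kernel

theorem cC2_12 : chC.c2 12 = true := by decide +kernel

theorem cC2_13 : chC.c2 13 = true := by decide +kernel

theorem cC2_14 : chC.c2 14 = true := by decide +kernel

theorem cC2_15 : chC.c2 15 = true := by decide +kernel

theorem cC2_16 : chC.c2 16 = true := by decide +kernel

theorem cC2_17 : chC.c2 17 = true := by decide +kernel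

theorem cC2_18 : chC.c2 18 = true := by decide +kernel

theorem cC2_19 : chC.c2 19 = true := by decide +kernel

theorem cC2_20 : chC.c2 20 = true := by decide +kernel

theorem cC2_21 : chC.c2 21 = true := by decide +kernel

theorem cC2_22 : chC.c2 22 = true := by decide +kernel

theorem cC2_23 : chC.c2 23 = true := by decide +kernel

theorem cC2_24 : chC.c2 24 = true := by decide +kernel

theorem cCw : allL red chC.gw = true := by decide +kernel

end Pool.Agent.P.MP_1a0ecf_al.K4
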