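import Pool.Agent.P.MP_1a0ecf_al.K4.S0
import Pool.Agent.P.MP_1a0ecf_al.K4.RA1
import Pool.Agent.P.MP_1a0ecf_al.K4.RA2
import Pool.Agent.P.MP_1a0ecf_al.K4.RA3
import Pool.Agent.P.MP_1a0ecf_al.K4.RA4
import Pool.Agent.P.MP_1a0ecf_al.K4.RA5
import Pool.Agent.P.MP_1a0ecf_al.K4.RB1
import Pool.Agent.P.MP_1a0ecf_al.K4.RB2
import Pool.Agent.P.MP_1a0ecf_al.K4.RB3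
import Pool.Agent.P.MP_1a0ecf_al.K4.RB4
import Pool.Agent.P.MP_1a0ecf_al.K4.RB5
import Pool.Agent.P.MP_1a0ecf_al.K4.RC1
import Pool.Agent.P.MP_1a0ecf_al.K4.RC2
import Pool.Agent.P.MP_1a0ecf_al.K4.RC3
import Pool.Agent.P.MP_1a0ecf_al.K4.RC4
import Pool.Agent.P.MP_1a0ecf_al.K4.RC5

/-! Type F4, Kazhdan-Lusztig side: the results of the checker. -/

namespace Pool.Agent.P.MP_1a0ecf_al.K4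

theorem chA_c : ∀ j < 25, chA.c1 j = true ∧ chA.c2 j = true := by
  intro j hj
  interval_cases j
  exacts [⟨cA1_0, cA2_0⟩, ⟨cA1_1, cA2_1⟩, ⟨cA1_2, cA2_2⟩, ⟨cA1_3, cA2_3⟩, ⟨cA1_4, cA2_4⟩,
    ⟨cA1_5, cA2_5⟩, ⟨cA1_6, cA2_6⟩, ⟨cA1_7, cA2_7⟩, ⟨cA1_8, cA2_8⟩, ⟨cA1_9, cA2_9⟩,
    ⟨cA1_10, cA2_10⟩, ⟨cA1_11, cA2_11⟩, ⟨cA1_12, cA2_12⟩, ⟨cA1_13, cA2_13⟩, ⟨cA1_14, cA2_14⟩,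
    ⟨cA1_15, cA2_15⟩, ⟨cA1_16, cA2_16⟩, ⟨cA1_17, cA2_17⟩, ⟨cA1_18, cA2_18⟩, ⟨cA1_19, cA2_19⟩,
    ⟨cA1_20, cA2_20⟩, ⟨cA1_21, cA2_21⟩, ⟨cA1_22, cA2_22⟩, ⟨cA1_23, cA2_23⟩, ⟨cA1_24, cA2_24⟩]

theorem chA_w (m : ℕ) : red (gt chA.gw [] m) = true :=
  gt_all (p := fun w => red w = true) ((allL_eq red chA.gw).1 cAw) rfl m

theorem chB_c : ∀ j < 25, chB.c1 j = true ∧ chB.c2 j = true := by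
  intro j hj
  interval_cases j
  exacts [⟨cB1_0, cB2_0⟩, ⟨cB1_1, cB2_1⟩, ⟨cB1_2, cB2_2⟩, ⟨cB1_3, cB2_3⟩, ⟨cB1_4, cB2_4⟩,
    ⟨cB1_5, cB2_5⟩, ⟨cB1_6, cB2_6⟩, ⟨cB1_7, cB2_7⟩, ⟨cB1_8, cB2_8⟩, ⟨cB1_9, cB2_9⟩,
    ⟨cB1_10, cB2_10⟩, ⟨cB1_11, cB2_11⟩, ⟨cB1_12, cB2_12⟩, ⟨cB1_13, cB2_13⟩, ⟨cB1_14, cB2_14⟩,
    ⟨cB1_15, cB2_15⟩, ⟨cB1_16, cB2_16⟩, ⟨cB1_17, cB2_17⟩, ⟨cB1_18, cB2_18⟩, ⟨cB1_19, cB2_19⟩,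
    ⟨cB1_20, cB2_20⟩, ⟨cB1_21, cB2_21⟩, ⟨cB1_22, cB2_22⟩, ⟨cB1_23, cB2_23⟩, ⟨cB1_24, cB2_24⟩]

theorem chB_w (m : ℕ) : red (gt chB.gw [] m) = true :=
  gt_all (p := fun w => red w = true) ((allL_eq red chB.gw).1 cBw) rfl m

theorem chC_c : ∀ j < 25, chC.c1 j = true ∧ chC.c2 j = true := by
  intro j hj
  interval_cases j
  exacts [⟨cC1_0, cC2_0⟩, ⟨cC1_1, cC2_1⟩, ⟨cC1_2, cC2_2⟩, ⟨cC1_3, cC2_3⟩, ⟨cC1_4, cC2_4⟩,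
    ⟨cC1_5, cC2_5⟩, ⟨cC1_6, cC2_6⟩, ⟨cC1_7, cC2_7⟩, ⟨cC1_8, cC2_8⟩, ⟨cC1_9, cC2_9⟩,
    ⟨cC1_10, cC2_10⟩, ⟨cC1_11, cC2_11⟩, ⟨cC1_12, cC2_12⟩, ⟨cC1_13, cC2_13⟩, ⟨cC1_14, cC2_14⟩,
    ⟨cC1_15, cC2_15⟩, ⟨cC1_16, cC2_16⟩, ⟨cC1_17, cC2_17⟩, ⟨cC1_18, cC2_18⟩, ⟨cC1_19, cC2_19⟩,
    ⟨cC1_20, cC2_20⟩, ⟨cC1_21, cC2_21⟩, ⟨cC1_22, cC2_22⟩, ⟨cC1_23, cC2_23⟩, ⟨cC1_24, cC2_24⟩]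

theorem chC_w (m : ℕ) : red (gt chC.gw [] m) = true :=
  gt_all (p := fun w => red w = true) ((allL_eq red chC.gw).1 cCw) rfl m

end Pool.Agent.P.MP_1a0ecf_al.K4
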