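import Pool.Agent.P.MP_1a0ecf_al.K4.DG
import Pool.Agent.P.MP_1a0ecf_al.Q0
import Pool.Agent.P.MP_1a0ecf_al.F.L1

/-! Type F4, Kazhdan-Lusztig side: the meaning of the data of the checker. -/

namespace Pool.Agent.P.MP_1a0ecf_al.K4

open Finset

noncomputable section

section Basic

variable {α β : Type}

theorem sel_eq (b : Bool) (x y : α) : sel b x y = if b = true then x else y := by
  cases b <;> rfl

@[simp] theorem gt_nil (z : α) (n : ℕ) : gt [] z n = z := rfl

@[simp] theorem gt_zero (a : α) (l : List α) (z : α) : gt (a :: l) z 0 = a := rfl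

@[simp] theorem gt_succ (a : α) (l : List α) (z : α) (n : ℕ) : gt (a :: l) z (n + 1) = gt l z n :=
  rfl

theorem gt_eq (l : List α) (z : α) (n : ℕ) : gt l z n = l.getD n z := by
  induction l generalizing n with
  | nil => rfl
  | cons a l ih => cases n with
    | zero => rfl
    | succ n => exact ih n

theorem gt_map (f : α → β) (l : List α) (z : α) (n : ℕ) : gt (l.map f) (f z) n = f (gt l z n) := by
  induction l generalizing n with
  | nil => rfl
  | cons a l ih => cases n with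
    | zero => rfl
    | succ n => exact ih n

theorem gt_all {p : α → Prop} {l : List α} {z : α} (h : ∀ a ∈ l, p a) (hz : p z) (n : ℕ) :
    p (gt l z n) := by
  induction l generalizing n with
  | nil => exact hz
  | cons a l ih => cases n with
    | zero => exact h a List.mem_cons_self
    | succ n => exact ih (fun b hb => h b (List.mem_cons_of_mem _ hb)) n

theorem gt_tab (f : ℕ → α) (z : α) (n k u : ℕ) :
    gt (tab f n k) z u = if u < n then f (k + u) else z := by
  induction n generalizing k u with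
  | zero => rfl
  | succ n ih => cases u with
    | zero => simp only [Nat.zero_lt_succ, if_true]; rfl
    | succ u =>
      have := ih (k + 1) u
      rw [show k + 1 + u = k + (u + 1) by omega] at this
      simp only [Nat.add_lt_add_iff_right]
      exact this

@[simp] theorem fo_nil (f : α → β → β) (z : β) : fo f z [] = z := rfl

@[simp] theorem fo_cons (f : α → β → β) (z : β) (a : α) (l : List α) :
    fo f z (a :: l) = f a (fo f z l) := rfl

@[simp] theorem foN_zero (f : ℕ → β → β) (z : β) : foN f z 0 = z := rfl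

@[simp] theorem foN_succ (f : ℕ → β → β) (z : β) (n : ℕ) : foN f z (n + 1) = f n (foN f z n) := rfl

@[simp] theorem allL_eq (f : α → Bool) (l : List α) : allL f l = true ↔ ∀ a ∈ l, f a = true := by
  induction l with
  | nil => simp [allL]
  | cons a l ih =>
    have e : allL f (a :: l) = an (f a) (allL f l) := rfl
    rw [e, an_eq, ih, List.forall_mem_cons]

theorem frw_eq (x : Rw) (k : Rw → β) : frw x k = k x := by
  simp only [frw, sel_eq, ite_self]

@[simp] theorem fl_nil (f : α → Rw → Rw) (a : Rw) : fl f [] a = a := rfl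

@[simp] theorem fl_cons (f : α → Rw → Rw) (t : α) (l : List α) (a : Rw) :
    fl f (t :: l) a = fl f l (f t a) := frw_eq _ _

@[simp] theorem flN_zero (f : ℕ → Rw → Rw) (a : Rw) : flN f 0 a = a := rfl

@[simp] theorem flN_succ (f : ℕ → Rw → Rw) (n : ℕ) (a : Rw) :
    flN f (n + 1) a = flN f n (f n a) := frw_eq _ _

@[simp] theorem un_zero : un 0 = [] := by decide +kernel

@[simp] theorem eqZ_eq (a b : ℤ) : eqZ a b = true ↔ a = b := by simp [eqZ]

@[simp] theorem leZ_eq (a b : ℤ) : leZ a b = true ↔ a ≤ b := by simp [leZ]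

theorem mxZ_eq (a b : ℤ) : mxZ a b = max a b := by
  simp only [mxZ, sel_eq, leZ_eq, max_def]

theorem mxN_eq (a b : ℕ) : mxN a b = max a b := by
  simp only [mxN, sel_eq, Nat.ble_eq, max_def]

end Basic

/-- Laurent polynomials in two variables -/
abbrev PP : Type := F.ZG (ℤ × ℤ)

/-- the monomial `c x ^ i y ^ j` -/
def mo (i j c : ℤ) : PP := AddMonoidAlgebra.single (i, j) c

/-- signed coefficients -/
def sg (g : Bool) (c : ℕ) : ℤ := if g = true then -c else c

/-- the value of a term -/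
def tv (t : ℕ) : PP := mo (zI t) (zJ t) (zC t)

/-- the value of a symmetric term -/
def ts (t : ℕ) : PP := if tZ t = true then tv t else tv t + mo (-zI t) (-zJ t) (zC t)

def pv (l : List ℕ) : PP := (l.map tv).sum

def pz (l : List ℕ) : PP := (l.map ts).sum

/-- products of packed polynomials -/
def pp (p : List ℕ) : PP := (p.map fun n => pv (un n)).prod

/-- the parameter of a generator and its inverse -/
def vp (s : ℕ) : PP := if s < 2 then mo 1 0 1 else mo 0 1 1

def vi (s : ℕ) : PP := if s < 2 then mo (-1) 0 1 else mo 0 (-1) 1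

/-- evaluation at `x = 2 ^ b`, `y = 2 ^ (b * D)` -/
def ev (b D : ℕ) : PP →+* ℚ :=
  (AddMonoidAlgebra.lift ℤ ℚ (ℤ × ℤ)
    { toFun := fun e => (2 : ℚ) ^ ((b : ℤ) * (e.toAdd.1 + D * e.toAdd.2))
      map_one' := by simp
      map_mul' := fun x y => by
        rw [← zpow_add₀ two_ne_zero, toAdd_mul, Prod.fst_add, Prod.snd_add]
        congr 1
        ring }).toRingHom

/-- exponents in a box, bounded coefficients -/
def Bd (p : PP) (x y w : ℕ) : Prop :=
  ∀ e : ℤ × ℤ, |p.coeff e| ≤ w ∧ (p.coeff e ≠ 0 → |e.1| ≤ x ∧ |e.2| ≤ y)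

theorem zI_eq (t : ℕ) : zI t = (tI t : ℤ) - 32 := Int.subNatNat_eq_coe

theorem zJ_eq (t : ℕ) : zJ t = (tJ t : ℤ) - 32 := Int.subNatNat_eq_coe

theorem zC_eq (t : ℕ) : zC t = sg (tG t) (tC t) := by
  rw [zC, sel_eq, sg, Int.subNatNat_eq_coe]
  simp

theorem tZ_eq (t : ℕ) : tZ t = true ↔ tI t = 32 ∧ tJ t = 32 := by simp [tZ]

theorem sg_nt (g : Bool) (c : ℕ) : sg (nt g) c = -sg g c := by
  cases g <;> simp [sg, nt]

theorem mo_mul (i j c i' j' c' : ℤ) : mo i j c * mo i' j' c' = mo (i + i') (j + j') (c * c') :=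
  AddMonoidAlgebra.single_mul_single _ _ _ _

theorem mo_int (c : ℤ) : mo 0 0 c = c := by
  rw [mo, AddMonoidAlgebra.intCast_def, Int.cast_id]
  rfl

theorem mo_neg (i j c : ℤ) : mo i j (-c) = -mo i j c := AddMonoidAlgebra.single_neg _ _

theorem mo_zero (i j : ℤ) : mo i j 0 = 0 := AddMonoidAlgebra.single_zero _

theorem coeff_mo (i j c : ℤ) (e : ℤ × ℤ) : (mo i j c).coeff e = if (i, j) = e then c else 0 := by
  rw [mo, AddMonoidAlgebra.coeff_single, Finsupp.single_apply]

theorem ev_mo (b D : ℕ) (i j c : ℤ) : ev b D (mo i j c) = c * 2 ^ ((b : ℤ) * (i + D * j)) := by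
  simp [ev, mo]

theorem spc_mo (i j c : ℤ) : F.spc _ (mo i j c) = c := by simp [F.spc, mo]

theorem bar_mo (i j c : ℤ) : F.barG _ (mo i j c) = mo (-i) (-j) c := F.mapG_single _ _ _

theorem vp_vi (s : ℕ) : vp s * vi s = 1 := by
  unfold vp vi
  split_ifs <;> simp [mo_mul, mo_int]

theorem bar_ts (t : ℕ) : F.barG _ (ts t) = ts t := by
  unfold ts
  split_ifs with h
  · obtain ⟨h1, h2⟩ := (tZ_eq t).1 h
    simp [tv, bar_mo, zI_eq, zJ_eq, h1, h2]
  · simp [tv, bar_mo, add_comm]

theorem bar_pz (l : List ℕ) : F.barG _ (pz l) = pz l := by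
  simp only [pz, map_list_sum, List.map_map, Function.comp_def, bar_ts]

namespace Fm

variable (F : Fm)

abbrev Mx : Type := Matrix (Fin F.d) (Fin F.d) PP

/-- the evaluation used for rows -/
def ev0 : PP →+* ℚ := ev 20 (2 * F.x + 9)

/-- the value of a packed row -/
def enc (v : Fin F.d → PP) : ℚ := ∑ k, F.ev0 (v k) * 2 ^ (20 * F.x + F.e1 * F.y + F.e2 * k)

/-- normalised rows -/
def R0 (r : Rw) (v : Fin F.d → PP) : Prop :=
  r.w < 1048576 → (r.p : ℚ) - r.m = F.enc v ∧ ∀ k, Bd (v k) F.x F.y r.w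

/-- accumulators -/
def R4 (a : Rw) (v : Fin F.d → PP) : Prop :=
  a.w < 1048576 → (a.p : ℚ) - a.m = F.enc v * 2 ^ F.sU ∧ ∀ k, Bd (v k) (F.x + 4) (F.y + 4) a.w

/-- rows with natural index -/
def row (M : F.Mx) (n : ℕ) : Fin F.d → PP := if h : n < F.d then M ⟨n, h⟩ else 0

/-- the row with entry `p` in column `k` -/
def ek (k : ℕ) (p : PP) : Fin F.d → PP := fun j => if (j : ℕ) = k then p else 0

def RM (A : List Rw) (M : F.Mx) : Prop := ∀ n, F.R0 (gt A zr n) (F.row M n)

def RS (st : List (List Rw)) (vs : List F.Mx) : Prop := ∀ n, F.RM (gt st [] n) (gt vs 0 n)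

/-- sparse matrices -/
def spM (c : List ℕ) : F.Mx := fun u v => pz ((un (gt c 0 u)).filter fun t => tS t = v)

end Fm

section Prog

variable {A : Type} [Ring A] (φ : PP →+* A) (c : ℕ → A)

/-- one step of a program in a ring -/
def stV (st : List A) : List ℕ → A
  | [] => 0
  | h :: l => c (h % 8) * gt st 0 (h / 8 / 2) + (l.map fun t => φ (ts t) * gt st 0 (tS t)).sum

def runV : List ℕ → List A → List A
  | [], st => st
  | a :: pr, st => runV pr (stV φ c st (un a) :: st)

/-- the nodes of a program -/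
def nd (pr : List ℕ) (n : ℕ) : A := gt (runV φ c pr [1]) 0 n

end Prog

namespace Rp

variable (R : Rp)

/-- the matrices of the generators `C s`, `T s`, of words, and of the form -/
def cM (s : ℕ) : R.F.Mx := R.F.spM (R.cr s)

def tM (s : ℕ) : R.F.Mx := R.cM s - vi s • 1

def wM (w : List ℕ) : R.F.Mx := (w.map R.tM).prod

def gM : R.F.Mx := fun u v => pz (R.gE u v)

def nM (pr : List ℕ) (n : ℕ) : R.F.Mx := nd (algebraMap PP R.F.Mx) R.cM pr n

/-- the facts about one representation -/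
structure Ok : Prop where
  pos : 0 < R.F.d
  quad : ∀ s < 4, R.cM s * R.cM s = (vp s + vi s) • R.cM s
  b01 : R.wM [0, 1, 0] = R.wM [1, 0, 1]
  b12 : R.wM [1, 2, 1, 2] = R.wM [2, 1, 2, 1]
  b23 : R.wM [2, 3, 2] = R.wM [3, 2, 3]
  b02 : R.wM [0, 2] = R.wM [2, 0]
  b03 : R.wM [0, 3] = R.wM [3, 0]
  b13 : R.wM [1, 3] = R.wM [3, 1]
  inv : ∀ s < 4, (R.cM s).transpose * R.gM = R.gM * R.cM s
  cyc : ∀ y : Fin R.F.d, (y : ℕ) < R.r ∨ ∃ (s : ℕ) (u : Fin R.F.d) (n : ℤ), u < y ∧ n ≠ 0 ∧
    R.cM s y u = n ∧ ∀ z, y < z → R.cM s z u = 0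
  nd : (R.gM.map (F.spc _)).det ≠ 0

end Rp

namespace Ch

variable (C : Ch)

/-- the facts about the representation with index `j` -/
structure Ok (j : ℕ) : Prop extends (C.R j).Ok where
  top : ∀ k l : Fin (C.R j).F.d, (k : ℕ) < (C.R j).r → (l : ℕ) < (C.R j).r →
    zC ((C.R j).tgt k l) ≠ 0 ∧ (C.R j).nM C.pr (tS ((C.R j).tgt k l)) =
      (zC ((C.R j).tgt k l) : PP) • (Matrix.single k l 1 * (C.R j).gM)
  low : ∀ i < 25, C.ps i < C.ps j → ∀ k < (C.R i).r, ∀ l < (C.R i).r,
    (C.R j).nM C.pr (tS ((C.R i).tgt k l)) = 0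
  tr : ∀ m < 25, ((C.R j).wM (gt wds [] m)).trace = pv (glb.CT j m)
  cen : ∃ e : ℤ, (e = 1 ∨ e = -1) ∧ (C.R j).wM (gt wds [] 24) = mo (oa j) (ob j) e • 1
  gl : ∀ m < 16, gt (C.R j).gl 0 m ≠ 0 →
    ((C.R j).wM (gt C.gw [] m ++ (gt C.gw [] m).reverse)).trace = pv (un (gt (C.R j).gl 0 m))

end Ch

/-- the meaning of a packed polynomial -/
def Vl.Is (V : Vl) (q : PP) : Prop :=
  (V.p : ℚ) - V.m = ev 64 128 q * 2 ^ (64 * (V.x + 128 * V.y)) ∧ Bd q V.x V.y V.w

end

end Pool.Agent.P.MP_1a0ecf_al.K4
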