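import Pool.Agent.P.MP_1a0ecf_al.K4.S0

/-! Package S1: digits and packed rows. -/

namespace Pool.Agent.P.MP_1a0ecf_al.K4

open Finset

noncomputable section

/-- Induction on `N`, splitting off the top digit. -/
theorem dig_uniq (B : ℤ) (c : ℕ → ℤ) (N : ℕ) (h : ∀ i < N, |c i| < B) :
    |∑ i ∈ range N, c i * B ^ i| < B ^ N ∧
      (∑ i ∈ range N, c i * B ^ i = 0 → ∀ i < N, c i = 0) := by
  induction N with
  | zero => simp
  | succ N ih =>
    obtain ⟨h1, h2⟩ := ih fun i hi => h i (by omega)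
    have h3 := h N (by omega)
    have h4 : 0 < B ^ N := (abs_nonneg _).trans_lt h1
    have h5 : |c N * B ^ N| = |c N| * B ^ N := by rw [abs_mul, abs_of_pos h4]
    rw [sum_range_succ]
    constructor
    · have h6 := abs_add_le (∑ i ∈ range N, c i * B ^ i) (c N * B ^ N)
      have h7 : |c N| * B ^ N ≤ (B - 1) * B ^ N := by gcongr; omega
      rw [pow_succ]
      linarith
    · intro h0
      have h6 : c N * B ^ N = -∑ i ∈ range N, c i * B ^ i := by linarith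
      have h7 : |c N| * B ^ N < 1 * B ^ N := by rw [← h5, h6, abs_neg, one_mul]; exact h1
      have h8 : c N = 0 := by
        have := lt_of_mul_lt_mul_right h7 h4.le
        exact Int.abs_lt_one_iff.1 this
      intro i hi
      rcases Nat.lt_succ_iff_lt_or_eq.1 hi with hi | rfl
      · exact h2 (by simpa [h8] using h0) i hi
      · exact h8

theorem rp_succ (a e n : ℕ) : rp a e (n + 1) = a + rp a e n * 2 ^ e := by
  rw [← Nat.shiftLeft_eq]; rfl

theorem rp_eq (a e n : ℕ) : rp a e n = ∑ k ∈ range n, a * 2 ^ (e * k) := by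
  induction n with
  | zero => rfl
  | succ n ih =>
    rw [rp_succ, ih, sum_range_succ', sum_mul, add_comm]
    simp only [mul_add, pow_add, mul_one, mul_assoc, mul_zero, pow_zero]

theorem rp_lt {a e : ℕ} (h : a < 2 ^ e) (n : ℕ) : rp a e n < 2 ^ (e * n) := by
  induction n with
  | zero => exact Nat.one_pos
  | succ n ih =>
    rw [rp_succ, mul_add, pow_add, mul_one]
    have : (rp a e n + 1) * 2 ^ e ≤ 2 ^ (e * n) * 2 ^ e := Nat.mul_le_mul_right _ ih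
    linarith

/-- Induction on `n` with `Nat.and_mod_two_pow`, `Nat.and_div_two_pow`. -/
theorem rp_land {a e : ℕ} (h : a < 2 ^ e) {n t : ℕ} (ht : t &&& rp a e n = t) :
    (∀ k < n, (t / 2 ^ (e * k) % 2 ^ e) &&& a = t / 2 ^ (e * k) % 2 ^ e) ∧
      t = ∑ k ∈ range n, t / 2 ^ (e * k) % 2 ^ e * 2 ^ (e * k) := by
  induction n generalizing t with
  | zero =>
    have : t &&& 0 = t := ht
    rw [Nat.and_zero] at this
    simp [← this]
  | succ n ih =>
    have h1 : t % 2 ^ e &&& a = t % 2 ^ e := by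
      have := congrArg (· % 2 ^ e) ht
      simp only [Nat.and_mod_two_pow, rp_succ, Nat.add_mul_mod_self_right, Nat.mod_eq_of_lt h]
        at this
      exact this
    have h2 : t / 2 ^ e &&& rp a e n = t / 2 ^ e := by
      have := congrArg (· / 2 ^ e) ht
      simp only [Nat.and_div_two_pow, rp_succ, Nat.add_mul_div_right _ _ (Nat.two_pow_pos e),
        Nat.div_eq_of_lt h, zero_add] at this
      exact this
    obtain ⟨h3, h4⟩ := ih h2
    have h5 : ∀ k, t / 2 ^ (e * (k + 1)) = t / 2 ^ e / 2 ^ (e * k) := fun k => by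
      rw [Nat.div_div_eq_div_mul, ← pow_add]; congr 2; ring
    constructor
    · intro k hk
      cases k with
      | zero => simpa using h1
      | succ k => rw [h5]; exact h3 k (by omega)
    · rw [sum_range_succ']
      simp only [h5, mul_zero, pow_zero, Nat.div_one, mul_one]
      simp only [mul_add, pow_add, mul_one, ← mul_assoc]
      rw [← sum_mul, ← h4, Nat.div_add_mod']

namespace Bd

variable {p q : PP} {x y w x' y' w' : ℕ}

theorem zero (x y w : ℕ) : Bd 0 x y w := fun e => by simp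

theorem mono (h : Bd p x y w) (hx : x ≤ x') (hy : y ≤ y') (hw : w ≤ w') : Bd p x' y' w' :=
  fun e => ⟨(h e).1.trans (by exact_mod_cast hw), fun h0 =>
    ⟨((h e).2 h0).1.trans (by exact_mod_cast hx), ((h e).2 h0).2.trans (by exact_mod_cast hy)⟩⟩

theorem add (h : Bd p x y w) (h' : Bd q x y w') : Bd (p + q) x y (w + w') := fun e => by
  rw [AddMonoidAlgebra.coeff_add, Finsupp.add_apply]
  refine ⟨(abs_add_le _ _).trans (by push_cast; exact add_le_add (h e).1 (h' e).1), fun h0 => ?_⟩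
  by_cases h1 : p.coeff e = 0
  · exact (h' e).2 (by simpa [h1] using h0)
  · exact (h e).2 h1

theorem neg (h : Bd p x y w) : Bd (-p) x y w := fun e => by
  rw [AddMonoidAlgebra.coeff_neg, Finsupp.neg_apply, abs_neg, neg_ne_zero]
  exact h e

theorem sub (h : Bd p x y w) (h' : Bd q x y w') : Bd (p - q) x y (w + w') := by
  rw [sub_eq_add_neg]; exact h.add h'.neg

theorem mo {i j c : ℤ} (hi : |i| ≤ x) (hj : |j| ≤ y) (hc : |c| ≤ w) : Bd (mo i j c) x y w :=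
  fun e => by
    rw [coeff_mo]
    split_ifs with h
    · subst h; exact ⟨hc, fun _ => ⟨hi, hj⟩⟩
    · simp

theorem mo_mul (h : Bd p x y w) {i j c : ℤ} (hi : |i| ≤ x') (hj : |j| ≤ y') (hc : |c| ≤ w') :
    Bd (K4.mo i j c * p) (x + x') (y + y') (w' * w) := fun e => by
  rw [K4.mo, AddMonoidAlgebra.coeff_single_mul_apply, abs_mul]
  obtain ⟨h1, h2⟩ := h (-(i, j) + e)
  refine ⟨by push_cast; gcongr, fun h0 => ?_⟩
  obtain ⟨h3, h4⟩ := h2 (right_ne_zero_of_mul h0)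
  simp only [Prod.fst_add, Prod.snd_add, Prod.fst_neg, Prod.snd_neg] at h3 h4
  rw [abs_le] at hi hj h3 h4
  push_cast
  exact ⟨abs_le.2 ⟨by omega, by omega⟩, abs_le.2 ⟨by omega, by omega⟩⟩

theorem eq_zero (h : Bd p x y 0) : p = 0 := by
  ext e
  simpa using (h e).1

end Bd

/-- the polynomial with a given array of coefficients -/
def mkP (x y : ℕ) (c : ℕ → ℕ → ℤ) : PP :=
  ∑ j ∈ range (2 * y + 1), ∑ i ∈ range (2 * x + 1), mo (i - x) (j - y) (c j i)

theorem coeff_mkP (x y : ℕ) (c : ℕ → ℕ → ℤ) (e : ℤ × ℤ) : (mkP x y c).coeff e =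
    ∑ j ∈ range (2 * y + 1), ∑ i ∈ range (2 * x + 1),
      if ((i : ℤ) - x, (j : ℤ) - y) = e then c j i else 0 := by
  simp only [mkP, AddMonoidAlgebra.coeff_sum, Finsupp.finsetSum_apply, coeff_mo]

theorem coeff_mkP_in {x y i j : ℕ} (c : ℕ → ℕ → ℤ) (hi : i < 2 * x + 1) (hj : j < 2 * y + 1) :
    (mkP x y c).coeff ((i : ℤ) - x, (j : ℤ) - y) = c j i := by
  rw [coeff_mkP, sum_eq_single_of_mem j (mem_range.2 hj), sum_eq_single_of_mem i (mem_range.2 hi),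
    if_pos rfl]
  · intro b _ hb
    exact if_neg fun h => hb (by have := congrArg Prod.fst h; simp only at this; omega)
  · intro b _ hb
    exact sum_eq_zero fun a _ => if_neg fun h =>
      hb (by have := congrArg Prod.snd h; simp only at this; omega)

theorem coeff_mkP_out {x y : ℕ} (c : ℕ → ℕ → ℤ) {e : ℤ × ℤ} (h : ¬(|e.1| ≤ x ∧ |e.2| ≤ y)) :
    (mkP x y c).coeff e = 0 := by
  rw [coeff_mkP]
  refine sum_eq_zero fun j hj => sum_eq_zero fun i hi => if_neg fun h0 => h ?_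
  rw [mem_range] at hi hj
  subst h0
  exact ⟨abs_le.2 ⟨by simp only; omega, by simp only; omega⟩,
    abs_le.2 ⟨by simp only; omega, by simp only; omega⟩⟩

theorem box_idx {x y : ℕ} {e : ℤ × ℤ} (h : |e.1| ≤ x ∧ |e.2| ≤ y) :
    ∃ i < 2 * x + 1, ∃ j < 2 * y + 1, e = ((i : ℤ) - x, (j : ℤ) - y) := by
  rw [abs_le, abs_le] at h
  exact ⟨(e.1 + x).toNat, by omega, (e.2 + y).toNat, by omega,
    Prod.ext (by simp only; omega) (by simp only; omega)⟩

theorem bd_mkP {x y w : ℕ} {c : ℕ → ℕ → ℤ} (h : ∀ j < 2 * y + 1, ∀ i < 2 * x + 1, |c j i| ≤ w) :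
    Bd (mkP x y c) x y w := fun e => by
  by_cases he : |e.1| ≤ x ∧ |e.2| ≤ y
  · refine ⟨?_, fun _ => he⟩
    obtain ⟨i, hi, j, hj, rfl⟩ := box_idx he
    rw [coeff_mkP_in c hi hj]
    exact h j hj i hi
  · simp [coeff_mkP_out c he]

theorem Bd.eq_mkP {p : PP} {x y w : ℕ} (h : Bd p x y w) :
    p = mkP x y fun j i => p.coeff (i - x, j - y) := by
  ext e
  by_cases he : |e.1| ≤ x ∧ |e.2| ≤ y
  · obtain ⟨i, hi, j, hj, rfl⟩ := box_idx he
    rw [coeff_mkP_in _ hi hj]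
  · rw [coeff_mkP_out _ he]
    by_contra h0
    exact he ((h e).2 h0)

theorem ev_mkP (b D x y : ℕ) (c : ℕ → ℕ → ℤ) :
    ev b D (mkP x y c) * 2 ^ (b * (x + D * y)) = ((∑ j ∈ range (2 * y + 1),
      (∑ i ∈ range (2 * x + 1), c j i * (2 ^ b) ^ i) * ((2 ^ b) ^ D) ^ j : ℤ) : ℚ) := by
  simp only [mkP, map_sum, ev_mo, sum_mul]
  push_cast
  refine sum_congr rfl fun j _ => sum_congr rfl fun i _ => ?_
  rw [mul_assoc, mul_assoc, ← pow_mul, ← pow_mul, ← pow_mul, ← pow_add, ← zpow_natCast,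
    ← zpow_natCast, ← zpow_add₀ two_ne_zero]
  congr 2
  push_cast
  ring

/-- `dig_uniq` twice -/
theorem Bd.dig {p : PP} {x y w b D : ℕ} (h : Bd p x y w) (hD : 2 * x < D) (hw : w < 2 ^ b) :
    ∃ n : ℤ, ev b D p * 2 ^ (b * (x + D * y)) = n ∧ |n| < ((2 ^ b) ^ D) ^ (2 * y + 1) ∧
      (n = 0 → p = 0) := by
  have h1 : ∀ j : ℕ, _ := fun j => dig_uniq (2 ^ b) (fun i : ℕ => p.coeff (i - x, j - y)) (2 * x + 1)
    fun i _ => (h _).1.trans_lt (by exact_mod_cast hw)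
  have h2 := dig_uniq ((2 ^ b) ^ D)
    (fun j : ℕ => ∑ i ∈ range (2 * x + 1), p.coeff (i - x, j - y) * (2 ^ b) ^ i) (2 * y + 1)
    fun j _ => (h1 j).1.trans_le (pow_le_pow_right₀ (one_le_pow₀ one_le_two) hD)
  refine ⟨_, ?_, h2.1, fun h0 => ?_⟩
  · rw [← ev_mkP, ← h.eq_mkP]
  · rw [h.eq_mkP]
    exact Bd.eq_zero (bd_mkP fun j hj i hi => by rw [(h1 j).2 (h2.2 h0 j hj) i hi]; simp)

theorem Bd.ev_inj {p : PP} {x y w b D : ℕ} (h : Bd p x y w) (hD : 2 * x < D) (hw : w < 2 ^ b)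
    (h0 : ev b D p = 0) : p = 0 := by
  obtain ⟨n, h1, -, h2⟩ := h.dig hD hw
  rw [h0, zero_mul] at h1
  exact h2 (by exact_mod_cast h1.symm)

namespace Fm

variable {F : Fm} {r a : Rw} {v z : Fin F.d → PP}

theorem e1_eq (F : Fm) : F.e1 = 20 * (2 * F.x + 9) := rfl

theorem e2_eq (F : Fm) : F.e2 = F.e1 * (2 * F.y + 9) := rfl

theorem sU_eq (F : Fm) : F.sU = 80 + 4 * F.e1 := rfl

theorem blk_eq (F : Fm) (c : ℕ) : F.blk c = rp (rp c 20 (2 * F.x + 1)) F.e1 (2 * F.y + 1) := rfl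

theorem enc_zero (F : Fm) : F.enc 0 = 0 := by simp [enc]

theorem enc_add (v z : Fin F.d → PP) : F.enc (v + z) = F.enc v + F.enc z := by
  simp only [enc, Pi.add_apply, map_add, add_mul, sum_add_distrib]

theorem enc_sub (v z : Fin F.d → PP) : F.enc (v - z) = F.enc v - F.enc z := by
  simp only [enc, Pi.sub_apply, map_sub, sub_mul, sum_sub_distrib]

theorem enc_smul (p : PP) (v : Fin F.d → PP) : F.enc (p • v) = F.ev0 p * F.enc v := by
  simp only [enc, Pi.smul_apply, smul_eq_mul, map_mul, mul_sum, mul_assoc]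

theorem enc_ek {k : ℕ} (hk : k < F.d) (p : PP) :
    F.enc (F.ek k p) = F.ev0 p * 2 ^ (20 * F.x + F.e1 * F.y + F.e2 * k) := by
  rw [enc, sum_eq_single_of_mem (⟨k, hk⟩ : Fin F.d) (mem_univ _)]
  · simp [ek]
  · intro b _ hb
    have : (b : ℕ) ≠ k := fun h => hb (Fin.ext h)
    simp [ek, this]

/-- `Bd.dig` for the box `x + 4`, `y + 4`, then `dig_uniq` with base `2 ^ e2` -/
theorem enc_inj {w : ℕ} (h : ∀ k, Bd (v k) (F.x + 4) (F.y + 4) w) (hw : w < 1048576)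
    (h0 : F.enc v = 0) : v = 0 := by
  have hw' : w < 2 ^ 20 := by norm_num [hw]
  choose n h1 h2 h3 using fun k => (h k).dig (b := 20) (D := 2 * F.x + 9) (by omega) hw'
  have h5 : F.enc v * 2 ^ F.sU = ((∑ k : Fin F.d, n k * (2 ^ F.e2) ^ (k : ℕ) : ℤ) : ℚ) := by
    rw [enc, sum_mul]
    push_cast
    refine sum_congr rfl fun k _ => ?_
    rw [← h1 k, ev0, mul_assoc, mul_assoc, ← pow_mul, ← pow_add, ← pow_add, sU_eq, e1_eq]
    congr 2
    ring
  have h6 : (((2 : ℤ) ^ 20) ^ (2 * F.x + 9)) ^ (2 * (F.y + 4) + 1) = 2 ^ F.e2 := by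
    rw [← pow_mul, ← pow_mul,
      show 20 * ((2 * F.x + 9) * (2 * (F.y + 4) + 1)) = F.e2 by rw [e2_eq, e1_eq]; ring]
  rw [h6] at h2
  rw [h0, zero_mul] at h5
  generalize (2 : ℤ) ^ F.e2 = B at h2 h5
  have h4 := (dig_uniq B (fun k => if hk : k < F.d then n ⟨k, hk⟩ else 0) F.d
    fun k hk => by rw [dif_pos hk]; exact h2 _).2 (by
    rw [← Fin.sum_univ_eq_sum_range
      (fun k => (if hk : k < F.d then n ⟨k, hk⟩ else 0) * B ^ k)]
    simp only [Fin.is_lt, dif_pos, Fin.eta]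
    exact_mod_cast h5.symm)
  funext k
  have := h4 k k.2
  rw [dif_pos k.2] at this
  exact h3 k this

theorem row_lt (F : Fm) {c : ℕ} (hc : c < 2 ^ 20) : rp c 20 (2 * F.x + 1) < 2 ^ F.e1 :=
  (rp_lt hc _).trans_le (Nat.pow_le_pow_right two_pos (by rw [e1_eq]; omega))

theorem blk_lt (F : Fm) {c : ℕ} (hc : c < 2 ^ 20) : F.blk c < 2 ^ F.e2 := by
  rw [blk_eq, e2_eq]
  exact (rp_lt (F.row_lt hc) _).trans_le
    (Nat.pow_le_pow_right two_pos (Nat.mul_le_mul_left _ (by omega)))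

theorem dec1 {t : ℕ} (h : t &&& F.blk 2047 = t) : ∃ q : PP, Bd q F.x F.y 1024 ∧
    (t : ℚ) = F.ev0 q * 2 ^ (20 * F.x + F.e1 * F.y) + F.off1 := by
  obtain ⟨h1, h2⟩ := rp_land (F.row_lt (by norm_num)) h
  have h3 := fun j hj => rp_land (a := 2047) (e := 20) (by norm_num) (h1 j hj)
  refine ⟨mkP F.x F.y fun j i =>
    (t / 2 ^ (F.e1 * j) % 2 ^ F.e1 / 2 ^ (20 * i) % 2 ^ 20 : ℕ) - 1024,
    bd_mkP fun j hj i hi => ?_, ?_⟩
  · have h4 := ((h3 j hj).1 i hi).symm.trans_le Nat.and_le_right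
    generalize t / 2 ^ (F.e1 * j) % 2 ^ F.e1 / 2 ^ (20 * i) % 2 ^ 20 = u at h4
    exact abs_le.2 ⟨by omega, by omega⟩
  · have h4 : 20 * F.x + F.e1 * F.y = 20 * (F.x + (2 * F.x + 9) * F.y) := by rw [e1_eq]; ring
    rw [h4, ev0, ev_mkP, off1, blk_eq, rp_eq, rp_eq]
    conv_lhs => rw [h2]
    rw [Int.cast_sum, Nat.cast_sum, Nat.cast_sum, ← sum_add_distrib]
    refine sum_congr rfl fun j hj => ?_
    have h5 := (h3 j (mem_range.1 hj)).2
    generalize t / 2 ^ (F.e1 * j) % 2 ^ F.e1 = u at h5 ⊢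
    have h6 : (u : ℚ) = ∑ i ∈ range (2 * F.x + 1),
        ((u / 2 ^ (20 * i) % 2 ^ 20 : ℕ) : ℚ) * 2 ^ (20 * i) := by exact_mod_cast h5
    rw [Nat.cast_mul, h6, Int.cast_mul, Int.cast_sum, Nat.cast_mul, Nat.cast_sum, e1_eq]
    simp only [Int.cast_mul, Int.cast_sub, Int.cast_natCast, Int.cast_pow, Int.cast_ofNat,
      Nat.cast_mul, Nat.cast_pow, Nat.cast_ofNat, ← pow_mul, sub_mul, sum_sub_distrib, mul_assoc]
    ring

/-- `rp_land` three times; the digits are at most `2047`, subtract `1024` -/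
theorem dec {n : ℕ} (h : n &&& F.al = n) : ∃ q : Fin F.d → PP,
    (∀ k, Bd (q k) F.x F.y 1024 ∧ ((n / 2 ^ (F.e2 * k) % 2 ^ F.e2 : ℕ) : ℚ) =
      F.ev0 (q k) * 2 ^ (20 * F.x + F.e1 * F.y) + F.off1) ∧ (n : ℚ) = F.enc q + F.off := by
  obtain ⟨h1, h2⟩ := rp_land (F.blk_lt (by norm_num)) h
  choose q h3 using fun k : Fin F.d => dec1 (h1 k k.2)
  refine ⟨q, h3, ?_⟩
  rw [off, rp_eq, enc, ← Fin.sum_univ_eq_sum_range (fun k => F.off1 * 2 ^ (F.e2 * k))]
  rw [← Fin.sum_univ_eq_sum_range (fun k => n / 2 ^ (F.e2 * k) % 2 ^ F.e2 * 2 ^ (F.e2 * k))] at h2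
  conv_lhs => rw [h2]
  rw [Nat.cast_sum, Nat.cast_sum, ← sum_add_distrib]
  refine sum_congr rfl fun k _ => ?_
  rw [Nat.cast_mul, (h3 k).2, pow_add]
  push_cast
  ring

theorem R0_zr : F.R0 zr 0 := fun _ => ⟨by simp [zr, enc_zero], fun _ => Bd.zero _ _ _⟩

theorem R4_zr : F.R4 zr 0 := fun _ => ⟨by simp [zr, enc_zero], fun _ => Bd.zero _ _ _⟩

theorem R0_bad : F.R0 bad v := fun h => absurd h (lt_irrefl _)

theorem R0.zero (h : F.R0 r v) (hz : r.w = 0) : v = 0 := by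
  funext k
  have := (h (by omega)).2 k
  rw [hz] at this
  exact this.eq_zero

theorem R0.isZ (h : F.R0 r v) (hz : isZ r = true) : v = 0 := h.zero (Nat.beq_eq ▸ hz)

theorem ad_w (g : Bool) (c s w : ℕ) (r a : Rw) : (ad g c s w r a).w = a.w + w := rfl

theorem ad_val (g : Bool) (c s w : ℕ) (r a : Rw) :
    ((ad g c s w r a).p : ℚ) - (ad g c s w r a).m =
      a.p - a.m + sg g c * 2 ^ s * ((r.p : ℚ) - r.m) := by
  cases g <;> simp [ad, sel_eq, sg, Nat.shiftLeft_eq] <;> ring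

theorem abs_sg (g : Bool) (c : ℕ) : |sg g c| ≤ c := by
  cases g <;> simp [sg]

/-- Cases: `r.w = 0` gives `v = 0`; `c = 0`; otherwise the bound of the result bounds `r.w`. -/
theorem addT_rep (g : Bool) (c i j : ℕ) (h : F.R0 r v) (ha : F.R4 a z) :
    F.R4 (F.addT g c i j r a) (z + mo (i - 32) (j - 32) (sg g c) • v) := by
  rw [addT, sel_eq]
  split_ifs with h0
  · rw [h.zero (Nat.beq_eq ▸ h0), smul_zero, add_zero]
    exact ha
  intro hw
  rw [ad_w, sel_eq] at hw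
  rw [ad_val, ad_w, sel_eq]
  split_ifs at hw ⊢ with h1
  swap
  · omega
  simp only [an_eq, Nat.ble_eq, Nat.mul_eq, Nat.add_eq, Nat.sub_eq] at h1 hw ⊢
  obtain ⟨h2, h3⟩ := ha (by omega)
  rcases Nat.eq_zero_or_pos c with rfl | hc
  · have : sg g 0 = 0 := by simp [sg]
    simpa [this, mo_zero, h2] using h3
  obtain ⟨h4, h5⟩ := h (by nlinarith)
  refine ⟨?_, fun k => (h3 k).add ((h5 k).mo_mul (x' := 4) (y' := 4)
    (abs_le.2 ⟨by omega, by omega⟩) (abs_le.2 ⟨by omega, by omega⟩) (abs_sg g c))⟩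
  rw [h2, h4, enc_add, enc_smul, ev0, ev_mo, add_mul, mul_right_comm _ _ (2 ^ F.sU),
    mul_assoc _ _ (2 ^ F.sU), ← zpow_natCast _ F.sU, ← zpow_add₀ two_ne_zero, ← zpow_natCast]
  congr 4
  rw [sU_eq, e1_eq]
  push_cast [Nat.cast_sub h1.1.1, Nat.cast_sub h1.2.1]
  ring

theorem addL_rep (g : Bool) (c i j k : ℕ) (ha : F.R4 a z) :
    F.R4 (F.addL g c i j k a) (z + F.ek k (mo (i - 32) (j - 32) (sg g c))) := by
  intro hw
  rw [addL, ad_w, sel_eq] at hw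
  rw [addL, ad_val, ad_w, sel_eq]
  split_ifs at hw ⊢ with h1
  swap
  · omega
  simp only [an_eq, Nat.ble_eq, Nat.mul_eq, Nat.add_eq, Nat.sub_eq, ltN_eq] at h1 hw ⊢
  obtain ⟨h2, h3⟩ := ha (by omega)
  refine ⟨?_, fun l => (h3 l).add ?_⟩
  · rw [h2, enc_add, enc_ek h1.2, ev0, ev_mo, add_mul, mul_assoc _ _ (2 ^ F.sU), ← pow_add,
      mul_assoc (sg g c : ℚ) (2 ^ _) (2 ^ _), ← zpow_natCast _ (_ + F.sU), ← zpow_add₀ two_ne_zero,
      Nat.cast_one, Nat.cast_zero, sub_zero, mul_one, ← zpow_natCast _ (_ + _)]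
    congr 3
    rw [sU_eq, e1_eq]
    push_cast [Nat.cast_sub h1.1.1.1, Nat.cast_sub h1.1.2.1]
    ring
  · unfold ek
    split_ifs
    · exact Bd.mo (abs_le.2 ⟨by omega, by omega⟩) (abs_le.2 ⟨by omega, by omega⟩) (abs_sg g c)
    · exact Bd.zero _ _ _

theorem eq_of_enc {q : Fin F.d → PP} {w : ℕ} (hz : ∀ k, Bd (z k) (F.x + 4) (F.y + 4) w)
    (hq : ∀ k, Bd (q k) F.x F.y 1024) (hw : w + 1025 ≤ 1048576) (h : F.enc z = F.enc q) : z = q :=
  sub_eq_zero.1 (enc_inj (w := w + 1024)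
    (fun k => (hz k).sub ((hq k).mono (by omega) (by omega) le_rfl)) (by omega)
    (by rw [enc_sub, h, sub_self]))

theorem cast_sub_sub (m n : ℕ) : ((m - n : ℕ) : ℚ) - (n - m : ℕ) = m - n := by
  rcases le_total m n with h | h
  · rw [Nat.sub_eq_zero_of_le h, Nat.cast_sub h]; simp
  · rw [Nat.sub_eq_zero_of_le h, Nat.cast_sub h]; simp

/-- `dec` for `t / 2 ^ sU`, then `enc_inj` for the difference -/
theorem nrm_rep (ha : F.R4 a z) : F.R0 (F.nrm a) z := by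
  simp only [nrm, nr1, nr2, sel_eq, Nat.ble_eq, Nat.beq_eq, Nat.add_eq, Nat.sub_eq, Nat.land_eq,
    Nat.shiftRight_eq', Nat.shiftRight_eq_div_pow]
  have h2 : (2 : ℚ) ^ F.sU ≠ 0 := by positivity
  split_ifs with h0 h1 h3 h4
  · obtain ⟨h5, h6⟩ := ha (by omega)
    rw [h1, sub_self] at h5
    rw [enc_inj h6 (by omega) ((mul_eq_zero.1 h5.symm).resolve_right h2)]
    exact R0_zr
  · obtain ⟨h5, h6⟩ := ha (by omega)
    have h7 : ((a.p + F.offs - a.m : ℕ) : ℚ) = (F.enc z + F.off) * 2 ^ F.sU := by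
      rw [Nat.cast_sub h3, offs, Nat.shiftLeft_eq', Nat.shiftLeft_eq]
      push_cast
      linear_combination h5
    generalize a.p + F.offs - a.m = t at h4 h7
    rw [als, Nat.shiftLeft_eq', Nat.shiftLeft_eq] at h4
    have h8 : t / 2 ^ F.sU &&& F.al = t / 2 ^ F.sU := by
      have := congrArg (· / 2 ^ F.sU) h4
      simp only [Nat.and_div_two_pow, Nat.mul_div_cancel _ (Nat.two_pow_pos _)] at this
      exact this
    have h9 : t % 2 ^ F.sU = 0 := by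
      have := congrArg (· % 2 ^ F.sU) h4
      simp only [Nat.and_mod_two_pow, Nat.mul_mod_left, Nat.and_zero] at this
      exact this.symm
    obtain ⟨q, h10, h11⟩ := dec h8
    have h12 : (t : ℚ) = (t / 2 ^ F.sU : ℕ) * 2 ^ F.sU := by
      exact_mod_cast (Nat.div_mul_cancel (Nat.dvd_of_mod_eq_zero h9)).symm
    rw [h12, h11] at h7
    have h13 : z = q := eq_of_enc h6 (fun k => (h10 k).1) h0
      (add_right_cancel (mul_right_cancel₀ h2 h7)).symm
    subst h13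
    refine fun _ => ⟨?_, fun k => (h10 k).1⟩
    refine (cast_sub_sub _ _).trans ?_
    rw [h11, add_sub_cancel_right]
  · exact R0_bad
  · exact R0_bad
  · exact R0_bad

theorem tI_neg (t : ℕ) : ((Nat.sub 64 (tI t) : ℕ) : ℤ) - 32 = -zI t := by
  have : tI t < 64 := Nat.mod_lt _ (by norm_num)
  rw [zI_eq, Nat.sub_eq]
  omega

theorem tJ_neg (t : ℕ) : ((Nat.sub 64 (tJ t) : ℕ) : ℤ) - 32 = -zJ t := by
  have : tJ t < 64 := Nat.mod_lt _ (by norm_num)
  rw [zJ_eq, Nat.sub_eq]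
  omega

theorem tv_eq (t : ℕ) : tv t = mo (tI t - 32) (tJ t - 32) (sg (tG t) (tC t)) := by
  rw [tv, zI_eq, zJ_eq, zC_eq]

theorem tmS_rep (t : ℕ) (h : F.R0 r v) (ha : F.R4 a z) :
    F.R4 (F.tmS r t a) (z + ts t • v) := by
  rw [tmS, sel_eq, ts]
  split_ifs with h0
  · obtain ⟨h1, h2⟩ := (tZ_eq t).1 h0
    rw [tv_eq, h1, h2]
    exact addT_rep _ _ _ _ h ha
  · rw [tv_eq, add_smul, add_comm (_ • v), ← add_assoc, ← tI_neg, ← tJ_neg, zC_eq]
    exact addT_rep _ _ _ _ h (addT_rep _ _ _ _ h ha)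

theorem ek_add (k : ℕ) (p q : PP) : F.ek k (p + q) = F.ek k p + F.ek k q := by
  funext j
  simp only [ek, Pi.add_apply]
  split_ifs <;> simp

theorem ek_neg (k : ℕ) (p : PP) : F.ek k (-p) = -F.ek k p := by
  funext j
  simp only [ek, Pi.neg_apply]
  split_ifs <;> simp

theorem litS_rep (k t : ℕ) (ha : F.R4 a z) : F.R4 (F.litS k t a) (z + F.ek k (ts t)) := by
  rw [litS, sel_eq, ts]
  split_ifs with h0
  · obtain ⟨h1, h2⟩ := (tZ_eq t).1 h0
    rw [tv_eq, h1, h2]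
    exact addL_rep _ _ _ _ _ ha
  · rw [tv_eq, ek_add, add_comm (F.ek k _), ← add_assoc, ← tI_neg, ← tJ_neg, zC_eq]
    exact addL_rep _ _ _ _ _ (addL_rep _ _ _ _ _ ha)

theorem litN_rep (k t : ℕ) (ha : F.R4 a z) : F.R4 (F.litN k t a) (z - F.ek k (tv t)) := by
  rw [sub_eq_add_neg, ← ek_neg, tv_eq, ← mo_neg, ← sg_nt]
  exact addL_rep _ _ _ _ _ ha

end Fm

theorem Rp.opk_rep {R : Rp} {r : Rw} {v : Fin R.F.d → PP} (h : R.F.R0 r v) (ho : R.opk r = true)
    (k : Fin R.F.d) : Bd (v k) R.F.x R.F.y 1024 ∧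
      ((R.opn r / 2 ^ (R.F.e2 * k) % 2 ^ R.F.e2 : ℕ) : ℚ) =
        R.F.ev0 (v k) * 2 ^ (20 * R.F.x + R.F.e1 * R.F.y) + R.F.off1 := by
  simp only [Rp.opk, an_eq, Nat.ble_eq, Nat.beq_eq, Nat.add_eq, Nat.land_eq] at ho
  obtain ⟨h1, h2, h3⟩ := ho
  obtain ⟨h4, h5⟩ := h (by omega)
  obtain ⟨q, h6, h7⟩ := Fm.dec h3
  have h8 : (R.opn r : ℚ) = R.F.off + r.p - r.m := by
    rw [Rp.opn, Nat.sub_eq, Nat.add_eq, Nat.cast_sub h2, Nat.cast_add]
  have h9 : v = q := Fm.eq_of_enc (fun k => (h5 k).mono (by omega) (by omega) le_rfl)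
    (fun k => (h6 k).1) h1 (by linarith)
  subst h9
  exact h6 k

end

end Pool.Agent.P.MP_1a0ecf_al.K4
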