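import Pool.Agent.P.MP_1a0ecf_al.K4.S0
import Pool.Agent.P.MP_1a0ecf_al.F.T4b

/-! Type F4: comparison of the tables. -/

namespace Pool.Agent.P.MP_1a0ecf_al.K4

open Finset

set_option maxRecDepth 100000

theorem tab_orth : ∀ i < 25, ∀ j < 25,
    ∑ c ∈ range 25, (F.sz4 c : ℤ) * (F.tab4 i c * F.tab4 j c) = if i = j then 1152 else 0 := by
  decide +kernel

theorem wds_eq : ∀ m < 25, gt wds [] m = F.wd4 m := by decide +kernel

theorem wds_ne : ∀ m < 25, F.wd4 m = [] ↔ m = 0 := by decide +kernel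

theorem sv_CT : ∀ j < 25, ∀ m < 25, sv (glb.CT j m) = F.tab4 j m := by decide +kernel

theorem oa_eq : ∀ j < 25, oa j = 2 * F.oa4 j ∧ ob j = 2 * F.ob4 j := by decide +kernel

theorem bd_eq : ∀ i < 25, ∀ j < 25, bd i j = true ↔ (i, j) ∈ F.bad4 := by decide +kernel

theorem dl_ne : ∀ n ∈ glb.dl, sv (un n) ≠ 0 := by
  have : allL (fun n => nt (eqZ (sv (un n)) 0)) glb.dl = true := by decide +kernel
  simpa using this

theorem red_wds (m : ℕ) : red (gt wds [] m) = true :=
  gt_all (p := fun w => red w = true) ((allL_eq red wds).1 (by decide +kernel)) rfl m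

theorem glb_cD : ∀ j < 25, glb.cD j = true := (allN_eq _ _).1 (by decide +kernel)

theorem glb_cS : ∀ j < 25, glb.cS j = true := (allN_eq _ _).1 (by decide +kernel)

end Pool.Agent.P.MP_1a0ecf_al.K4
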