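import Pool.Agent.P.MP_1a0ecf_al.K4.B3
import Pool.Agent.P.MP_1a0ecf_al.K4.RR

/-! Type F4: the Kazhdan-Lusztig families. -/

namespace Pool.Agent.P.MP_1a0ecf_al.K4

open K

noncomputable section

variable {X : F.Cox}

theorem all_regions (h : X.Is (F.pathM 1 4)) (hn : X.n = 4) {a b : ℝ} (ha : 0 ≤ a) (hab : a ≤ b)
    (hb : 0 < b) (D : F.KL X ℝ (Lw X a b)) :
    ∃ χ : Fin 25 → X.W → ℂ, (∀ j, IsCh (χ j) ∧ F.Cox.IsChi (χ j) j) ∧
      ∀ i j, D.Rel (χ i) (χ j) ↔ F.Fam4 a b i j := by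
  have hA : ∀ j < 25, chA.Ok j := fun j hj => Ch.ok (chA_c j hj).1 (chA_c j hj).2
  have hB : ∀ j < 25, chB.Ok j := fun j hj => Ch.ok (chB_c j hj).1 (chB_c j hj).2
  have hC : ∀ j < 25, chC.Ok j := fun j hj => Ch.ok (chC_c j hj).1 (chC_c j hj).2
  rcases ha.eq_or_lt with rfl | ha
  · exact region h hn hA chA_w (Rg.ok (Z := rgA1) (l := b) (m := 1)
      ⟨hb, one_pos, by simp [rgA1], by simp [rgA1]⟩ rgA1_c) D
  rcases lt_trichotomy (3 * a) b with k | k | k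
  · exact region h hn hA chA_w (Rg.ok (Z := rgA0) (l := b - 3 * a) (m := a)
      ⟨sub_pos.2 k, ha, by simp [rgA0], by simp only [rgA0]; push_cast; ring⟩ rgA0_c) D
  · exact region h hn hA chA_w (Rg.ok (Z := rgA2) (l := a) (m := 1)
      ⟨ha, one_pos, by simp [rgA2], by simp only [rgA2]; push_cast; linarith⟩ rgA2_c) D
  rcases lt_trichotomy (2 * a) b with k' | k' | k'
  · exact region h hn hB chB_w (Rg.ok (Z := rgB0) (l := b - 2 * a) (m := 3 * a - b)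
      ⟨sub_pos.2 k', sub_pos.2 k, by simp only [rgB0]; push_cast; ring,
        by simp only [rgB0]; push_cast; ring⟩ rgB0_c) D
  · exact region h hn hB chB_w (Rg.ok (Z := rgB1) (l := a) (m := 1)
      ⟨ha, one_pos, by simp [rgB1], by simp only [rgB1]; push_cast; linarith⟩ rgB1_c) D
  rcases hab.eq_or_lt with k'' | k''
  · exact region h hn hC chC_w (Rg.ok (Z := rgC1) (l := a) (m := 1)
      ⟨ha, one_pos, by simp [rgC1], by simp only [rgC1]; push_cast; linarith⟩ rgC1_c) D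
  · exact region h hn hC chC_w (Rg.ok (Z := rgC0) (l := b - a) (m := 2 * a - b)
      ⟨sub_pos.2 k'', sub_pos.2 k', by simp only [rgC0]; push_cast; ring,
        by simp only [rgC0]; push_cast; ring⟩ rgC0_c) D

theorem klf (X : F.Cox) : X.KLF := by
  intro h hn
  refine ⟨fun j hj => ?_, fun a b ha hab hb D χ χ' hχ hχ' j hj j' hj' e e' => ?_⟩
  · obtain ⟨D⟩ := F.exists_KL (X := X) (L := Lw X 1 1) (conj_w h hn 1 1)
    obtain ⟨χ, k, -⟩ := all_regions h hn zero_le_one le_rfl one_pos D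
    exact ⟨χ ⟨j, hj⟩, k ⟨j, hj⟩⟩
  · obtain ⟨ψ, k, k'⟩ := all_regions h hn ha hab hb D
    rw [F.Cox.IsChi.unique h hn hχ.isCh.isCl (k ⟨j, hj⟩).1.isCl e (k ⟨j, hj⟩).2,
      F.Cox.IsChi.unique h hn hχ'.isCh.isCl (k ⟨j', hj'⟩).1.isCl e' (k ⟨j', hj'⟩).2]
    exact k' ⟨j, hj⟩ ⟨j', hj'⟩

end

end Pool.Agent.P.MP_1a0ecf_al.K4
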