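import Pool.Agent.P.MP_1a0ecf_al.K4.W0

/-! Package W1: the algebra is a product of matrix algebras; traces; cyclic generation. -/

namespace Pool.Agent.P.MP_1a0ecf_al.K4

open K Matrix
open scoped Classical

set_option linter.unusedSectionVars false

noncomputable section

variable {X : F.Cox} {Γ : Type} [AddCommGroup Γ] [LinearOrder Γ] [IsOrderedAddMonoid Γ]
  {L : Fin X.n → Γ}

theorem mem_SB {B : KB X Γ L} {h : B.E.H} : h ∈ SB B ↔ In B.E (AA Γ) h ∧ B.bk h = h := Iff.rfl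

theorem SB_smul {B : KB X Γ L} {r : KK Γ} (hr : r ∈ AA Γ) (hb : bK Γ r = r) {h : B.E.H}
    (hh : h ∈ SB B) : r • h ∈ SB B :=
  mem_SB.2 ⟨In.smul B.E hr (mem_SB.1 hh).1, by rw [B.bk_smul, hb, (mem_SB.1 hh).2]⟩

/-- the trace of an idempotent matrix is its rank -/
theorem trace_idem {K n : Type} [Field K] [CharZero K] [Fintype n] [DecidableEq n]
    {M : Matrix n n K} (h : M * M = M) : ∃ k : ℕ, M.trace = k ∧ (k = 0 → M = 0) := by
  have hp : LinearMap.IsProj (LinearMap.range (Matrix.toLin' M)) (Matrix.toLin' M) :=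
    ⟨fun x => ⟨x, rfl⟩, by
      rintro _ ⟨x, rfl⟩
      rw [← LinearMap.comp_apply, ← Matrix.toLin'_mul, h]⟩
  refine ⟨Module.finrank K (LinearMap.range (Matrix.toLin' M)), ?_, fun k => ?_⟩
  · rw [← hp.trace, Matrix.trace_toLin'_eq]
  · rw [Submodule.finrank_eq_zero, LinearMap.range_eq_bot] at k
    exact Matrix.toLin'.injective (k.trans (map_zero _).symm)

/-- strong induction on `y` -/
theorem cyc_gen {K V : Type} [Field K] [AddCommGroup V] [Module K V] {d : ℕ} (A : Set K)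
    (G : Set V) (g0 : 0 ∈ G) (gs : ∀ u ∈ G, ∀ v ∈ G, u - v ∈ G) (ga : ∀ r ∈ A, ∀ v ∈ G, r • v ∈ G)
    (gd : ∀ n : ℤ, n ≠ 0 → ∀ v, (n : K) • v ∈ G → v ∈ G)
    (c : ℕ → Matrix (Fin d) (Fin d) K) (hc : ∀ s y u, c s y u ∈ A) (e : Fin d → V) (r : ℕ)
    (he : ∀ k : Fin d, (k : ℕ) < r → e k ∈ G) (op : ∀ s u, e u ∈ G → ∑ z, c s z u • e z ∈ G)
    (cy : ∀ y : Fin d, (y : ℕ) < r ∨ ∃ (s : ℕ) (u : Fin d) (n : ℤ), u < y ∧ n ≠ 0 ∧
      c s y u = n ∧ ∀ z, y < z → c s z u = 0) (y : Fin d) : e y ∈ G := by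
  let G' : AddSubgroup V :=
    { carrier := G
      zero_mem' := g0
      add_mem' := fun {a b} ha hb => by
        have := gs a ha _ (gs 0 g0 b hb)
        rwa [zero_sub, sub_neg_eq_add] at this
      neg_mem' := fun {a} ha => by
        have := gs 0 g0 a ha
        rwa [zero_sub] at this }
  induction y using WellFoundedLT.induction with
  | ind y ih =>
    rcases cy y with k | ⟨s, u, n, hu, hn, h1, h2⟩
    · exact he y k
    · refine gd n hn _ ?_
      have h3 := op s u (ih u hu)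
      have h4 : ∑ z ∈ Finset.univ.erase y, c s z u • e z ∈ G' := by
        refine G'.sum_mem fun z hz => ?_
        rcases lt_or_gt_of_ne (Finset.ne_of_mem_erase hz) with k | k
        · exact ga _ (hc s z u) _ (ih z k)
        · rw [h2 z k, zero_smul]
          exact g0
      have h5 := gs _ h3 _ h4
      rwa [← Finset.add_sum_erase _ _ (Finset.mem_univ y), add_sub_cancel_right, h1] at h5

private theorem mul_single_eq {K : Type} [Field K] {d : ℕ} (C g : Matrix (Fin d) (Fin d) K)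
    (u l : Fin d) : C * (single u l 1 * g) = ∑ z, C z u • (single z l (1 : K) * g) := by
  rw [← Matrix.mul_assoc]
  simp only [← Matrix.smul_mul, ← Matrix.sum_mul]
  congr 1
  ext i j
  by_cases k : l = j <;> simp [Matrix.mul_apply, Matrix.sum_apply, Matrix.single, k]

private theorem single_mul_eq {K : Type} [Field K] {d : ℕ} (C g : Matrix (Fin d) (Fin d) K)
    (k u : Fin d) : single k u 1 * (Cᵀ * g) = ∑ z, C z u • (single k z (1 : K) * g) := by
  rw [← Matrix.mul_assoc]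
  simp only [← Matrix.smul_mul, ← Matrix.sum_mul]
  congr 1
  ext i j
  by_cases e : k = i <;> simp [Matrix.mul_apply, Matrix.sum_apply, Matrix.single, e]

/-- The set `G` of all `M` with `ρ h = n • M` for some `h ∈ SB B` with `Z h`, `n ≠ 0`.
Apply `cyc_gen` to `fun k => single k l 1 * g` for `l < r` (left multiplication by `cH s`), then to
`fun l => single k l 1 * g` (right multiplication). -/
theorem top_of_cyc {B : KB X Γ L} {d : ℕ} (ρ : B.E.H →ₐ[KK Γ] Matrix (Fin d) (Fin d) (KK Γ))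
    (g : Matrix (Fin d) (Fin d) (KK Γ)) (Z : TwoSidedIdeal B.E.H) (cH : ℕ → B.E.H)
    (h1 : ∀ s, cH s ∈ SB B) (h2 : ∀ s y u, ρ (cH s) y u ∈ AA Γ ∧ bK Γ (ρ (cH s) y u) = ρ (cH s) y u)
    (h3 : ∀ s, (ρ (cH s))ᵀ * g = g * ρ (cH s)) (r : ℕ)
    (h4 : ∀ k l : Fin d, (k : ℕ) < r → (l : ℕ) < r → ∃ h ∈ SB B, ∃ n : ℤ, n ≠ 0 ∧
      ρ h = (n : KK Γ) • (single k l 1 * g) ∧ h ∈ Z)
    (cy : ∀ y : Fin d, (y : ℕ) < r ∨ ∃ (s : ℕ) (u : Fin d) (n : ℤ), u < y ∧ n ≠ 0 ∧
      ρ (cH s) y u = n ∧ ∀ z, y < z → ρ (cH s) z u = 0) (k l : Fin d) :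
    ∃ h ∈ SB B, ∃ n : ℤ, n ≠ 0 ∧ ρ h = (n : KK Γ) • (single k l 1 * g) ∧ h ∈ Z := by
  let G : Set (Matrix (Fin d) (Fin d) (KK Γ)) :=
    {M | ∃ h ∈ SB B, ∃ n : ℤ, n ≠ 0 ∧ ρ h = (n : KK Γ) • M ∧ h ∈ Z}
  let A : Set (KK Γ) := {x | x ∈ AA Γ ∧ bK Γ x = x}
  have zs : ∀ (x : KK Γ) h, h ∈ Z → x • h ∈ Z := fun x h hz => by
    rw [Algebra.smul_def]
    exact Z.mul_mem_left _ _ hz
  have si : ∀ (n : ℤ) h, h ∈ SB B → (n : KK Γ) • h ∈ SB B := fun n h hh =>
    SB_smul (intCast_mem _ n) (map_intCast _ n) hh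
  have g0 : 0 ∈ G := ⟨0, zero_mem _, 1, one_ne_zero, by simp, Z.zero_mem⟩
  have gs : ∀ u ∈ G, ∀ v ∈ G, u - v ∈ G := by
    rintro u ⟨h, hh, n, hn, e, hz⟩ v ⟨h', hh', n', hn', e', hz'⟩
    refine ⟨(n' : KK Γ) • h - (n : KK Γ) • h', sub_mem (si _ _ hh) (si _ _ hh'), n * n',
      mul_ne_zero hn hn', ?_, Z.sub_mem (zs _ _ hz) (zs _ _ hz')⟩
    rw [map_sub, map_smul, map_smul, e, e', smul_smul, smul_smul, smul_sub, Int.cast_mul, mul_comm]
  have ga : ∀ x ∈ A, ∀ v ∈ G, x • v ∈ G := by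
    rintro x hx v ⟨h, hh, n, hn, e, hz⟩
    exact ⟨x • h, SB_smul hx.1 hx.2 hh, n, hn, by rw [map_smul, e, smul_comm], zs _ _ hz⟩
  have gd : ∀ n : ℤ, n ≠ 0 → ∀ v, (n : KK Γ) • v ∈ G → v ∈ G := by
    rintro n hn v ⟨h, hh, n', hn', e, hz⟩
    exact ⟨h, hh, n' * n, mul_ne_zero hn' hn, by rw [e, smul_smul, Int.cast_mul], hz⟩
  have s1 : ∀ l : Fin d, (l : ℕ) < r → single k l 1 * g ∈ G := fun l hl =>
    cyc_gen A G g0 gs ga gd (fun s => ρ (cH s)) h2 (fun k => single k l 1 * g) r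
      (fun k hk => h4 k l hk hl) (by
        rintro s u ⟨h, hh, n, hn, e, hz⟩
        refine ⟨cH s * h, mul_mem (h1 s) hh, n, hn, ?_, Z.mul_mem_left _ _ hz⟩
        rw [map_mul, e, Matrix.mul_smul, mul_single_eq]) cy k
  exact cyc_gen A G g0 gs ga gd (fun s => ρ (cH s)) h2 (fun l => single k l 1 * g) r s1 (by
    rintro s u ⟨h, hh, n, hn, e, hz⟩
    refine ⟨h * cH s, mul_mem hh (h1 s), n, hn, ?_, Z.mul_mem_right _ _ hz⟩
    rw [map_mul, e, Matrix.smul_mul, Matrix.mul_assoc, ← h3, single_mul_eq]) cy l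

/-- a trace function on matrices is a multiple of the trace -/
private theorem tr_uniq {K : Type} [Field K] {d : ℕ} (o : Fin d)
    (ψ : Matrix (Fin d) (Fin d) K →ₗ[K] K) (h : ∀ M N, ψ (M * N) = ψ (N * M))
    (M : Matrix (Fin d) (Fin d) K) : ψ M = ψ (single o o 1) * M.trace := by
  have e : ∀ s t, ψ (single s t (M s t)) = if t = s then ψ (single o o 1) * M s t else 0 := by
    intro s t
    have k : single s t (M s t) = M s t • (single s o (1 : K) * single o t 1) := by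
      rw [Matrix.single_mul_single_same, one_mul, Matrix.smul_single, smul_eq_mul, mul_one]
    rw [k, map_smul, h]
    split_ifs with k'
    · rw [k', Matrix.single_mul_single_same, one_mul, smul_eq_mul, mul_comm]
    · rw [Matrix.single_mul_single_of_ne _ _ _ _ k', map_zero, smul_zero]
  conv_lhs => rw [Matrix.matrix_eq_sum_single M]
  simp only [map_sum, e, Finset.sum_ite_eq', Finset.mem_univ, if_true, Matrix.trace, Matrix.diag,
    Finset.mul_sum]

namespace Wd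

variable {B : KB X Γ L} {ι : Type} [Fintype ι] (U : Wd B ι)

private theorem surj1 (j : ι) (M : Matrix (Fin (U.d j)) (Fin (U.d j)) (KK Γ)) :
    ∃ a, U.ρ j a = M ∧ ∀ m, m ≠ j → U.ρ m a = 0 := by
  induction hn : U.pos j using Nat.strong_induction_on generalizing j with
  | _ p ih =>
    have k : ∀ s t, ∃ a, U.ρ j a = single s t 1 * U.g j ∧ ∀ m, m ≠ j → U.ρ m a = 0 := by
      intro s t
      obtain ⟨h, -, n, hn0, h1, h2⟩ := U.top j s t
      have k : ∀ m, ∃ a, U.pos m < U.pos j → U.ρ m a = U.ρ m h ∧ ∀ m', m' ≠ m → U.ρ m' a = 0 :=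
        fun m => by
          by_cases c : U.pos m < U.pos j
          · obtain ⟨a, ha⟩ := ih (U.pos m) (hn ▸ c) m (U.ρ m h) rfl
            exact ⟨a, fun _ => ha⟩
          · exact ⟨0, fun c' => absurd c' c⟩
      choose a ha using k
      refine ⟨(n : KK Γ)⁻¹ • (h - ∑ m with U.pos m < U.pos j, a m), ?_, fun m hm => ?_⟩
      · rw [map_smul, map_sub, map_sum, Finset.sum_eq_zero, sub_zero, h1, smul_smul,
          inv_mul_cancel₀ (Int.cast_ne_zero.2 hn0), one_smul]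
        intro m hm
        have c := (Finset.mem_filter.1 hm).2
        exact (ha m c).2 j fun e => by rw [e] at c; exact lt_irrefl _ c
      · rw [map_smul, map_sub, map_sum]
        by_cases c : U.pos m < U.pos j
        · rw [Finset.sum_eq_single_of_mem m (Finset.mem_filter.2 ⟨Finset.mem_univ _, c⟩)
            fun m' hm' e => (ha m' (Finset.mem_filter.1 hm').2).2 m e.symm, (ha m c).1, sub_self,
            smul_zero]
        · rw [h2 m hm c, Finset.sum_eq_zero, sub_zero, smul_zero]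
          intro m' hm'
          have c' := (Finset.mem_filter.1 hm').2
          exact (ha m' c').2 m fun e => c (e ▸ c')
    choose a ha using k
    refine ⟨∑ s, ∑ t, (M * (U.g j)⁻¹) s t • a s t, ?_, fun m hm => ?_⟩
    · simp only [map_sum, map_smul, (ha _ _).1, ← Matrix.smul_mul, ← Matrix.sum_mul,
        Matrix.smul_single, smul_eq_mul, mul_one]
      rw [← Matrix.matrix_eq_sum_single, Matrix.nonsing_inv_mul_cancel_right _ _ (U.g_det j).isUnit]
    · simp only [map_sum, map_smul, (ha _ _).2 m hm, smul_zero, Finset.sum_const_zero]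

/-- strong induction on `pos j`: every `Pi.single j M` is in the range -/
theorem surj (M : ∀ j, Matrix (Fin (U.d j)) (Fin (U.d j)) (KK Γ)) : ∃ a, ∀ j, U.ρ j a = M j := by
  choose a ha using fun j => U.surj1 j (M j)
  refine ⟨∑ j, a j, fun j => ?_⟩
  rw [map_sum, Finset.sum_eq_single_of_mem j (Finset.mem_univ _) fun m _ e => (ha m).2 j e.symm,
    (ha j).1]

/-- dimension count -/
theorem ext' {a b : B.E.H} (h : ∀ j, U.ρ j a = U.ρ j b) : a = b := by
  have := Module.Finite.of_basis B.E.T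
  have k : Function.Injective (LinearMap.pi fun j => (U.ρ j).toLinearMap) := by
    rw [LinearMap.injective_iff_surjective_of_finrank_eq_finrank]
    · intro M
      obtain ⟨a, ha⟩ := U.surj M
      exact ⟨a, funext ha⟩
    · rw [Module.finrank_eq_card_basis B.E.T, ← U.card, Module.finrank_pi_fintype]
      simp [Module.finrank_matrix]
  exact k (funext h)

theorem ρ_el (M : ∀ j, Matrix (Fin (U.d j)) (Fin (U.d j)) (KK Γ)) (j : ι) :
    U.ρ j (U.el M) = M j := Classical.epsilon_spec (U.surj M) j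

theorem ρ_eS (Y : Set ι) (j : ι) : U.ρ j (U.eS Y) = if j ∈ Y then 1 else 0 :=
  U.ρ_el _ j

theorem eS_CI (Y : Set ι) : CI (U.eS Y) := by
  refine ⟨fun a => U.ext' fun j => ?_, U.ext' fun j => ?_⟩ <;>
  · rw [map_mul, ρ_eS]
    split_ifs <;> simp [ρ_eS, *]

theorem eS_mul (Y Y' : Set ι) : U.eS Y * U.eS Y' = U.eS (Y ∩ Y') := by
  refine U.ext' fun j => ?_
  rw [map_mul, ρ_eS, ρ_eS, ρ_eS]
  by_cases k : j ∈ Y <;> by_cases k' : j ∈ Y' <;> simp [k, k']

theorem eS_univ : U.eS Set.univ = 1 := U.ext' fun j => by simp [ρ_eS]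

theorem eS_empty : U.eS ∅ = 0 := U.ext' fun j => by simp [ρ_eS]

theorem eS_ne (j : ι) : U.eS {j} ≠ 0 := fun h => by
  have k := U.ρ_eS {j} j
  rw [h, map_zero, if_pos (Set.mem_singleton j)] at k
  have := congrFun (congrFun k ⟨0, U.d_pos j⟩) ⟨0, U.d_pos j⟩
  simp at this

theorem eS_sum (Y : Set ι) : U.eS Y = ∑ j with j ∈ Y, U.eS {j} := by
  refine U.ext' fun j => ?_
  simp [ρ_eS, map_sum]

theorem mem_lid {Y : Set ι} {a : B.E.H} : a ∈ B.lid (U.eS Y) ↔ ∀ j ∉ Y, U.ρ j a = 0 := by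
  rw [B.mem_lid (U.eS_CI Y).2]
  refine ⟨fun h j hj => ?_, fun h => U.ext' fun j => ?_⟩
  · rw [← h, map_mul, ρ_eS, if_neg hj, mul_zero]
  · rw [map_mul, ρ_eS]
    split_ifs with k
    · rw [mul_one]
    · rw [mul_zero, h j k]

/-- central idempotent matrices are `0` or `1` -/
theorem CI_eq {e : B.E.H} (h : CI e) : ∃ Y, e = U.eS Y := by
  refine ⟨{j | U.ρ j e = 1}, U.ext' fun j => ?_⟩
  rw [ρ_eS]
  split_ifs with k
  · exact k
  · obtain ⟨c, hc⟩ : U.ρ j e ∈ Set.range (Matrix.scalar (Fin (U.d j))) :=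
      Matrix.mem_range_scalar_of_commute_single fun s t _ => by
        obtain ⟨a, ha, -⟩ := U.surj1 j (single s t 1)
        rw [← ha, Commute, SemiconjBy, ← map_mul, ← map_mul, h.1]
    have e2 := congrArg (U.ρ j) h.2
    rw [map_mul, ← hc, ← map_mul] at e2
    have e3 := congrFun (congrFun e2 ⟨0, U.d_pos j⟩) ⟨0, U.d_pos j⟩
    simp only [Matrix.scalar_apply, Matrix.diagonal_apply_eq] at e3
    rcases eq_zero_or_one_of_sq_eq_self ((sq c).trans e3) with c0 | c1
    · rw [← hc, c0, map_zero]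
    · exact absurd (by rw [Set.mem_ofPred_eq, ← hc, c1, map_one]) k

/-- the inclusion of one block -/
private def inj (j : ι) : Matrix (Fin (U.d j)) (Fin (U.d j)) (KK Γ) →ₗ[KK Γ] B.E.H where
  toFun M := U.el (Pi.single j M)
  map_add' M N := U.ext' fun m => by simp only [map_add, ρ_el, Pi.single_add, Pi.add_apply]
  map_smul' c M := U.ext' fun m => by
    simp only [map_smul, ρ_el, Pi.single_smul, Pi.smul_apply, RingHom.id_apply]

private theorem ρ_inj (j : ι) (M : Matrix (Fin (U.d j)) (Fin (U.d j)) (KK Γ)) (m : ι) :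
    U.ρ m (U.inj j M) =
      (Pi.single j M : ∀ j, Matrix (Fin (U.d j)) (Fin (U.d j)) (KK Γ)) m := U.ρ_el _ m

private theorem inj_mul (j : ι) (M N : Matrix (Fin (U.d j)) (Fin (U.d j)) (KK Γ)) :
    U.inj j (M * N) = U.inj j M * U.inj j N := U.ext' fun m => by
  simp only [map_mul, ρ_inj, Pi.single_mul, Pi.mul_apply]

private theorem sum_inj (a : B.E.H) : ∑ j, U.inj j (U.ρ j a) = a := U.ext' fun m => by
  rw [map_sum, Finset.sum_eq_single_of_mem m (Finset.mem_univ _) fun j _ e => by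
    rw [ρ_inj, Pi.single_eq_of_ne e.symm], ρ_inj, Pi.single_eq_same]

/-- matrix units: `u j s t = el (Pi.single j (single s t 1))`, `ε j = u j 0 0` -/
theorem trace_form : ∃ ε : ι → B.E.H, (∀ j, ε j * ε j = ε j) ∧
    ∀ φ : B.E.H →ₗ[KK Γ] KK Γ, (∀ a b, φ (a * b) = φ (b * a)) →
      ∀ a, φ a = ∑ j, φ (ε j) * (U.ρ j a).trace := by
  refine ⟨fun j => U.inj j (single ⟨0, U.d_pos j⟩ ⟨0, U.d_pos j⟩ 1), fun j => ?_, fun φ h a => ?_⟩
  · rw [← inj_mul, Matrix.single_mul_single_same, one_mul]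
  · conv_lhs => rw [← U.sum_inj a, map_sum]
    refine Finset.sum_congr rfl fun j _ => ?_
    exact tr_uniq ⟨0, U.d_pos j⟩ (φ.comp (U.inj j))
      (fun M N => by rw [LinearMap.comp_apply, LinearMap.comp_apply, inj_mul, inj_mul, h]) _

theorem exists_lam : ∃ lam : ι → KK Γ, ∀ a, B.E.tau a = ∑ j, lam j * (U.ρ j a).trace := by
  obtain ⟨ε, -, h⟩ := U.trace_form
  exact ⟨_, h B.E.tau B.E.tau_comm⟩

/-- `trace_form` for the trace of `lmK`, `trace_idem` -/
theorem cell_trace (z : X.W) : ∃ m : ι → ℕ, (∀ j, m j ≠ 0 ↔ U.Occ z j) ∧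
    ∀ a, (B.lmK (B.toKL.cell z) a).trace = ∑ j, (m j : KK Γ) * (U.ρ j a).trace := by
  obtain ⟨ε, h1, h2⟩ := U.trace_form
  have hm := B.lmK_mul (B.toKL.cvx_cell z)
  let φ : B.E.H →ₗ[KK Γ] KK Γ :=
    { toFun := fun a => (B.lmK (B.toKL.cell z) a).trace
      map_add' := fun a b => by rw [B.lmK_add, Matrix.trace_add]
      map_smul' := fun c a => by rw [B.lmK_smul, Matrix.trace_smul, RingHom.id_apply] }
  have h3 := h2 φ fun a b => by
    show Matrix.trace _ = Matrix.trace _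
    rw [hm, hm, Matrix.trace_mul_comm]
  choose m h4 h5 using fun j => trace_idem (M := B.lmK (B.toKL.cell z) (ε j)) (by rw [← hm, h1])
  have h6 : ∀ a, (B.lmK (B.toKL.cell z) a).trace = ∑ j, (m j : KK Γ) * (U.ρ j a).trace :=
    fun a => (h3 a).trans (Finset.sum_congr rfl fun j _ => congrArg (· * _) (h4 j))
  refine ⟨m, fun j => ?_, h6⟩
  have h7 : (B.lmK (B.toKL.cell z) (U.eS {j})).trace = (m j * U.d j : ℕ) := by
    rw [h6, Finset.sum_eq_single_of_mem j (Finset.mem_univ _) fun i _ e => by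
      rw [ρ_eS, if_neg (by simpa using e), Matrix.trace_zero, mul_zero]]
    simp [ρ_eS]
  obtain ⟨k, h8, h9⟩ := trace_idem (M := B.lmK (B.toKL.cell z) (U.eS {j}))
    (by rw [← hm, (U.eS_CI _).2])
  have h10 : k = m j * U.d j := Nat.cast_injective (R := KK Γ) (h8.symm.trans h7)
  refine ⟨fun h e => ?_, fun h e => h (h9 (by rw [h10, e, zero_mul]))⟩
  rw [e, Matrix.trace_zero, eq_comm, Nat.cast_eq_zero] at h7
  exact mul_ne_zero h (U.d_pos j).ne' h7

end Wd

end

end Pool.Agent.P.MP_1a0ecf_al.K4
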